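import Pool.Agent.P.MP_9d026e_co.Three.Local3

/-! Characteristic three: averaging the determinant bound over random tuples. -/

open Polynomial

namespace Pool.Agent.P.MP_9d026e_co.Three

variable {k : Type*} [Field k] {Ω : Type*} [Fintype Ω]

theorem sum_update {M : Type*} [AddCommMonoid M] (F : (Fin 14 → Ω) → M) (i : Fin 14) :
    ∑ τ : Fin 14 → Ω, ∑ ω, F (Function.update τ i ω) = Fintype.card Ω • ∑ τ, F τ := by
  classical
  let e : (Fin 14 → Ω) × Ω → (Fin 14 → Ω) × Ω := fun p => (Function.update p.1 i p.2, p.1 i)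
  have he : Function.Involutive e := by
    rintro ⟨τ, ω⟩
    simp [e]
  have h1 := Equiv.sum_comp he.toPerm (fun p : (Fin 14 → Ω) × Ω => F p.1)
  rw [Fintype.sum_prod_type, Fintype.sum_prod_type] at h1
  simp only [Finset.sum_const, Finset.card_univ] at h1
  rw [Finset.smul_sum, ← h1]
  rfl

theorem sum_pair (g : Ω → Ω → ℤ) {i j : Fin 14} (hij : i ≠ j) :
    (Fintype.card Ω : ℤ) ^ 2 * ∑ τ : Fin 14 → Ω, g (τ i) (τ j) =
      (Fintype.card (Fin 14 → Ω) : ℤ) * ∑ ω, ∑ ω', g ω ω' := by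
  have h1 := sum_update (fun τ : Fin 14 → Ω => g (τ i) (τ j)) j
  simp only [Function.update_self, Function.update_of_ne hij] at h1
  have h2 := sum_update (fun τ : Fin 14 → Ω => ∑ ω', g (τ i) ω') i
  simp only [Function.update_self, Finset.sum_const, Finset.card_univ] at h2
  rw [h1] at h2
  simp only [nsmul_eq_mul] at h2
  rw [h2]; ring

open Classical in
/-- number of members of the family congruent to `u` -/
noncomputable def cntD (d : k[X]) (P : Ω → k[X]) (u : k[X]) : ℕ :=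
  ∑ ω, if d ∣ P ω - u then 1 else 0

open Classical in
/-- number of members of the family on a curve -/
noncomputable def cntZ (c : Fin 14 → k[X]) (P : Ω → k[X]) : ℕ :=
  ∑ ω, if c ⬝ᵥ jt (P ω) = 0 then 1 else 0

open Classical in
theorem cnt_dvd (d : k[X]) (P Q : Ω → k[X]) :
    (∑ i, ∑ j, if d ∣ P i - Q j then 1 else 0) =
      cnt (fun i => Ideal.Quotient.mk (Ideal.span {d}) (P i))
      (fun i => Ideal.Quotient.mk (Ideal.span {d}) (Q i)) := by
  unfold cnt
  refine Finset.sum_congr rfl fun i _ => Finset.sum_congr rfl fun j _ => ?_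
  have h : d ∣ P i - Q j ↔ Ideal.Quotient.mk (Ideal.span {d}) (P i) =
      Ideal.Quotient.mk (Ideal.span {d}) (Q j) := by
    rw [Ideal.Quotient.eq, Ideal.mem_span_singleton]
  by_cases h1 : d ∣ P i - Q j
  · rw [if_pos h1, if_pos (h.1 h1)]
  · rw [if_neg h1, if_neg (fun h2 => h1 (h.2 h2))]

theorem sum_low (x : k) (l : ℕ) (P Q : Ω → k[X]) :
    ∑ i, ∑ j, low x l (P i - Q j) = ∑ r ∈ Finset.range l,
      2 * cnt (fun i => Ideal.Quotient.mk (Ideal.span {(X - C x) ^ (2 * r + 2)}) (P i))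
        (fun i => Ideal.Quotient.mk (Ideal.span {(X - C x) ^ (2 * r + 2)}) (Q i)) := by
  unfold low
  simp only [← cnt_dvd, Finset.mul_sum]
  rw [Finset.sum_comm (s := Finset.range l)]
  refine Finset.sum_congr rfl fun i _ => ?_
  rw [Finset.sum_comm (s := Finset.range l)]
  refine Finset.sum_congr rfl fun j _ => Finset.sum_congr rfl fun r _ => ?_
  split_ifs <;> simp

theorem low_amgm (x : k) (l : ℕ) (P Q : Ω → k[X]) :
    2 * ∑ i, ∑ j, low x l (P i - Q j) ≤
      ∑ i, ∑ j, low x l (P i - P j) + ∑ i, ∑ j, low x l (Q i - Q j) := by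
  rw [sum_low, sum_low, sum_low, Finset.mul_sum, ← Finset.sum_add_distrib]
  refine Finset.sum_le_sum fun r _ => ?_
  have := cnt_amgm (fun i => Ideal.Quotient.mk (Ideal.span {(X - C x) ^ (2 * r + 2)}) (P i))
    (fun i => Ideal.Quotient.mk (Ideal.span {(X - C x) ^ (2 * r + 2)}) (Q i))
  omega

/-- the tuple of polynomials chosen by `τ` -/
def tup (P Q : Ω → k[X]) (τ : Fin 14 → Ω) (i : Fin 14) : k[X] :=
  if i.val < 7 then P (τ i) else Q (τ i)

theorem rm_neg (x : k) (u : k[X]) : rootMultiplicity x (-u) = rootMultiplicity x u := by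
  classical
  rw [← count_roots, ← count_roots, roots_neg]

theorem rm_sub_comm (x : k) (u v : k[X]) :
    rootMultiplicity x (u - v) = rootMultiplicity x (v - u) := by
  rw [← neg_sub, rm_neg]

theorem low_sub_comm (x : k) (l : ℕ) (u v : k[X]) : low x l (u - v) = low x l (v - u) := by
  rw [← neg_sub, low_neg]

theorem ind_sums : (∑ i : Fin 14, ∑ j : Fin 14,
      if i.val < 7 ∧ j.val < 7 ∧ i ≠ j then (1 : ℤ) else 0) = 42 ∧
    (∑ i : Fin 14, ∑ j : Fin 14, if ¬ i.val < 7 ∧ ¬ j.val < 7 ∧ i ≠ j then (1 : ℤ) else 0) = 42 ∧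
    (∑ i : Fin 14, ∑ j : Fin 14, if same i j then (0 : ℤ) else 1) = 98 := by
  decide +kernel

theorem lower (x : k) (l : ℕ) (P Q : Ω → k[X]) :
    (Fintype.card (Fin 14 → Ω) : ℤ) * (229810 * ∑ ω, ∑ ω', (rootMultiplicity x (P ω - Q ω') : ℤ)) ≤
      (Fintype.card Ω : ℤ) ^ 2 * ∑ τ : Fin 14 → Ω, ∑ i, ∑ j, pc x l (tup P Q τ) i j := by
  set α : ℤ := ∑ ω, ∑ ω', (low x l (P ω - P ω') : ℤ) with hα
  set β : ℤ := ∑ ω, ∑ ω', (low x l (Q ω - Q ω') : ℤ) with hβ
  set γ : ℤ := ∑ ω, ∑ ω', (low x l (P ω - Q ω') : ℤ) with hγ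
  set V : ℤ := ∑ ω, ∑ ω', (rootMultiplicity x (P ω - Q ω') : ℤ) with hV
  set N : ℤ := (Fintype.card (Fin 14 → Ω) : ℤ) with hN
  have h1 : 2 * γ ≤ α + β := by
    rw [hα, hβ, hγ]
    exact_mod_cast low_amgm x l P Q
  have h2 : ∀ i j : Fin 14, (Fintype.card Ω : ℤ) ^ 2 * ∑ τ : Fin 14 → Ω, pc x l (tup P Q τ) i j =
      N * (1029 * α) * (if i.val < 7 ∧ j.val < 7 ∧ i ≠ j then (1 : ℤ) else 0) +
      N * (1029 * β) * (if ¬ i.val < 7 ∧ ¬ j.val < 7 ∧ i ≠ j then (1 : ℤ) else 0) +
      N * (2345 * V - 882 * γ) * (if same i j then (0 : ℤ) else 1) := by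
    intro i j
    by_cases hij : i = j
    · subst hij
      simp [pc, same]
    by_cases hi : i.val < 7 <;> by_cases hj : j.val < 7
    · have := sum_pair (fun ω ω' => 1029 * (low x l (P ω - P ω') : ℤ)) hij
      simp only [← Finset.mul_sum] at this
      simp only [pc, same, tup, hi, hj, hij, if_true, if_false, ← Finset.mul_sum, this]
      simp [hij, hα, hN]
    · have := sum_pair (fun ω ω' => 2345 * (rootMultiplicity x (P ω - Q ω') : ℤ) -
        882 * (low x l (P ω - Q ω') : ℤ)) hij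
      simp only [pc, same, tup, hi, hj, hij, if_true, if_false, iff_false, not_true, this]
      simp [hij, hγ, hV, hN, Finset.mul_sum]
    · have := sum_pair (fun ω ω' => 2345 * (rootMultiplicity x (Q ω - P ω') : ℤ) -
        882 * (low x l (Q ω - P ω') : ℤ)) hij
      simp only [pc, same, tup, hi, hj, hij, if_true, if_false, iff_true, this]
      rw [Finset.sum_comm]
      simp only [rm_sub_comm x (Q _), low_sub_comm x l (Q _)]
      simp [hij, hγ, hV, hN, Finset.mul_sum]
    · have := sum_pair (fun ω ω' => 1029 * (low x l (Q ω - Q ω') : ℤ)) hij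
      simp only [← Finset.mul_sum] at this
      simp only [pc, same, tup, hi, hj, hij, if_true, if_false, ← Finset.mul_sum, this]
      simp [hij, hβ, hN]
  have h3 : (Fintype.card Ω : ℤ) ^ 2 * ∑ τ : Fin 14 → Ω, ∑ i, ∑ j, pc x l (tup P Q τ) i j =
      ∑ i, ∑ j, (Fintype.card Ω : ℤ) ^ 2 * ∑ τ : Fin 14 → Ω, pc x l (tup P Q τ) i j := by
    rw [Finset.sum_comm, Finset.mul_sum]
    refine Finset.sum_congr rfl fun i _ => ?_
    rw [Finset.sum_comm, Finset.mul_sum]
  rw [h3]
  simp only [h2, Finset.sum_add_distrib, ← Finset.mul_sum, ind_sums.1, ind_sums.2.1, ind_sums.2.2]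
  have hN0 : 0 ≤ N := Int.natCast_nonneg _
  nlinarith [mul_le_mul_of_nonneg_left h1 hN0]

/-- the least of three cross valuations -/
noncomputable def mn (x : k) (P Q : Ω → k[X]) (τ : Fin 14 → Ω) : ℕ :=
  min (rootMultiplicity x (P (τ 0) - Q (τ 7)))
    (min (rootMultiplicity x (P (τ 1) - Q (τ 7))) (rootMultiplicity x (P (τ 0) - Q (τ 8))))

theorem half_level [Nonempty Ω] (F : (Fin 14 → Ω) → Prop) (G : (Fin 14 → Ω) → Prop)
    [DecidablePred F] [DecidablePred G] (i j : Fin 14) (hij : i ≠ j) (d : k[X]) (R : Ω → k[X])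
    (hF : ∀ τ ω, F (Function.update τ j ω) ↔ F τ)
    (hG : ∀ τ, G τ → F τ ∧ d ∣ R (τ j) - R (τ i))
    (h : ∀ ω, 2 * cntD d R (R ω) ≤ Fintype.card Ω) :
    2 * (∑ τ, if G τ then 1 else 0) ≤ ∑ τ, if F τ then 1 else 0 := by
  classical
  have h1 : (∑ τ, if G τ then 1 else 0) ≤
      ∑ τ : Fin 14 → Ω, (if F τ then 1 else 0) * (if d ∣ R (τ j) - R (τ i) then 1 else 0) := by
    refine Finset.sum_le_sum fun τ _ => ?_
    by_cases hτ : G τ
    · simp [hτ, (hG τ hτ).1, (hG τ hτ).2]
    · simp [hτ]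
  have h2 := sum_update (fun τ : Fin 14 → Ω =>
    (if F τ then 1 else 0) * (if d ∣ R (τ j) - R (τ i) then 1 else 0)) j
  simp only [Function.update_self, Function.update_of_ne hij, hF, ← Finset.mul_sum,
    smul_eq_mul] at h2
  have h3 : 2 * ∑ τ : Fin 14 → Ω, (if F τ then 1 else 0) *
      (∑ ω, if d ∣ R ω - R (τ i) then 1 else 0) ≤
      Fintype.card Ω * ∑ τ, if F τ then 1 else 0 := by
    rw [Finset.mul_sum, Finset.mul_sum]
    refine Finset.sum_le_sum fun τ _ => ?_
    have := h (τ i)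
    unfold cntD at this
    split_ifs
    · simpa using this
    · simp
  refine Nat.le_of_mul_le_mul_left ?_ (Fintype.card_pos (α := Ω))
  rw [h2] at h3
  nlinarith [Nat.mul_le_mul_left (Fintype.card Ω) h1]

theorem half_mn [Nonempty Ω] (x : k) (P Q : Ω → k[X]) (n : ℕ)
    (hz : ∀ ω ω', P ω - Q ω' ≠ 0 ∧ (P ω - Q ω').natDegree = n)
    (hh : ∀ r ω ω', (X - C x) ^ (r + 1) ∣ P ω - Q ω' →
      (∀ ω, 2 * cntD ((X - C x) ^ (r + 1)) P (P ω) ≤ Fintype.card Ω) ∨
      (∀ ω, 2 * cntD ((X - C x) ^ (r + 1)) Q (Q ω) ≤ Fintype.card Ω)) :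
    2 * ∑ τ, mn x P Q τ ≤ ∑ τ : Fin 14 → Ω, rootMultiplicity x (P (τ 0) - Q (τ 7)) := by
  classical
  let G : ℕ → (Fin 14 → Ω) → Prop := fun r τ => (X - C x) ^ (r + 1) ∣ P (τ 0) - Q (τ 7) ∧
    (X - C x) ^ (r + 1) ∣ P (τ 1) - Q (τ 7) ∧ (X - C x) ^ (r + 1) ∣ P (τ 0) - Q (τ 8)
  let F : ℕ → (Fin 14 → Ω) → Prop := fun r τ => (X - C x) ^ (r + 1) ∣ P (τ 0) - Q (τ 7)
  have h1 : ∀ τ, mn x P Q τ ≤ ∑ r ∈ Finset.range n, if G r τ then 1 else 0 := by
    intro τ
    rw [← Finset.card_filter]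
    refine le_trans (le_of_eq (Finset.card_range _).symm) (Finset.card_le_card fun r hr => ?_)
    have hr' := Finset.mem_range.1 hr
    unfold mn at hr'
    have h2 := sum_rm_le (P (τ 0) - Q (τ 7)) {x}
    rw [Finset.sum_singleton, (hz _ _).2] at h2
    refine Finset.mem_filter.2 ⟨Finset.mem_range.2 (by omega), ?_, ?_, ?_⟩ <;>
      rw [dvd_iff_le_rm (hz _ _).1] <;> omega
  have h2 : ∀ τ : Fin 14 → Ω, (∑ r ∈ Finset.range n, if F r τ then 1 else 0) ≤
      rootMultiplicity x (P (τ 0) - Q (τ 7)) := fun τ => by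
    convert sum_level_le (hz (τ 0) (τ 7)).1 x n
  have h3 : ∀ r, 2 * (∑ τ, if G r τ then 1 else 0) ≤ ∑ τ, if F r τ then 1 else 0 := by
    intro r
    by_cases h4 : ∃ ω ω', (X - C x) ^ (r + 1) ∣ P ω - Q ω'
    · obtain ⟨ω, ω', h4⟩ := h4
      rcases hh r ω ω' h4 with h5 | h5
      · refine half_level (F r) (G r) 0 1 (by decide) _ P (fun τ ω => ?_) (fun τ hτ => ?_) h5
        · simp only [F]
          rw [Function.update_of_ne (by decide), Function.update_of_ne (by decide)]
        · refine ⟨hτ.1, ?_⟩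
          have := dvd_sub hτ.2.1 hτ.1
          rwa [sub_sub_sub_cancel_right] at this
      · refine half_level (F r) (G r) 7 8 (by decide) _ Q (fun τ ω => ?_) (fun τ hτ => ?_) h5
        · simp only [F]
          rw [Function.update_of_ne (by decide), Function.update_of_ne (by decide)]
        · refine ⟨hτ.1, ?_⟩
          have := dvd_sub hτ.1 hτ.2.2
          rwa [sub_sub_sub_cancel_left] at this
    · rw [Finset.sum_eq_zero]
      · simp
      · intro τ _
        exact if_neg fun h => h4 ⟨_, _, h.1⟩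
  calc 2 * ∑ τ, mn x P Q τ ≤ 2 * ∑ τ, ∑ r ∈ Finset.range n, if G r τ then 1 else 0 :=
        Nat.mul_le_mul_left _ (Finset.sum_le_sum fun τ _ => h1 τ)
    _ = ∑ r ∈ Finset.range n, 2 * ∑ τ, if G r τ then 1 else 0 := by
        rw [Finset.sum_comm, Finset.mul_sum]
    _ ≤ ∑ r ∈ Finset.range n, ∑ τ, if F r τ then 1 else 0 := Finset.sum_le_sum fun r _ => h3 r
    _ = ∑ τ, ∑ r ∈ Finset.range n, if F r τ then 1 else 0 := Finset.sum_comm
    _ ≤ _ := Finset.sum_le_sum fun τ _ => h2 τ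

/-- the rows indexed by `S` are linearly dependent -/
def Dep (v : Fin 14 → Fin 14 → k[X]) (S : Finset (Fin 14)) : Prop :=
  ∃ w : Fin 14 → k[X], w ≠ 0 ∧ (∀ i, i ∉ S → w i = 0) ∧ ∑ i, w i • v i = 0

open Classical in
theorem bad_count (row : Fin 14 → Ω → Fin 14 → k[X]) (B : ℕ)
    (h : ∀ i c, c ≠ 0 → (∑ ω, if c ⬝ᵥ row i ω = 0 then 1 else 0) ≤ B) (S : Finset (Fin 14)) :
    Fintype.card Ω * (∑ τ : Fin 14 → Ω, if Dep (fun i => row i (τ i)) S then 1 else 0) ≤
      S.card * B * Fintype.card (Fin 14 → Ω) := by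
  induction S using Finset.induction_on with
  | empty =>
    rw [Finset.sum_eq_zero]
    · simp
    · intro τ _
      refine if_neg ?_
      rintro ⟨w, h1, h2, -⟩
      exact h1 (funext fun i => h2 i (by simp))
  | insert a S ha ih =>
    have hker : ∀ v : Fin 14 → Fin 14 → k[X], ∃ c : Fin 14 → k[X], v a = 0 →
        c ≠ 0 ∧ ∀ i, c ⬝ᵥ v i = 0 := by
      intro v
      by_cases hv : v a = 0
      · have hd : (Matrix.of v).det = 0 :=
          Matrix.det_eq_zero_of_row_eq_zero a fun j => by simp [hv]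
        obtain ⟨c, hc0, hc⟩ := Matrix.exists_mulVec_eq_zero_iff.2 hd
        refine ⟨c, fun _ => ⟨hc0, fun i => ?_⟩⟩
        rw [dotProduct_comm]
        exact congrFun hc i
      · exact ⟨0, fun h => absurd h hv⟩
    choose K hK using hker
    let cut : (Fin 14 → Ω) → Fin 14 → Fin 14 → k[X] := fun τ i => if i ∈ S then row i (τ i) else 0
    have hcut : ∀ τ, cut τ a = 0 := fun τ => if_neg ha
    have hupd : ∀ τ ω, cut (Function.update τ a ω) = cut τ := by
      intro τ ω
      funext i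
      simp only [cut]
      split_ifs with hi
      · rw [Function.update_of_ne (fun h' : i = a => ha (h' ▸ hi))]
      · rfl
    have h1 : ∀ τ : Fin 14 → Ω, (if Dep (fun i => row i (τ i)) (insert a S) then 1 else 0) ≤
        (if Dep (fun i => row i (τ i)) S then 1 else 0) +
          (if K (cut τ) ⬝ᵥ row a (τ a) = 0 then 1 else 0) := by
      intro τ
      by_cases hd : Dep (fun i => row i (τ i)) (insert a S)
      swap
      · rw [if_neg hd]; exact Nat.zero_le _
      obtain ⟨w, w0, w1, w2⟩ := hd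
      by_cases hwa : w a = 0
      · have : Dep (fun i => row i (τ i)) S := ⟨w, w0, fun i hi => by
          by_cases hia : i = a
          · rw [hia, hwa]
          · exact w1 i (by simp [hia, hi]), w2⟩
        rw [if_pos this]
        split_ifs <;> simp
      · have h2 := congrArg (fun z => K (cut τ) ⬝ᵥ z) w2
        simp only [dotProduct_sum, dotProduct_smul, dotProduct_zero, smul_eq_mul] at h2
        rw [Finset.sum_eq_single a] at h2
        · rw [if_pos ((mul_eq_zero.1 h2).resolve_left hwa)]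
          split_ifs <;> simp
        · intro i _ hia
          by_cases hi : i ∈ S
          · have := (hK (cut τ) (hcut τ)).2 i
            simp only [cut, if_pos hi] at this ⊢
            rw [this, mul_zero]
          · rw [w1 i (by simp [hia, hi]), zero_mul]
        · simp
    have h2 := sum_update (fun τ : Fin 14 → Ω =>
      if K (cut τ) ⬝ᵥ row a (τ a) = 0 then 1 else 0) a
    simp only [Function.update_self, hupd, smul_eq_mul] at h2
    have h3 : ∑ τ : Fin 14 → Ω, (∑ ω, if K (cut τ) ⬝ᵥ row a ω = 0 then 1 else 0) ≤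
        B * Fintype.card (Fin 14 → Ω) := by
      calc _ ≤ ∑ _τ : Fin 14 → Ω, B :=
            Finset.sum_le_sum fun τ _ => h a _ (hK (cut τ) (hcut τ)).1
        _ = _ := by rw [Finset.sum_const, Finset.card_univ, smul_eq_mul, mul_comm]
    have h4 := Finset.sum_le_sum fun τ (_ : τ ∈ Finset.univ) => h1 τ
    rw [Finset.sum_add_distrib] at h4
    rw [Finset.card_insert_of_notMem ha]
    have h5 := Nat.mul_le_mul_left (Fintype.card Ω) h4
    rw [mul_add, ← h2] at h5
    nlinarith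

theorem pc_le (x : k) (l : ℕ) (f : Fin 14 → k[X]) (i j : Fin 14) :
    pc x l f i j ≤ 2058 * (l : ℤ) * (if same i j ∧ i ≠ j then 1 else 0) +
      2345 * (cv x f i j : ℤ) := by
  have h1 : (low x l (f i - f j) : ℤ) ≤ 2 * l := by exact_mod_cast low_le x l _
  have h2 : (0 : ℤ) ≤ low x l (f i - f j) := Int.natCast_nonneg _
  unfold pc cv
  by_cases hij : i = j
  · subst hij
    simp [same]
  · by_cases hs : same i j <;> simp [hs, hij] <;> linarith

theorem ind_sums' : (∑ i : Fin 14, ∑ j : Fin 14, if same i j ∧ i ≠ j then (1 : ℤ) else 0) = 84 := by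
  decide +kernel

theorem average [IsAlgClosed k] (h2 : (2 : k) ≠ 0) (h3 : (3 : k) = 0) (P Q : Ω → k[X]) (n : ℕ)
    (hn : 1 ≤ n) (hU : 2 ^ 30 ≤ Fintype.card Ω) (hP : ∀ ω, (P ω).natDegree ≤ n)
    (hQ : ∀ ω, (Q ω).natDegree ≤ n) (hz : ∀ ω ω', (P ω - Q ω').natDegree = n)
    (l : k → ℕ) (hl : ∀ T : Finset k, ∑ x ∈ T, l x ≤ 1116 * n)
    (hL : ∀ x ω ω', Lv x (l x) (P ω - Q ω'))
    (hh : ∀ x r ω ω', (X - C x) ^ (r + 1) ∣ P ω - Q ω' →
      (∀ ω, 2 * cntD ((X - C x) ^ (r + 1)) P (P ω) ≤ Fintype.card Ω) ∨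
      (∀ ω, 2 * cntD ((X - C x) ^ (r + 1)) Q (Q ω) ≤ Fintype.card Ω))
    (hZP : ∀ c, c ≠ 0 → cntZ c P ≤ 42) (hZQ : ∀ c, c ≠ 0 → cntZ c Q ≤ 42) : False := by
  classical
  have hne : Nonempty Ω := Fintype.card_pos_iff.1 (by omega)
  have h0 : ∀ ω ω', P ω - Q ω' ≠ 0 := fun ω ω' => (hL 0 ω ω').1
  let T : Finset k := Finset.univ.biUnion fun ω => Finset.univ.biUnion fun ω' =>
    (P ω - Q ω').roots.toFinset
  have hT : ∀ ω ω', ∑ x ∈ T, (rootMultiplicity x (P ω - Q ω') : ℤ) = n := by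
    intro ω ω'
    have := sum_rm_eq (P ω - Q ω') T (by
      intro a ha
      simp only [T, Finset.mem_biUnion, Finset.mem_univ, true_and, Multiset.mem_toFinset]
      exact ⟨ω, ω', ha⟩)
    rw [hz] at this
    exact_mod_cast this
  set U : ℤ := (Fintype.card Ω : ℤ) with hUdef
  set N : ℤ := (Fintype.card (Fin 14 → Ω) : ℤ) with hN
  have hU' : 2 ^ 30 ≤ U := by rw [hUdef]; exact_mod_cast hU
  have hN0 : 0 < N := by rw [hN]; exact_mod_cast Fintype.card_pos
  have hn' : (1 : ℤ) ≤ n := by exact_mod_cast hn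
  set Z : (Fin 14 → Ω) → ℤ := fun τ => ∑ x ∈ T, ∑ i, ∑ j, pc x (l x) (tup P Q τ) i j with hZ
  -- lower bound
  have hA : N * (229810 * n) ≤ ∑ τ, Z τ := by
    have e1 := Finset.sum_le_sum fun x (_ : x ∈ T) => lower x (l x) P Q
    rw [← Finset.mul_sum, ← Finset.mul_sum, ← Finset.mul_sum, Finset.sum_comm (s := T),
      Finset.sum_comm (s := T)] at e1
    simp only [Finset.sum_comm (s := T) (t := (Finset.univ : Finset Ω)), hT, Finset.sum_const,
      Finset.card_univ, nsmul_eq_mul] at e1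
    refine le_of_mul_le_mul_left ?_ (show 0 < U ^ 2 by positivity)
    convert e1 using 1
    rw [← hUdef, ← hN]; ring
  -- cross differences of a tuple
  have hcross : ∀ τ i j, ¬ same i j → ∃ ω ω', tup P Q τ i - tup P Q τ j = P ω - Q ω' ∨
      tup P Q τ i - tup P Q τ j = -(P ω - Q ω') := by
    intro τ i j hij
    unfold same at hij
    unfold tup
    by_cases hi : i.val < 7 <;> by_cases hj : j.val < 7
    · exact absurd (iff_of_true hi hj) hij
    · exact ⟨τ i, τ j, Or.inl (by rw [if_pos hi, if_neg hj])⟩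
    · exact ⟨τ j, τ i, Or.inr (by rw [if_neg hi, if_pos hj, neg_sub])⟩
    · exact absurd (iff_of_false hi hj) hij
  let bad : (Fin 14 → Ω) → Prop := fun τ => Dep (fun i => jt (tup P Q τ i)) Finset.univ
  have hB : ∀ τ, Z τ ≤ 229320 * (n : ℤ) + 490 * ∑ x ∈ T, (mn x P Q τ : ℤ) +
      193154962 * (n : ℤ) * (if bad τ then 1 else 0) := by
    intro τ
    by_cases hb : bad τ
    · rw [if_pos hb]
      have e1 : Z τ ≤ ∑ x ∈ T, ∑ i, ∑ j, (2058 * (l x : ℤ) * (if same i j ∧ i ≠ j then 1 else 0) +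
          2345 * (cv x (tup P Q τ) i j : ℤ)) :=
        Finset.sum_le_sum fun x _ => Finset.sum_le_sum fun i _ => Finset.sum_le_sum fun j _ =>
          pc_le x (l x) _ i j
      simp only [Finset.sum_add_distrib, ← Finset.mul_sum, ind_sums', ← Finset.sum_mul] at e1
      have e2 : ∑ x ∈ T, ∑ i, ∑ j, (cv x (tup P Q τ) i j : ℤ) = n * 98 := by
        rw [← ind_sums.2.2, Finset.sum_comm, Finset.mul_sum]
        refine Finset.sum_congr rfl fun i _ => ?_
        rw [Finset.sum_comm, Finset.mul_sum]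
        refine Finset.sum_congr rfl fun j _ => ?_
        unfold cv
        by_cases hij : same i j
        · simp [hij]
        · simp only [if_neg hij, mul_one]
          obtain ⟨ω, ω', h | h⟩ := hcross τ i j hij
          · rw [h, hT]
          · rw [h]; simp only [rm_neg, hT]
      have e3 : ∑ x ∈ T, (l x : ℤ) ≤ 1116 * n := by exact_mod_cast hl T
      have e4 : 0 ≤ ∑ x ∈ T, (mn x P Q τ : ℤ) := Finset.sum_nonneg fun x _ => Int.natCast_nonneg _
      rw [e2] at e1
      linarith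
    · rw [if_neg hb, mul_zero, add_zero]
      refine tuple_bound h2 h3 (tup P Q τ) n (fun i => ?_) l (fun x => mn x P Q τ)
        (fun x i j hij => ?_) (fun x => ?_) (fun hd => hb ?_) T
      · unfold tup; split_ifs
        · exact hP _
        · exact hQ _
      · obtain ⟨ω, ω', h | h⟩ := hcross τ i j hij
        · rw [h]; exact hL x ω ω'
        · rw [h]
          have := hL x ω ω'
          unfold Lv at this ⊢
          rwa [rm_neg, neg_ne_zero]
      · unfold mn
        rcases min_choice (rootMultiplicity x (P (τ 0) - Q (τ 7)))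
          (min (rootMultiplicity x (P (τ 1) - Q (τ 7))) (rootMultiplicity x (P (τ 0) - Q (τ 8))))
          with h | h
        · exact ⟨0, 7, by decide, by rw [h]; rfl⟩
        · rcases min_choice (rootMultiplicity x (P (τ 1) - Q (τ 7)))
            (rootMultiplicity x (P (τ 0) - Q (τ 8))) with h' | h'
          · exact ⟨1, 7, by decide, by rw [h, h']; rfl⟩
          · exact ⟨0, 8, by decide, by rw [h, h']; rfl⟩
      · obtain ⟨w, hw0, hw⟩ := Matrix.exists_vecMul_eq_zero_iff.2 hd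
        refine ⟨w, hw0, fun i hi => absurd (Finset.mem_univ i) hi, ?_⟩
        rw [← hw]
        funext μ
        simp [Matrix.vecMul, dotProduct, Finset.sum_apply]
  have hC : 2 * ∑ τ, ∑ x ∈ T, (mn x P Q τ : ℤ) ≤ N * n := by
    rw [Finset.sum_comm, Finset.mul_sum]
    calc _ ≤ ∑ x ∈ T, ∑ τ : Fin 14 → Ω, (rootMultiplicity x (P (τ 0) - Q (τ 7)) : ℤ) :=
          Finset.sum_le_sum fun x _ => by
            exact_mod_cast half_mn x P Q n (fun ω ω' => ⟨h0 ω ω', hz ω ω'⟩) (hh x)
      _ = _ := by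
          rw [Finset.sum_comm]
          simp only [hT, Finset.sum_const, Finset.card_univ, nsmul_eq_mul, hN]
  have hD : U * (∑ τ, if bad τ then (1 : ℤ) else 0) ≤ 588 * N := by
    have := bad_count (fun (i : Fin 14) ω => jt (if i.val < 7 then P ω else Q ω)) 42 (by
      intro i c hc
      by_cases hi : i.val < 7
      · simp only [if_pos hi]; exact hZP c hc
      · simp only [if_neg hi]; exact hZQ c hc) Finset.univ
    rw [Finset.card_univ, Fintype.card_fin] at this
    rw [hUdef, hN]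
    exact_mod_cast this
  have hE := Finset.sum_le_sum fun τ (_ : τ ∈ Finset.univ) => hB τ
  simp only [Finset.sum_add_distrib, ← Finset.mul_sum, Finset.sum_const, Finset.card_univ,
    nsmul_eq_mul] at hE
  rw [← hN] at hE
  set b : ℤ := ∑ τ, if bad τ then (1 : ℤ) else 0 with hb
  have e1 : 245 * N * n ≤ 193154962 * b * n := by linarith
  have e2 : 245 * N ≤ 193154962 * b := le_of_mul_le_mul_right e1 (by linarith)
  have e3 : U * (245 * N) ≤ 193154962 * (588 * N) := by nlinarith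
  nlinarith

end Pool.Agent.P.MP_9d026e_co.Three
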