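import Pool.Agent.P.MP_9d026e_co.Three.Average

/-! Characteristic three: either a first order relation of the standard shape, or few points on
any curve of degree two in the derivative. -/

open Polynomial

namespace Pool.Agent.P.MP_9d026e_co.Three

section Alg

variable {R : Type*} [CommRing R] [IsDomain R]

omit [IsDomain R] in
theorem natDegree_det_le {N D : ℕ} (M : Matrix (Fin N) (Fin N) R[X])
    (h : ∀ i j, (M i j).natDegree ≤ D) : M.det.natDegree ≤ N * D := by
  rw [Matrix.det_apply]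
  refine natDegree_sum_le_of_forall_le _ _ fun σ _ => ?_
  have e1 : (Equiv.Perm.sign σ • ∏ i, M (σ i) i).natDegree ≤ (∏ i, M (σ i) i).natDegree := by
    rcases Int.units_eq_one_or (Equiv.Perm.sign σ) with h | h <;> simp [h]
  refine e1.trans ((natDegree_prod_le _ _).trans ?_)
  calc _ ≤ ∑ _i : Fin N, D := Finset.sum_le_sum fun i _ => h _ _
    _ = _ := by simp

/-- a cubic without roots has a nonzero norm form -/
theorem cubic_norm {A : Type*} [CommRing A] [IsDomain A] [UniqueFactorizationMonoid A]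
    (b e a0 a1 a2 : A) (hr : ∀ y : A, y ^ 3 + b * y ≠ e) (ha : ¬ (a0 = 0 ∧ a1 = 0 ∧ a2 = 0)) :
    (!![a0, a1, a2; a2 * e, a0 - b * a2, a1; a1 * e, a2 * e - b * a1, a0 - b * a2] :
      Matrix (Fin 3) (Fin 3) A).det ≠ 0 := by
  intro hd
  obtain ⟨g, hg0, hg⟩ := Matrix.exists_vecMul_eq_zero_iff.2 hd
  have e0 := congrFun hg 0
  have e1 := congrFun hg 1
  have e2 := congrFun hg 2
  simp only [Matrix.vecMul, dotProduct, Fin.sum_univ_three, Matrix.of_apply, Matrix.cons_val,
    Pi.zero_apply] at e0 e1 e2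
  set F : A[X] := X ^ 3 + C b * X - C e with hF
  have hm : F.Monic := by rw [hF]; monicity!
  have hdeg : F.natDegree = 3 := by rw [hF]; compute_degree!
  have hirr : Irreducible F := by
    rw [hm.irreducible_iff_roots_eq_zero_of_degree_le_three (by omega) (by omega),
      Multiset.eq_zero_iff_forall_notMem]
    intro y hy
    have := (mem_roots hm.ne_zero).1 hy
    simp only [hF, IsRoot, eval_sub, eval_add, eval_pow, eval_X, eval_mul, eval_C] at this
    exact hr y (sub_eq_zero.1 this)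
  have hq : ∀ c0 c1 c2 : A, F ∣ C c0 + C c1 * X + C c2 * X ^ 2 → c0 = 0 ∧ c1 = 0 ∧ c2 = 0 := by
    intro c0 c1 c2 h
    have h1 := eq_zero_of_dvd_of_natDegree_lt h (by
      rw [hdeg, Nat.lt_succ_iff]; compute_degree)
    have k0 := congrArg (fun f => f.coeff 0) h1
    have k1 := congrArg (fun f => f.coeff 1) h1
    have k2 := congrArg (fun f => f.coeff 2) h1
    simp [coeff_X, coeff_X_pow] at k0 k1 k2
    exact ⟨k0, k1, k2⟩
  have hdv : F ∣ (C (g 0) + C (g 1) * X + C (g 2) * X ^ 2) * (C a0 + C a1 * X + C a2 * X ^ 2) := by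
    refine ⟨C (g 1) * C a2 + C (g 2) * (C a2 * X + C a1), ?_⟩
    have f0 := congrArg C e0
    have f1 := congrArg C e1
    have f2 := congrArg C e2
    simp only [C_add, C_mul, C_sub, C_0] at f0 f1 f2
    rw [hF]
    linear_combination f0 + X * f1 + X ^ 2 * f2
  rcases hirr.prime.dvd_or_dvd hdv with h | h
  · obtain ⟨k0, k1, k2⟩ := hq _ _ _ h
    apply hg0
    funext i
    fin_cases i
    · exact k0
    · exact k1
    · exact k2
  · exact ha (hq _ _ _ h)

theorem root_shape [CharP R 3] (b c0 c1 c3 c9 : R) (ρ : R[X])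
    (h : ρ ^ 3 + C b * ρ = C c0 + C c1 * X + C c3 * X ^ 3 + C c9 * X ^ 9) :
    ∃ r0 r1 r3 : R, ρ = C r0 + C r1 * X + C r3 * X ^ 3 := by
  have : Fact (Nat.Prime 3) := ⟨Nat.prime_three⟩
  have hd : ρ.natDegree < 4 := by
    by_contra hcon
    have h1 : (C c0 + C c1 * X + C c3 * X ^ 3 + C c9 * X ^ 9 : R[X]).natDegree ≤ 9 := by
      compute_degree
    have h2 : (C b * ρ).natDegree < (ρ ^ 3).natDegree := by
      rw [natDegree_pow]
      have := natDegree_C_mul_le b ρ
      omega
    rw [← h, natDegree_add_eq_left_of_natDegree_lt h2, natDegree_pow] at h1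
    omega
  have h1 := ρ.as_sum_range_C_mul_X_pow' hd
  simp only [Finset.sum_range_succ, Finset.range_zero, Finset.sum_empty, zero_add, pow_zero,
    mul_one, pow_one] at h1
  set r0 := ρ.coeff 0
  set r1 := ρ.coeff 1
  set r2 := ρ.coeff 2
  set r3 := ρ.coeff 3
  have h2 : ρ ^ 3 = C (r0 ^ 3) + C (r1 ^ 3) * X ^ 3 + C (r2 ^ 3) * X ^ 6 + C (r3 ^ 3) * X ^ 9 := by
    conv_lhs => rw [h1]
    simp only [add_pow_char, mul_pow, ← pow_mul, C_pow]
  have h3 := congrArg (fun f => f.coeff 6) h
  have h4 : ρ.coeff 6 = 0 := coeff_eq_zero_of_natDegree_lt (by omega)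
  rw [h2] at h3
  simp only [coeff_add, coeff_C_mul, coeff_X_pow, coeff_X, h4, coeff_C] at h3
  simp at h3
  exact ⟨r0, r1, r3, by rw [h1, h3]; simp⟩

theorem dichot [UniqueFactorizationMonoid R] [CharP R 3] (lam β l0 l1 l2 : R)
    (h : lam ≠ 0 ∨ β ≠ 0) :
    (∃ b m0 m1 : R, b ≠ 0 ∧ ∀ c, ∃ V : Finset R, V.card ≤ 3 ∧ ∀ w y,
      lam * y ^ 3 + β * y + l0 * w + l1 * w ^ 3 + l2 * w ^ 9 = c → b * y - m0 * w - m1 * w ^ 3 ∈ V) ∨
    (∀ (c : R) (A0 A1 A2 : R[X]), A0.natDegree ≤ 5 → A1.natDegree ≤ 5 → A2.natDegree ≤ 5 →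
      ¬ (A0 = 0 ∧ A1 = 0 ∧ A2 = 0) → ∃ N : R[X], N ≠ 0 ∧ N.natDegree ≤ 42 ∧ ∀ w y,
        lam * y ^ 3 + β * y + l0 * w + l1 * w ^ 3 + l2 * w ^ 9 = c →
        A0.eval w + A1.eval w * y + A2.eval w * y ^ 2 = 0 → N.eval w = 0) := by
  classical
  have : Fact (Nat.Prime 3) := ⟨Nat.prime_three⟩
  rw [or_iff_not_imp_left]
  intro hn c A0 A1 A2 d0 d1 d2 hA
  set q : R[X] := C c - C l0 * X - C l1 * X ^ 3 - C l2 * X ^ 9 with hq
  have hq9 : q.natDegree ≤ 9 := by rw [hq]; compute_degree
  have hqe : ∀ w, q.eval w = c - l0 * w - l1 * w ^ 3 - l2 * w ^ 9 := by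
    intro w; simp [hq]
  by_cases hl : lam = 0
  · have hβ : β ≠ 0 := h.resolve_left (not_not.2 hl)
    have hl2 : l2 ≠ 0 := by
      intro h2
      refine hn ⟨β, -l0, -l1, hβ, fun c' => ⟨{c'}, by simp, fun w y hw => ?_⟩⟩
      rw [Finset.mem_singleton, ← hw, hl, h2]; ring
    have hq9' : q.natDegree = 9 := by
      refine natDegree_eq_of_le_of_coeff_ne_zero hq9 ?_
      simpa [hq, coeff_X, coeff_X_pow, coeff_C] using hl2
    have hq0 : q ≠ 0 := by intro h0; rw [h0] at hq9'; simp at hq9'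
    have hCβ : (C β : R[X]) ≠ 0 := C_ne_zero.2 hβ
    refine ⟨C β * (C β * A0) + q * (C β * A1 + q * A2), fun h0 => hA ?_, ?_, fun w y h1 h2 => ?_⟩
    · have k0 : C β * (C β * A0) = 0 := by
        refine eq_zero_of_dvd_of_natDegree_lt (p := q) ⟨-(C β * A1 + q * A2), ?_⟩ ?_
        · linear_combination h0
        · have := (natDegree_C_mul_le β _).trans (natDegree_C_mul_le β A0)
          omega
      rw [k0, zero_add] at h0
      have h1 := (mul_eq_zero.1 h0).resolve_left hq0
      have k1 : C β * A1 = 0 := by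
        refine eq_zero_of_dvd_of_natDegree_lt (p := q) ⟨-A2, ?_⟩ ?_
        · linear_combination h1
        · have := natDegree_C_mul_le β A1
          omega
      rw [k1, zero_add] at h1
      exact ⟨(mul_eq_zero.1 ((mul_eq_zero.1 k0).resolve_left hCβ)).resolve_left hCβ,
        (mul_eq_zero.1 k1).resolve_left hCβ, (mul_eq_zero.1 h1).resolve_left hq0⟩
    · refine (natDegree_add_le _ _).trans (max_le ?_ ?_)
      · have := (natDegree_C_mul_le β _).trans (natDegree_C_mul_le β A0)
        omega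
      · have k1 := natDegree_mul_le (p := q) (q := C β * A1 + q * A2)
        have k2 := natDegree_add_le (C β * A1) (q * A2)
        have k3 := natDegree_C_mul_le β A1
        have k4 := natDegree_mul_le (p := q) (q := A2)
        omega
    · have k1 : q.eval w = β * y := by rw [hqe, ← h1, hl]; ring
      simp only [eval_add, eval_mul, eval_C, k1]
      linear_combination β ^ 2 * h2
  · set e : R[X] := C (lam ^ 2) * q with he
    have he9 : e.natDegree ≤ 9 := (natDegree_C_mul_le _ _).trans hq9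
    set a0 : R[X] := C (lam ^ 2) * A0 with ha0
    set a1 : R[X] := C lam * A1 with ha1
    have k0 : a0.natDegree ≤ 5 := (natDegree_C_mul_le _ _).trans d0
    have k1 : a1.natDegree ≤ 5 := (natDegree_C_mul_le _ _).trans d1
    refine ⟨(!![a0, a1, A2; A2 * e, a0 - C (β * lam) * A2, a1;
      a1 * e, A2 * e - C (β * lam) * a1, a0 - C (β * lam) * A2] :
      Matrix (Fin 3) (Fin 3) R[X]).det, cubic_norm _ _ _ _ _ (fun ρ hρ => hn ?_) (fun h0 => hA ?_),
      natDegree_det_le (D := 14) _ ?_, fun w y h1 h2 => ?_⟩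
    · obtain ⟨r0, r1, r3, hr⟩ := root_shape (β * lam) (lam ^ 2 * c) (-(lam ^ 2 * l0))
        (-(lam ^ 2 * l1)) (-(lam ^ 2 * l2)) ρ (by
          rw [hρ, he, hq]; simp only [C_mul, C_neg]; ring)
      refine ⟨lam, r1, r3, hl, fun c' => ?_⟩
      set F : R[X] := X ^ 3 + C (β * lam) * X -
        C (lam ^ 2 * (c' - c) + r0 ^ 3 + β * lam * r0) with hF
      have hm : F.Monic := by rw [hF]; monicity!
      have hdeg : F.natDegree ≤ 3 := by rw [hF]; compute_degree
      refine ⟨F.roots.toFinset, (Multiset.toFinset_card_le _).trans ((card_roots' F).trans hdeg),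
        fun w y hw => ?_⟩
      rw [Multiset.mem_toFinset, mem_roots hm.ne_zero]
      have e1 := congrArg (eval w) hρ
      rw [hr] at e1
      simp only [he, eval_add, eval_mul, eval_pow, eval_C, eval_X, hqe, add_pow_char] at e1
      simp only [hF, IsRoot, eval_sub, eval_add, eval_pow, eval_X, eval_mul, eval_C, sub_pow_char]
      linear_combination lam ^ 2 * hw - e1
    · obtain ⟨h1, h2, h3⟩ := h0
      exact ⟨(mul_eq_zero.1 h1).resolve_left (C_ne_zero.2 (pow_ne_zero _ hl)),
        (mul_eq_zero.1 h2).resolve_left (C_ne_zero.2 hl), h3⟩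
    · have m1 := natDegree_mul_le (p := A2) (q := e)
      have m2 := natDegree_mul_le (p := a1) (q := e)
      have m3 := natDegree_C_mul_le (β * lam) A2
      have m4 := natDegree_C_mul_le (β * lam) a1
      have m5 := natDegree_sub_le a0 (C (β * lam) * A2)
      have m6 := natDegree_sub_le (A2 * e) (C (β * lam) * a1)
      intro i j
      fin_cases i <;> fin_cases j <;> simp only [Matrix.of_apply, Fin.zero_eta, Fin.mk_one,
        Fin.reduceFinMk, Matrix.cons_val] <;> omega
    · have e1 : (lam * y) ^ 3 + β * lam * (lam * y) = e.eval w := by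
        rw [he, eval_mul, eval_C, hqe, ← h1]; ring
      have e2 : a0.eval w + a1.eval w * (lam * y) + A2.eval w * (lam * y) ^ 2 = 0 := by
        simp only [ha0, ha1, eval_mul, eval_C]
        linear_combination lam ^ 2 * h2
      rw [Matrix.det_fin_three]
      simp only [Matrix.of_apply, Matrix.cons_val, eval_add, eval_sub, eval_mul, eval_C]
      set u0 := a0.eval w
      set u1 := a1.eval w
      set u2 := A2.eval w
      set t := lam * y
      set b := β * lam
      rw [← e1, show u0 = -(u1 * t + u2 * t ^ 2) by linear_combination e2]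
      ring

end Alg

variable {k : Type*} [Field k]

theorem curve3 (c : Fin 14 → k[X]) (hc : c ≠ 0) :
    ∃ A0 A1 A2 : k[X][X], A0.natDegree ≤ 5 ∧ A1.natDegree ≤ 5 ∧ A2.natDegree ≤ 5 ∧
      ¬ (A0 = 0 ∧ A1 = 0 ∧ A2 = 0) ∧
      ∀ f : k[X], A0.eval f + A1.eval f * derivative f + A2.eval f * derivative f ^ 2 =
        c ⬝ᵥ jt f := by
  let A : ℕ → k[X][X] := fun j => ∑ μ, if eb μ = j then monomial (ea μ) (c μ) else 0
  have hA : ∀ j, (A j).natDegree ≤ 5 := by
    intro j
    refine natDegree_sum_le_of_forall_le _ _ fun μ _ => ?_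
    split_ifs
    · refine (natDegree_monomial_le _).trans ?_
      have := (e_mem μ).1
      omega
    · simp
  have hco : ∀ μ, (A (eb μ)).coeff (ea μ) = c μ := by
    intro μ
    simp only [A, finsetSum_coeff]
    rw [Finset.sum_eq_single μ]
    · simp
    · intro ν _ hν
      split_ifs with h
      · rw [coeff_monomial, if_neg]
        intro h'
        exact hν (e_inj _ _ h' h)
      · simp
    · simp
  have hb : ∀ μ, eb μ = 0 ∨ eb μ = 1 ∨ eb μ = 2 := fun μ => by
    have := (e_mem μ).2.trans (ph_le _)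
    omega
  refine ⟨A 0, A 1, A 2, hA 0, hA 1, hA 2, fun h => hc ?_, fun f => ?_⟩
  · funext μ
    rw [← hco μ]
    rcases hb μ with h' | h' | h' <;> rw [h'] <;> simp [h.1, h.2.1, h.2.2]
  · simp only [A, eval_finsetSum, Finset.sum_mul, ← Finset.sum_add_distrib, dotProduct]
    refine Finset.sum_congr rfl fun μ _ => ?_
    rcases hb μ with h' | h' | h' <;> simp [h', jt, ev3, mul_assoc]

theorem cntZ_le {Ω : Type*} [Fintype Ω] (P : Ω → k[X]) (hP : Function.Injective P)
    (c : Fin 14 → k[X]) (N : k[X][X]) (h0 : N ≠ 0) (hN : N.natDegree ≤ 42)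
    (h : ∀ ω, c ⬝ᵥ jt (P ω) = 0 → N.eval (P ω) = 0) : cntZ c P ≤ 42 := by
  classical
  unfold cntZ
  rw [← Finset.card_filter]
  refine le_trans (Finset.card_le_card_of_injOn P (t := N.roots.toFinset) ?_ hP.injOn)
    ((Multiset.toFinset_card_le _).trans ((card_roots' N).trans hN))
  intro ω hω
  rw [Finset.mem_coe, Multiset.mem_toFinset, mem_roots h0]
  exact h ω (Finset.mem_filter.1 (Finset.mem_coe.1 hω)).2

end Pool.Agent.P.MP_9d026e_co.Three
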