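import Pool.Agent.P.MP_9d026e_co.Three.Local3

/-! Characteristic three: levels above which all valuations agree modulo three. -/

open Polynomial

namespace Pool.Agent.P.MP_9d026e_co.Three

variable {k : Type*} [Field k]

theorem bounded_kernel {N : ℕ} {ι : Type*} (m : ℕ) :
    ∀ (S : Finset (Fin N)) (D : ℕ) (r : ι → Fin N → k[X]) (w : Fin N → k[X]), S.card = m →
      (∀ j i, i ∉ S → r j i = 0) → (∀ j i, (r j i).natDegree ≤ D) →
      (∃ φ : Fin N → k[X], (∀ j, φ ⬝ᵥ r j = 0) ∧ φ ⬝ᵥ w ≠ 0) →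
      ∃ φ : Fin N → k[X], (∀ j, φ ⬝ᵥ r j = 0) ∧ φ ⬝ᵥ w ≠ 0 ∧
        ∀ i, (φ i).natDegree + D ≤ 2 ^ m * D := by
  classical
  have base : ∀ (m D : ℕ) (r : ι → Fin N → k[X]) (w : Fin N → k[X]), (∀ j i, r j i = 0) →
      (∃ φ : Fin N → k[X], (∀ j, φ ⬝ᵥ r j = 0) ∧ φ ⬝ᵥ w ≠ 0) →
      ∃ φ : Fin N → k[X], (∀ j, φ ⬝ᵥ r j = 0) ∧ φ ⬝ᵥ w ≠ 0 ∧
        ∀ i, (φ i).natDegree + D ≤ 2 ^ m * D := by
    rintro m D r w hr ⟨φ, -, hφ⟩
    obtain ⟨i, hi⟩ : ∃ i, w i ≠ 0 := by
      by_contra hcon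
      push Not at hcon
      exact hφ (by simp [dotProduct, hcon])
    refine ⟨Pi.single i 1, fun j => by simp [hr], by simpa using hi, fun i' => ?_⟩
    have h1 : ((Pi.single i 1 : Fin N → k[X]) i').natDegree = 0 := by
      rw [Pi.single_apply]; split_ifs <;> simp
    rw [h1, zero_add]
    exact Nat.le_mul_of_pos_left _ (by positivity)
  induction m with
  | zero =>
    intro S D r w hS hr _ h
    rw [Finset.card_eq_zero] at hS
    exact base 0 D r w (fun j i => hr j i (by simp [hS])) h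
  | succ m ih =>
    intro S D r w hS hr hD h
    by_cases hz : ∀ j i, r j i = 0
    · exact base _ D r w hz h
    push Not at hz
    obtain ⟨j0, i0, hp⟩ := hz
    have hi0 : i0 ∈ S := by
      by_contra h'
      exact hp (hr j0 i0 h')
    obtain ⟨φ, hφ1, hφ2⟩ := h
    obtain ⟨ψ, h1, h2, h3⟩ := ih (S.erase i0) (2 * D) (fun j => r j0 i0 • r j - r j i0 • r j0)
      (r j0 i0 • w - w i0 • r j0) (by rw [Finset.card_erase_of_mem hi0, hS]; rfl) (by
        intro j i hi
        by_cases hii : i = i0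
        · simp [hii, mul_comm]
        · have : i ∉ S := fun h' => hi (Finset.mem_erase.2 ⟨hii, h'⟩)
          simp [hr j i this, hr j0 i this]) (by
        intro j i
        simp only [Pi.sub_apply, Pi.smul_apply, smul_eq_mul]
        refine (natDegree_sub_le _ _).trans (max_le ?_ ?_) <;>
          refine natDegree_mul_le.trans ?_
        · have := hD j0 i0; have := hD j i; omega
        · have := hD j i0; have := hD j0 i; omega)
      ⟨φ, fun j => by simp [hφ1], by simpa [hφ1] using ⟨hp, hφ2⟩⟩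
    have key : ∀ v : Fin N → k[X], (r j0 i0 • ψ - (ψ ⬝ᵥ r j0) • (Pi.single i0 1 : Fin N → k[X])) ⬝ᵥ v =
        ψ ⬝ᵥ (r j0 i0 • v - v i0 • r j0) := by
      intro v
      simp [mul_comm]
    refine ⟨r j0 i0 • ψ - (ψ ⬝ᵥ r j0) • (Pi.single i0 1 : Fin N → k[X]), fun j => by
      rw [key, h1], by rw [key]; exact h2, fun i => ?_⟩
    have hB : ∀ i, (ψ i).natDegree ≤ 2 ^ m * (2 * D) - 2 * D := fun i => by have := h3 i; omega
    have h4 : (ψ ⬝ᵥ r j0).natDegree ≤ 2 ^ m * (2 * D) - 2 * D + D :=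
      natDegree_sum_le_of_forall_le _ _ fun i _ =>
        natDegree_mul_le.trans (add_le_add (hB i) (hD j0 i))
    have h5 : ((r j0 i0 • ψ - (ψ ⬝ᵥ r j0) • (Pi.single i0 1 : Fin N → k[X])) i).natDegree ≤
        2 ^ m * (2 * D) - 2 * D + D := by
      simp only [Pi.sub_apply, Pi.smul_apply, smul_eq_mul]
      refine (natDegree_sub_le _ _).trans (max_le ?_ ?_)
      · refine natDegree_mul_le.trans ?_
        have := hB i; have := hD j0 i0; omega
      · rw [Pi.single_apply]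
        split_ifs
        · rwa [mul_one]
        · simp
    have h6 := h3 i
    have h7 : 2 ^ (m + 1) * D = 2 ^ m * (2 * D) := by ring
    omega

/-- the five additive quantities -/
noncomputable def vec (u : k[X]) : Fin 5 → k[X] :=
  ![derivative u ^ 3, derivative u, u, u ^ 3, u ^ 9]

theorem dot_vec (φ : Fin 5 → k[X]) (u : k[X]) : φ ⬝ᵥ vec u =
    φ 0 * derivative u ^ 3 + φ 1 * derivative u + φ 2 * u + φ 3 * u ^ 3 + φ 4 * u ^ 9 := by
  simp [dotProduct, vec, Fin.sum_univ_succ]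
  ring

theorem natDegree_vec {u : k[X]} {n : ℕ} (h : u.natDegree ≤ n) (i : Fin 5) :
    (vec u i).natDegree ≤ 9 * n := by
  have h1 : (derivative u).natDegree ≤ n := (natDegree_derivative_le u).trans (by omega)
  have h2 := natDegree_pow_le (p := derivative u) (n := 3)
  have h3 := natDegree_pow_le (p := u) (n := 3)
  have h4 := natDegree_pow_le (p := u) (n := 9)
  fin_cases i <;> simp only [vec] <;> simp only [Fin.zero_eta, Fin.mk_one, Fin.reduceFinMk,
    Matrix.cons_val] <;> omega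

theorem X_mul_deriv (x : k) (m : ℕ) (u : k[X]) :
    (X - C x) * derivative ((X - C x) ^ m * u) =
      (X - C x) ^ m * (C (m : k) * u + (X - C x) * derivative u) := by
  rw [derivative_mul, derivative_X_sub_C_pow]
  rcases m with _ | m
  · simp
  · simp only [Nat.add_sub_cancel]; ring

theorem cast_eq_of_dvd_wr (x : k) {u w : k[X]} (hu : u ≠ 0) (hw : w ≠ 0)
    (h : (X - C x) ^ (rootMultiplicity x u + rootMultiplicity x w) ∣
      u * derivative w - derivative u * w) :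
    (rootMultiplicity x u : k) = rootMultiplicity x w := by
  obtain ⟨u1, e1, n1⟩ := exists_eq_pow_rootMultiplicity_mul_and_not_dvd u hu x
  obtain ⟨w1, e2, n2⟩ := exists_eq_pow_rootMultiplicity_mul_and_not_dvd w hw x
  set a := rootMultiplicity x u
  set b := rootMultiplicity x w
  have h1 := X_mul_deriv x a u1
  have h2 := X_mul_deriv x b w1
  rw [← e1] at h1
  rw [← e2] at h2
  have h3 : (X - C x) ^ (a + b) * (X - C x) ∣ (X - C x) ^ (a + b) *
      ((C (b : k) - C (a : k)) * u1 * w1 +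
        (X - C x) * (u1 * derivative w1 - derivative u1 * w1)) := by
    have h4 : (X - C x) ^ (a + b) * ((C (b : k) - C (a : k)) * u1 * w1 +
        (X - C x) * (u1 * derivative w1 - derivative u1 * w1)) =
        (u * derivative w - derivative u * w) * (X - C x) := by
      rw [pow_add]
      linear_combination (-u) * h2 + w * h1 -
        ((X - C x) ^ b * (C (b : k) * w1 + (X - C x) * derivative w1)) * e1 +
        ((X - C x) ^ a * (C (a : k) * u1 + (X - C x) * derivative u1)) * e2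
    rw [h4]
    exact mul_dvd_mul_right h _
  have h5 := (mul_dvd_mul_iff_left (pow_ne_zero _ (X_sub_C_ne_zero x))).1 h3
  rw [dvd_iff_isRoot] at h5 n1 n2
  simp only [IsRoot, eval_add, eval_mul, eval_sub, eval_C, eval_X, sub_self, zero_mul, add_zero,
    mul_eq_zero] at h5 n1 n2
  rcases h5 with (h5 | h5) | h5
  · exact (sub_eq_zero.1 h5).symm
  · exact absurd h5 n1
  · exact absurd h5 n2

theorem dvd_of_dvd_mul_rm (x : k) {g f : k[X]} (hg : g ≠ 0) (m : ℕ)
    (h : (X - C x) ^ (rootMultiplicity x g + m) ∣ g * f) : (X - C x) ^ m ∣ f := by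
  obtain ⟨g1, e1, n1⟩ := exists_eq_pow_rootMultiplicity_mul_and_not_dvd g hg x
  set a := rootMultiplicity x g
  rw [e1, pow_add, mul_assoc] at h
  have h1 := (mul_dvd_mul_iff_left (pow_ne_zero _ (X_sub_C_ne_zero x))).1 h
  exact dvd_of_dvd_mul_unit x m (fun h0 => n1 (dvd_iff_isRoot.2 h0)) h1

theorem levels_of {Z : Type*} (n : ℕ) (γ : k[X]) (h0 : γ ≠ 0) (hγ : γ.natDegree ≤ 279 * n)
    (z : Z → k[X]) (hz : ∀ s, IsSquare (z s) ∧ z s ≠ 0)
    (h1 : ∀ x s, γ.eval x ≠ 0 → 3 ∣ rootMultiplicity x (z s))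
    (h2 : ∀ x s t, rootMultiplicity x γ + 2 ≤ rootMultiplicity x (z s) →
      rootMultiplicity x γ + 2 ≤ rootMultiplicity x (z t) →
      rootMultiplicity x (z s) % 3 = rootMultiplicity x (z t) % 3) :
    ∃ l : k → ℕ, (∀ T : Finset k, ∑ x ∈ T, l x ≤ 1116 * n) ∧ ∀ x s, Lv x (l x) (z s) := by
  have key : ∀ x, ∃ l : ℕ, l ≤ 4 * rootMultiplicity x γ ∧
      ∀ s, 2 * l ≤ rootMultiplicity x (z s) → 3 ∣ rootMultiplicity x (z s) - 2 * l := by
    intro x
    by_cases hx : γ.eval x = 0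
    · have hμ : 1 ≤ rootMultiplicity x γ := (rootMultiplicity_pos h0).2 hx
      by_cases hs : ∃ t, rootMultiplicity x γ + 2 ≤ rootMultiplicity x (z t)
      · obtain ⟨t, ht⟩ := hs
        refine ⟨rootMultiplicity x γ + 1 +
          (2 * rootMultiplicity x (z t) + 2 * rootMultiplicity x γ + 2) % 3, by omega,
          fun s hs => ?_⟩
        have := h2 x s t (by omega) ht
        omega
      · push Not at hs
        exact ⟨rootMultiplicity x γ + 1, by omega, fun s hs' => by have := hs s; omega⟩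
    · exact ⟨0, by omega, fun s _ => by simpa using h1 x s hx⟩
  choose l hl1 hl2 using key
  refine ⟨l, fun T => ?_, fun x s => ⟨(hz s).2, fun _ => even_rm (hz s).2 (hz s).1 x, hl2 x s⟩⟩
  have h3 := Finset.sum_le_sum fun x (_ : x ∈ T) => hl1 x
  rw [← Finset.mul_sum] at h3
  have h4 := sum_rm_le γ T
  omega

theorem exists_levels [CharP k 3] {ι Z : Type*} (a : k[X]) (d : ι → k[X]) (n : ℕ)
    (ha : a.natDegree ≤ n) (hd : ∀ j, (d j).natDegree ≤ n) (z : Z → k[X])
    (hz : ∀ s, IsSquare (z s) ∧ z s ≠ 0)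
    (hc : ∀ s (φ : Fin 5 → k[X]), (∀ j, φ ⬝ᵥ vec (d j) = 0) → φ ⬝ᵥ vec (z s) = φ ⬝ᵥ vec a)
    (φ0 : Fin 5 → k[X]) (h0 : φ0 0 ≠ 0 ∨ φ0 1 ≠ 0) (hφ0 : ∀ j, φ0 ⬝ᵥ vec (d j) = 0) :
    ∃ l : k → ℕ, (∀ T : Finset k, ∑ x ∈ T, l x ≤ 1116 * n) ∧ ∀ x s, Lv x (l x) (z s) := by
  have h3 : (3 : k[X]) = 0 := by exact_mod_cast CharP.cast_eq_zero k[X] 3
  have hb : ∀ w : Fin 5 → k[X], (∃ φ : Fin 5 → k[X], (∀ j, φ ⬝ᵥ vec (d j) = 0) ∧ φ ⬝ᵥ w ≠ 0) →
      ∃ φ : Fin 5 → k[X], (∀ j, φ ⬝ᵥ vec (d j) = 0) ∧ φ ⬝ᵥ w ≠ 0 ∧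
        ∀ i, (φ i).natDegree ≤ 279 * n := by
    intro w h
    obtain ⟨φ, h1, h2, h4⟩ := bounded_kernel 5 Finset.univ (9 * n) (fun j => vec (d j)) w (by simp)
      (fun j i hi => absurd (Finset.mem_univ i) hi) (fun j i => natDegree_vec (hd j) i) h
    exact ⟨φ, h1, h2, fun i => by have := h4 i; omega⟩
  have hp : ∀ (x : k) (s : Z) (m : ℕ), m ≤ rootMultiplicity x (z s) → (X - C x) ^ m ∣ z s :=
    fun x s m h => (dvd_iff_le_rm (hz s).2 x m).2 h
  have hp' : ∀ (x : k) (s : Z) (m : ℕ), m + 1 ≤ rootMultiplicity x (z s) →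
      (X - C x) ^ m ∣ derivative (z s) := fun x s m h => dvd_deriv x m (hp x s _ h)
  have hpw : ∀ (x : k) (f : k[X]) (m e r : ℕ), (X - C x) ^ m ∣ f → r ≤ m * e →
      (X - C x) ^ r ∣ f ^ e := fun x f m e r h hr =>
    (pow_dvd_pow _ hr).trans (by rw [pow_mul]; exact pow_dvd_pow_of_dvd h e)
  have hmul : ∀ (x : k) (f g : k[X]) (m e r : ℕ), (X - C x) ^ m ∣ f → (X - C x) ^ e ∣ g →
      r ≤ m + e → (X - C x) ^ r ∣ f * g := fun x f g m e r h h' hr =>
    (pow_dvd_pow _ hr).trans (by rw [pow_add]; exact mul_dvd_mul h h')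
  have hthree : ∀ (x : k) (s : Z), (1 ≤ rootMultiplicity x (z s) →
      (X - C x) ^ rootMultiplicity x (z s) ∣ derivative (z s)) → 3 ∣ rootMultiplicity x (z s) := by
    intro x s h
    rcases hm : rootMultiplicity x (z s) with _ | m
    · simp
    · rw [hm] at h
      exact (CharP.cast_eq_zero_iff k 3 _).1
        (cast_eq_zero_of_dvd_deriv x (hz s).2 m hm (h (by omega)))
  by_cases c1 : ∃ φ : Fin 5 → k[X], (∀ j, φ ⬝ᵥ vec (d j) = 0) ∧ φ ⬝ᵥ vec a ≠ 0
  · obtain ⟨φ, h1, h2, h4⟩ := hb _ c1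
    have h5 : (φ ⬝ᵥ vec a).natDegree ≤ 279 * n + 9 * n :=
      natDegree_sum_le_of_forall_le _ _ fun i _ =>
        natDegree_mul_le.trans (add_le_add (h4 i) (natDegree_vec ha i))
    refine ⟨fun x => rootMultiplicity x (φ ⬝ᵥ vec a), fun T => ?_, fun x s =>
      ⟨(hz s).2, fun _ => even_rm (hz s).2 (hz s).1 x, fun h6 => ?_⟩⟩
    · have := sum_rm_le (φ ⬝ᵥ vec a) T
      show ∑ x ∈ T, rootMultiplicity x (φ ⬝ᵥ vec a) ≤ _
      omega
    · have h7 : rootMultiplicity x (z s) ≤ rootMultiplicity x (φ ⬝ᵥ vec a) + 1 := by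
        by_contra hcon
        set μ := rootMultiplicity x (φ ⬝ᵥ vec a) with hμ
        have e1 := hp x s (μ + 1) (by omega)
        have e2 := hp' x s (μ + 1) (by omega)
        have e3 : (X - C x) ^ (μ + 1) ∣ φ ⬝ᵥ vec a := by
          rw [← hc s φ h1, dot_vec]
          exact (((((hpw x _ _ 3 _ e2 (by omega)).mul_left _).add (e2.mul_left _)).add
            (e1.mul_left _)).add ((hpw x _ _ 3 _ e1 (by omega)).mul_left _)).add
            ((hpw x _ _ 9 _ e1 (by omega)).mul_left _)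
        rw [dvd_iff_le_rm h2] at e3
        omega
      obtain ⟨r, hr⟩ := even_rm (hz s).2 (hz s).1 x
      have h8 : rootMultiplicity x (z s) - 2 * rootMultiplicity x (φ ⬝ᵥ vec a) = 0 := by omega
      exact h8 ▸ dvd_zero 3
  push Not at c1
  by_cases c2 : ∃ φ : Fin 5 → k[X], (∀ j, φ ⬝ᵥ vec (d j) = 0) ∧ φ ⬝ᵥ Pi.single 1 1 ≠ 0
  · obtain ⟨φ, h1, h2, h4⟩ := hb _ c2
    rw [dotProduct_single_one] at h2
    have hr : ∀ s, φ 1 * derivative (z s) =
        -(φ 0 * derivative (z s) ^ 3 + φ 2 * z s + φ 3 * z s ^ 3 + φ 4 * z s ^ 9) := by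
      intro s
      have := hc s φ h1
      rw [c1 φ h1, dot_vec] at this
      linear_combination this
    refine levels_of n (φ 1) h2 (h4 1) z hz (fun x s hx => hthree x s fun h5 => ?_)
      (fun x s t hs ht => ?_)
    · obtain ⟨r, hr'⟩ := even_rm (hz s).2 (hz s).1 x
      apply dvd_of_dvd_mul_unit x _ hx
      rw [hr, dvd_neg]
      have e1 := hp x s _ le_rfl
      have e2 := hp' x s (rootMultiplicity x (z s) - 1) (by omega)
      exact ((((hpw x _ _ 3 _ e2 (by omega)).mul_left _).add (e1.mul_left _)).add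
        ((hpw x _ _ 3 _ e1 (by omega)).mul_left _)).add ((hpw x _ _ 9 _ e1 (by omega)).mul_left _)
    · apply (CharP.natCast_eq_natCast k 3).1
      apply cast_eq_of_dvd_wr x (hz s).2 (hz t).2
      apply dvd_of_dvd_mul_rm x h2
      have e0 : φ 1 * (z s * derivative (z t) - derivative (z s) * z t) =
          φ 0 * (z t * derivative (z s) ^ 3) + φ 3 * (z t * z s ^ 3) + φ 4 * (z t * z s ^ 9) -
          (φ 0 * (z s * derivative (z t) ^ 3) + φ 3 * (z s * z t ^ 3) + φ 4 * (z s * z t ^ 9)) := by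
        linear_combination z s * hr t - z t * hr s
      rw [e0]
      have e1 := hp x s _ le_rfl
      have e2 := hp' x s (rootMultiplicity x (z s) - 1) (by omega)
      have f1 := hp x t _ le_rfl
      have f2 := hp' x t (rootMultiplicity x (z t) - 1) (by omega)
      refine dvd_sub (dvd_add (dvd_add (Dvd.dvd.mul_left ?_ _) (Dvd.dvd.mul_left ?_ _))
        (Dvd.dvd.mul_left ?_ _)) (dvd_add (dvd_add (Dvd.dvd.mul_left ?_ _)
        (Dvd.dvd.mul_left ?_ _)) (Dvd.dvd.mul_left ?_ _))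
      · exact hmul x _ _ _ _ _ f1 (hpw x _ _ 3 _ e2 le_rfl) (by omega)
      · exact hmul x _ _ _ _ _ f1 (hpw x _ _ 3 _ e1 le_rfl) (by omega)
      · exact hmul x _ _ _ _ _ f1 (hpw x _ _ 9 _ e1 le_rfl) (by omega)
      · exact hmul x _ _ _ _ _ e1 (hpw x _ _ 3 _ f2 le_rfl) (by omega)
      · exact hmul x _ _ _ _ _ e1 (hpw x _ _ 3 _ f1 le_rfl) (by omega)
      · exact hmul x _ _ _ _ _ e1 (hpw x _ _ 9 _ f1 le_rfl) (by omega)
  push Not at c2
  simp only [dotProduct_single_one] at c2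
  obtain ⟨φ, h1, h2, h4⟩ := hb (Pi.single 0 1) ⟨φ0, hφ0, by
    rw [dotProduct_single_one]
    exact h0.resolve_right (not_not.2 (c2 φ0 hφ0))⟩
  rw [dotProduct_single_one] at h2
  have h5 := c2 φ h1
  have h6 : φ 2 = 0 := by
    have := c2 ![derivative (φ 0), φ 2, derivative (φ 2), derivative (φ 3), derivative (φ 4)] (by
      intro j
      have e := congrArg derivative (h1 j)
      rw [dot_vec, h5] at e
      rw [dot_vec]
      simp only [derivative_add, derivative_mul, derivative_pow, derivative_zero, zero_mul,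
        Nat.cast_ofNat, map_ofNat] at e
      simp only [Matrix.cons_val]
      linear_combination e - (φ 0 * derivative (d j) ^ 2 * derivative (derivative (d j)) +
        φ 3 * d j ^ 2 * derivative (d j) + 3 * φ 4 * d j ^ 8 * derivative (d j)) * h3)
    simpa using this
  have hr : ∀ s, φ 0 * derivative (z s) ^ 3 = -(φ 3 * z s ^ 3 + φ 4 * z s ^ 9) := by
    intro s
    have := hc s φ h1
    rw [c1 φ h1, dot_vec, h5, h6] at this
    linear_combination this
  have hcube : ∀ (x : k) (f : k[X]) (m : ℕ), (X - C x) ^ (m * 3) ∣ f ^ 3 → (X - C x) ^ m ∣ f := by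
    intro x f m h
    rw [pow_mul] at h
    exact (IsIntegrallyClosed.pow_dvd_pow_iff (by norm_num)).1 h
  refine levels_of n (φ 0) h2 (h4 0) z hz (fun x s hx => hthree x s fun h7 => ?_)
    (fun x s t hs ht => ?_)
  · apply hcube
    apply dvd_of_dvd_mul_unit x _ hx
    rw [hr, dvd_neg]
    have e1 := hp x s _ le_rfl
    exact ((hpw x _ _ 3 _ e1 le_rfl).mul_left _).add ((hpw x _ _ 9 _ e1 (by omega)).mul_left _)
  · apply (CharP.natCast_eq_natCast k 3).1
    apply cast_eq_of_dvd_wr x (hz s).2 (hz t).2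
    apply hcube
    apply dvd_of_dvd_mul_rm x h2
    have e0 : φ 0 * (z s * derivative (z t) - derivative (z s) * z t) ^ 3 =
        φ 4 * (z t ^ 3 * z s ^ 9) - φ 4 * (z s ^ 3 * z t ^ 9) := by
      linear_combination z s ^ 3 * hr t - z t ^ 3 * hr s +
        (φ 0 * (z s * derivative (z t)) * (derivative (z s) * z t) *
          (derivative (z s) * z t - z s * derivative (z t))) * h3
    rw [e0]
    have e1 := hp x s _ le_rfl
    have f1 := hp x t _ le_rfl
    refine dvd_sub (Dvd.dvd.mul_left ?_ _) (Dvd.dvd.mul_left ?_ _)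
    · exact hmul x _ _ _ _ _ (hpw x _ _ 3 _ f1 le_rfl) (hpw x _ _ 9 _ e1 le_rfl) (by omega)
    · exact hmul x _ _ _ _ _ (hpw x _ _ 3 _ e1 le_rfl) (hpw x _ _ 9 _ f1 le_rfl) (by omega)

end Pool.Agent.P.MP_9d026e_co.Three
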