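import Pool.Agent.P.MP_9d026e_co.Endgame
import Pool.Agent.P.MP_9d026e_co.Three.Levels

/-! Characteristic three: the endgame. -/

open Polynomial Finset

namespace Pool.Agent.P.MP_9d026e_co.Three

variable {k : Type*} [Field k] {s : ℕ}

theorem lead_rel (p : ℕ) (hp : 2 ≤ p) (x : k) {β1 l0 l1 v : k[X]} (hv : v ≠ 0)
    (hm : 1 ≤ rootMultiplicity x v)
    (h : (X - C x) * β1 * derivative v = l0 * v + l1 * v ^ p) :
    β1.eval x * (rootMultiplicity x v : k) = l0.eval x := by
  obtain ⟨u, e1, n1⟩ := exists_eq_pow_rootMultiplicity_mul_and_not_dvd v hv x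
  have hvx : v.eval x = 0 := (rootMultiplicity_pos hv).1 hm
  set m := rootMultiplicity x v
  have h1 := X_mul_deriv x m u
  rw [← e1] at h1
  rw [factor_rhs p (by omega)] at h
  have h2 : β1 * (C (m : k) * u + (X - C x) * derivative u) = (l0 + l1 * v ^ (p - 1)) * u := by
    apply mul_left_cancel₀ (pow_ne_zero m (X_sub_C_ne_zero x))
    linear_combination h - β1 * h1 + (l0 + l1 * v ^ (p - 1)) * e1
  have h3 := congrArg (eval x) h2
  have h4 : p - 1 ≠ 0 := by omega
  simp only [eval_mul, eval_add, eval_sub, eval_C, eval_X, sub_self, zero_mul, add_zero, eval_pow,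
    hvx, zero_pow h4, mul_zero] at h3
  have h5 : u.eval x ≠ 0 := fun h0 => n1 (dvd_iff_isRoot.2 h0)
  apply mul_right_cancel₀ h5
  linear_combination h3

theorem local_three3 [CharP k 3] (p : ℕ) (hp : p = 3) (hs : s = 8 * p) (x : k)
    (P Q : Fin s → k[X]) (hP : Function.Injective P) (hQ : Function.Injective Q)
    (hsq : ∀ i j, IsSquare (P i - Q j) ∧ P i - Q j ≠ 0) {β l0 l1 : k[X]} (hβ : β ≠ 0)
    (hLP : ∀ i j, β * derivative (P i - P j) = l0 * (P i - P j) + l1 * (P i - P j) ^ p)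
    (hLQ : ∀ i j, β * derivative (Q i - Q j) = l0 * (Q i - Q j) + l1 * (Q i - Q j) ^ p)
    (hc : ∀ i j, β * derivative (P i - Q j) = l0 * (P i - Q j) + l1 * (P i - Q j) ^ p)
    (ha : ∃ i j, (P i - Q j).eval x ≠ 0)
    (hb : β.eval x = 0 → l0.eval x = 0 → l1.eval x ≠ 0) :
    1440 * rootMultiplicity x β ≤ 2 * (offV x P + offV x Q) + crossV x P Q := by
  by_cases hβx : β.eval x = 0
  swap
  · rw [rootMultiplicity_eq_zero (p := β) hβx]; simp
  have hp2 : 2 ≤ p := by omega
  have hl0 : l0.eval x ≠ 0 := by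
    intro h
    obtain ⟨i, j, hij⟩ := ha
    have := eval_sol p x hβx (hc i j)
    rw [h, zero_mul, zero_add, mul_eq_zero] at this
    exact hij (pow_eq_zero_iff (by omega) |>.1 (this.resolve_left (hb hβx h)))
  obtain ⟨i, j, hij, hz⟩ := exists_within_zero p hp2 (by omega) x P hβx hl0 hLP
  have hμ := mu_le_one p hp2 x hβ hl0 (sub_ne_zero.2 fun h' => hij (hP h')) hz (hLP i j)
  obtain ⟨S, hS, hS'⟩ := rootset p hp2 (l0.eval x) (l1.eval x) (Or.inl hl0)
  have h1 := cnt_plotkin2 (fun a => (P a - Q i).eval x) (fun a => (Q a - Q i).eval x) S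
    (fun a => hS' _ (eval_sol p x hβx (hc a i))) (fun a => hS' _ (eval_sol p x hβx (hLQ a i)))
  rw [← lev_one x (fun a => P a - Q i) (fun a => P a - Q i),
    ← lev_one x (fun a => Q a - Q i) (fun a => Q a - Q i),
    ← lev_one x (fun a => P a - Q i) (fun a => Q a - Q i), lev_self, lev_self,
    Fintype.card_fin] at h1
  have h2 : off ((X - C x) ^ 1) (fun a => P a - Q i) ≤ off ((X - C x) ^ 1) P :=
    off_mono' _ _ fun i j => by ring
  have h3 : off ((X - C x) ^ 1) (fun a => Q a - Q i) ≤ off ((X - C x) ^ 1) Q :=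
    off_mono' _ _ fun i j => by ring
  have h4 : lev ((X - C x) ^ 1) (fun a => P a - Q i) (fun a => Q a - Q i) ≤
      lev ((X - C x) ^ 1) P Q := lev_mono' _ _ P Q fun i j => by ring
  have h5 : (s + s) ^ 2 ≤ 3 * (off ((X - C x) ^ 1) P + off ((X - C x) ^ 1) Q +
      2 * lev ((X - C x) ^ 1) P Q + 2 * s) := h1.trans (Nat.mul_le_mul (by omega) (by omega))
  have h6 := off_plotkin p hs (by omega) x P S hS (P i)
    fun a => hS' _ (eval_sol p x hβx (hLP a i))
  have h7 := off_plotkin p hs (by omega) x Q S hS (Q i)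
    fun a => hS' _ (eval_sol p x hβx (hLQ a i))
  have hcr : ∀ r : ℕ, (∀ a b, 1 ≤ rootMultiplicity x (P a - Q b) →
      r ≤ rootMultiplicity x (P a - Q b)) → r * lev ((X - C x) ^ 1) P Q ≤ crossV x P Q := by
    intro r hr
    unfold lev crossV
    rw [Finset.mul_sum]
    refine Finset.sum_le_sum fun a _ => ?_
    rw [Finset.mul_sum]
    refine Finset.sum_le_sum fun b _ => ?_
    split_ifs with h
    · rw [dvd_iff_le_rm (hsq a b).2] at h
      simpa using hr a b h
    · simp
  obtain ⟨β1, rfl⟩ := dvd_iff_isRoot.2 hβx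
  have hs24 : s = 24 := by omega
  have e1 : (s + s) ^ 2 = 2304 := by rw [hs24]; norm_num
  by_cases hcase : β1.eval x = l0.eval x
  · have h8 := hcr 4 fun a b h => by
      have h9 := lead_rel p hp2 x (hsq a b).2 h (hc a b)
      rw [hcase] at h9
      have h10 : ((rootMultiplicity x (P a - Q b) : ℕ) : k) = ((1 : ℕ) : k) := by
        apply mul_left_cancel₀ hl0
        rw [h9]; simp
      have h11 : rootMultiplicity x (P a - Q b) % 3 = 1 % 3 := (CharP.natCast_eq_natCast k 3).1 h10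
      obtain ⟨r, hr⟩ := even_rm (hsq a b).2 (hsq a b).1 x
      omega
    have h9 := off_one_le x P hP
    have h10 := off_one_le x Q hQ
    omega
  · have h8 := hcr 2 fun a b h => by
      obtain ⟨r, hr⟩ := even_rm (hsq a b).2 (hsq a b).1 x
      omega
    have h9 : ∀ R : Fin s → k[X], Function.Injective R →
        (∀ i j, (X - C x) * β1 * derivative (R i - R j) =
          l0 * (R i - R j) + l1 * (R i - R j) ^ p) → 2 * off ((X - C x) ^ 1) R ≤ offV x R := by
      intro R hR hL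
      have k1 := le_offV x R hR 2
      simp only [Finset.sum_range_succ, Finset.range_zero, Finset.sum_empty, zero_add] at k1
      have k2 : off ((X - C x) ^ 1) R ≤ off ((X - C x) ^ (1 + 1)) R := by
        apply off_mono
        intro a b hab hd
        have hne : R a - R b ≠ 0 := sub_ne_zero.2 fun h' => hab (hR h')
        rw [dvd_iff_le_rm hne] at hd ⊢
        by_contra hcon
        have k3 := lead_rel p hp2 x hne hd (hL a b)
        rw [show rootMultiplicity x (R a - R b) = 1 by omega] at k3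
        exact hcase (by simpa using k3)
      omega
    have h10 := h9 P hP hLP
    have h11 := h9 Q hQ hLQ
    omega

theorem tcore (p : ℕ) (hp : p = 3) (hs : s = 8 * p) [IsAlgClosed k] [CharP k 3] (P Q : Fin s → k[X])
    (hP : Function.Injective P) (hQ : Function.Injective Q) (n : ℕ)
    (hsq : ∀ i j, IsSquare (P i - Q j) ∧ P i - Q j ≠ 0 ∧ (P i - Q j).natDegree = n)
    {β l0 l1 c : k[X]} (hβ : β ≠ 0)
    (hLP : ∀ i j, β * derivative (P i - P j) = l0 * (P i - P j) + l1 * (P i - P j) ^ p)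
    (hLQ : ∀ i j, β * derivative (Q i - Q j) = l0 * (Q i - Q j) + l1 * (Q i - Q j) ^ p)
    (hc : ∀ i j, β * derivative (P i - Q j) = l0 * (P i - Q j) + l1 * (P i - Q j) ^ p + c)
    (ha : ∀ x, ∃ i j, (P i - Q j).eval x ≠ 0)
    (hb : ∀ x, β.eval x = 0 → l0.eval x = 0 → l1.eval x ≠ 0) : l1 = 0 ∧ c = 0 := by
  have hsq' : ∀ i j, IsSquare (P i - Q j) ∧ P i - Q j ≠ 0 := fun i j => ⟨(hsq i j).1, (hsq i j).2.1⟩
  have hn : ∀ i j, (P i - Q j).natDegree = n := fun i j => (hsq i j).2.2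
  let i0 : Fin s := ⟨0, by omega⟩
  let i1 : Fin s := ⟨1, by omega⟩
  have h01 : i0 ≠ i1 := by simp [i0, i1]
  have hdP : ∀ i j, (P i - P j).natDegree ≤ n := by
    intro i j
    have : P i - P j = (P i - Q i0) - (P j - Q i0) := by ring
    rw [this]
    exact (natDegree_sub_le _ _).trans (by simp [hn])
  have hdQ : ∀ i j, (Q i - Q j).natDegree ≤ n := by
    intro i j
    have : Q i - Q j = (P i0 - Q j) - (P i0 - Q i) := by ring
    rw [this]
    exact (natDegree_sub_le _ _).trans (by simp [hn])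
  obtain ⟨S, hS1, hS2⟩ := exists_points P Q β
  have hX := sum_crossV P Q n hn S hS1
  have hμ := sum_rm_eq β S hS2
  have hκ := sum_rm_le c S
  obtain ⟨t, ht⟩ : ∃ t, s = t + 1 := ⟨s - 1, by omega⟩
  have ht' : s - 1 = t := by omega
  by_contra hcon
  by_cases hl1 : l1 = 0
  · -- case two
    have hc0 : c ≠ 0 := fun h => hcon ⟨hl1, h⟩
    have h1 := Finset.sum_le_sum (s := S) fun x _ =>
      local_two p (by omega) (by omega) x P Q hP hQ hsq' hc0 hβ hl1 hLP hLQ hc (ha x) (hb x)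
    simp only [Finset.sum_add_distrib, ← Finset.mul_sum, hX, hμ] at h1
    have h2 := sum_offV P n hdP S
    have h3 := sum_offV Q n hdQ S
    have hv : P i0 - P i1 ≠ 0 := sub_ne_zero.2 fun h => h01 (hP h)
    have h4 := deg_l0 p (by omega) hβ hv (hLP i0 i1) (by
      rw [hl1, zero_mul, degree_zero]; exact WithBot.bot_lt_coe _)
    have h5 := deg_c p hβ (hsq i0 i0).2.1 hc0 (hc i0 i0) h4 (β.natDegree + n) (by rw [hn]) (by
      rw [hl1, zero_mul, degree_zero]; exact WithBot.bot_lt_coe _)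
    have h6 := Nat.mul_le_mul_left s (Nat.add_le_add h2 h3)
    have h7 := Nat.mul_le_mul_left (2 * s * s * (s - 1)) (show ∑ x ∈ S, rootMultiplicity x c + 1 ≤
      β.natDegree + n by omega)
    have h8 : 0 < 2 * s * s * (s - 1) := by
      have : 0 < s - 1 := by omega
      have : 0 < s := by omega
      positivity
    nlinarith
  by_cases hc0 : c = 0
  · -- case three
    simp only [hc0, add_zero] at hc
    have h1 := Finset.sum_le_sum (s := S) fun x _ =>
      local_three3 p hp hs x P Q hP hQ hsq' hβ hLP hLQ hc (ha x) (hb x)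
    simp only [Finset.sum_add_distrib, mul_add, ← Finset.mul_sum, hX, hμ] at h1
    have h2 := sum_offV P n hdP S
    have h3 := sum_offV Q n hdQ S
    have h4 := deg_beta p (by omega) (by omega) hβ hl1 P hP hLP _ (hsq i0 i0).2.1 (hc i0 i0)
    rw [hn, hp] at h4
    rw [show s * (s - 1) = 552 by rw [hs, hp]] at h2 h3
    rw [show s * s = 576 by rw [hs, hp]] at h1
    omega
  · -- case four
    have h1 := Finset.sum_le_sum (s := S) fun x _ =>
      local_four p (by omega) hs x P Q hP hQ hsq' hc0 hβ hLP hLQ hc (ha x) (hb x)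
    simp only [Finset.sum_add_distrib, ← Finset.mul_sum, hX, hμ] at h1
    -- the largest inner degree
    obtain ⟨d, v, hv, hvd, hLv, hdP', hdQ', hdn⟩ : ∃ (d : ℕ) (v : k[X]), v ≠ 0 ∧ v.natDegree = d ∧
        β * derivative v = l0 * v + l1 * v ^ p ∧ (∀ i j, (P i - P j).natDegree ≤ d) ∧
        (∀ i j, (Q i - Q j).natDegree ≤ d) ∧ d ≤ n := by
      classical
      let T : Finset k[X] :=
        ((Finset.univ.image fun ij : Fin s × Fin s => P ij.1 - P ij.2) ∪
          (Finset.univ.image fun ij : Fin s × Fin s => Q ij.1 - Q ij.2)).erase 0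
      have hT : ∀ v ∈ T, v ≠ 0 ∧ β * derivative v = l0 * v + l1 * v ^ p ∧ v.natDegree ≤ n := by
        intro v hv
        obtain ⟨h1, h2⟩ := Finset.mem_erase.1 hv
        rcases Finset.mem_union.1 h2 with h | h
        · obtain ⟨ij, -, rfl⟩ := Finset.mem_image.1 h
          exact ⟨h1, hLP _ _, hdP _ _⟩
        · obtain ⟨ij, -, rfl⟩ := Finset.mem_image.1 h
          exact ⟨h1, hLQ _ _, hdQ _ _⟩
      have hTP : ∀ i j, P i - P j ≠ 0 → P i - P j ∈ T := fun i j h =>
        Finset.mem_erase.2 ⟨h, Finset.mem_union_left _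
          (Finset.mem_image.2 ⟨(i, j), Finset.mem_univ _, rfl⟩)⟩
      have hTQ : ∀ i j, Q i - Q j ≠ 0 → Q i - Q j ∈ T := fun i j h =>
        Finset.mem_erase.2 ⟨h, Finset.mem_union_right _
          (Finset.mem_image.2 ⟨(i, j), Finset.mem_univ _, rfl⟩)⟩
      obtain ⟨v, hv, hmax⟩ := Finset.exists_max_image T natDegree
        ⟨_, hTP i0 i1 (sub_ne_zero.2 fun h => h01 (hP h))⟩
      refine ⟨v.natDegree, v, (hT v hv).1, rfl, (hT v hv).2.1, ?_, ?_, (hT v hv).2.2⟩
      · intro i j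
        by_cases h : P i - P j = 0
        · simp [h]
        · exact hmax _ (hTP i j h)
      · intro i j
        by_cases h : Q i - Q j = 0
        · simp [h]
        · exact hmax _ (hTQ i j h)
    have h2 := sum_offV P d hdP' S
    have h3 := sum_offV Q d hdQ' S
    have h4 := deg_beta p (by omega) (by omega) hβ hl1 P hP hLP v hv hLv
    rw [hvd] at h4
    obtain ⟨e, rfl⟩ : ∃ e, n = d + e := ⟨n - d, by omega⟩
    rw [show p - 1 = 2 by omega] at h4
    have h5 := deg_l0 p (by omega) hβ hv hLv (degree_lt_of_natDegree_lt' (by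
      rw [natDegree_mul hl1 (pow_ne_zero _ hv), natDegree_pow, hvd, hp]; omega))
    have h6 := deg_c p hβ (hsq i0 i0).2.1 hc0 (hc i0 i0) h5
      (β.natDegree + (d + e) + 2 * e) (by rw [hn]; omega) (degree_lt_of_natDegree_lt' (by
      rw [natDegree_mul hl1 (pow_ne_zero _ (hsq i0 i0).2.1), natDegree_pow, hn, hp]; omega))
    have h7 : s * (2 * (s * (d + e)) + 12 * β.natDegree) ≤
        s * ((s - 1) * d + (s - 1) * d + 8 * c.natDegree) := by
      have := Nat.mul_le_mul_left (8 * s) hκ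
      nlinarith
    have h8 := Nat.le_of_mul_le_mul_left h7 (by omega)
    rw [show s - 1 = 23 by omega, show s = 24 by omega] at h8
    omega

/-- remove the common roots of the coefficients -/
theorem tcore2 (p : ℕ) (hp : p = 3) (hs : s = 8 * p) [IsAlgClosed k] [CharP k 3] (P Q : Fin s → k[X])
    (hP : Function.Injective P) (hQ : Function.Injective Q) (n : ℕ)
    (hsq : ∀ i j, IsSquare (P i - Q j) ∧ P i - Q j ≠ 0 ∧ (P i - Q j).natDegree = n)
    (ha : ∀ x, ∃ i j, (P i - Q j).eval x ≠ 0) (m : ℕ) :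
    ∀ β l0 l1 c : k[X], β ≠ 0 → β.natDegree = m →
    (∀ i j, β * derivative (P i - P j) = l0 * (P i - P j) + l1 * (P i - P j) ^ p) →
    (∀ i j, β * derivative (Q i - Q j) = l0 * (Q i - Q j) + l1 * (Q i - Q j) ^ p) →
    (∀ i j, β * derivative (P i - Q j) = l0 * (P i - Q j) + l1 * (P i - Q j) ^ p + c) →
    l1 = 0 ∧ c = 0 := by
  induction m using Nat.strong_induction_on with
  | _ m ih =>
  intro β l0 l1 c hβ hm hLP hLQ hc
  by_cases hb : ∀ x, β.eval x = 0 → l0.eval x = 0 → l1.eval x ≠ 0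
  · exact tcore p hp hs P Q hP hQ n hsq hβ hLP hLQ hc ha hb
  push Not at hb
  obtain ⟨x, h1, h2, h3⟩ := hb
  have i0 : Fin s := ⟨0, by omega⟩
  have h4 : c.eval x = 0 := by
    have := congrArg (eval x) (hc i0 i0)
    simpa [h1, h2, h3] using this.symm
  obtain ⟨β', rfl⟩ := dvd_iff_isRoot.2 h1
  obtain ⟨l0', rfl⟩ := dvd_iff_isRoot.2 h2
  obtain ⟨l1', rfl⟩ := dvd_iff_isRoot.2 h3
  obtain ⟨c', rfl⟩ := dvd_iff_isRoot.2 h4
  have hβ' : β' ≠ 0 := right_ne_zero_of_mul hβ
  have hπ := X_sub_C_ne_zero x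
  rw [natDegree_mul hπ hβ', natDegree_X_sub_C] at hm
  obtain ⟨h5, h6⟩ := ih β'.natDegree (by omega) β' l0' l1' c' hβ' rfl
    (fun i j => mul_left_cancel₀ hπ (by linear_combination hLP i j))
    (fun i j => mul_left_cancel₀ hπ (by linear_combination hLQ i j))
    (fun i j => mul_left_cancel₀ hπ (by linear_combination hc i j))
  simp [h5, h6]

/-- remove the common roots of the squares -/
theorem tcore3 (p : ℕ) (hp : p = 3) (hs : s = 8 * p) [IsAlgClosed k] [CharP k 3] (n : ℕ) :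
    ∀ (P Q : Fin s → k[X]), Function.Injective P → Function.Injective Q →
    (∀ i j, IsSquare (P i - Q j) ∧ P i - Q j ≠ 0 ∧ (P i - Q j).natDegree = n) →
    ∀ β l0 l1 c : k[X], β ≠ 0 →
    (∀ i j, β * derivative (P i - P j) = l0 * (P i - P j) + l1 * (P i - P j) ^ p) →
    (∀ i j, β * derivative (Q i - Q j) = l0 * (Q i - Q j) + l1 * (Q i - Q j) ^ p) →
    (∀ i j, β * derivative (P i - Q j) = l0 * (P i - Q j) + l1 * (P i - Q j) ^ p + c) →
    l1 = 0 ∧ c = 0 := by
  induction n using Nat.strong_induction_on with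
  | _ n ih =>
  intro P Q hP hQ hsq β l0 l1 c hβ hLP hLQ hc
  by_cases ha : ∀ x, ∃ i j, (P i - Q j).eval x ≠ 0
  · exact tcore2 p hp hs P Q hP hQ n hsq ha _ β l0 l1 c hβ rfl hLP hLQ hc
  push Not at ha
  obtain ⟨x, hx⟩ := ha
  have i0 : Fin s := ⟨0, by omega⟩
  have hπ : (X - C x) ^ 2 ≠ 0 := pow_ne_zero _ (X_sub_C_ne_zero x)
  have h2 : ∀ i j, (X - C x) ^ 2 ∣ P i - Q j := by
    intro i j
    rw [dvd_iff_le_rm (hsq i j).2.1]
    obtain ⟨r, hr⟩ := even_rm (hsq i j).2.1 (hsq i j).1 x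
    have := (rootMultiplicity_pos (hsq i j).2.1).2 (hx i j)
    omega
  choose P' hP' using fun i => h2 i i0
  have h3 : ∀ j, (X - C x) ^ 2 ∣ Q j - Q i0 := by
    intro j
    have : Q j - Q i0 = (P i0 - Q i0) - (P i0 - Q j) := by ring
    rw [this]
    exact dvd_sub (h2 _ _) (h2 _ _)
  choose Q' hQ' using h3
  have e1 : ∀ i j, P i - P j = (X - C x) ^ 2 * (P' i - P' j) := fun i j => by
    linear_combination hP' i - hP' j
  have e2 : ∀ i j, Q i - Q j = (X - C x) ^ 2 * (Q' i - Q' j) := fun i j => by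
    linear_combination hQ' i - hQ' j
  have e3 : ∀ i j, P i - Q j = (X - C x) ^ 2 * (P' i - Q' j) := fun i j => by
    linear_combination hP' i - hQ' j
  have h4 : ∀ i j, P' i - Q' j ≠ 0 := fun i j h => (hsq i j).2.1 (by rw [e3, h, mul_zero])
  have h5 : ∀ i j, (P' i - Q' j).natDegree + 2 = n := by
    intro i j
    rw [← (hsq i j).2.2, e3, natDegree_mul hπ (h4 i j), natDegree_pow, natDegree_X_sub_C]
    ring
  have h6 := h5 i0 i0
  obtain ⟨h7, h8⟩ := ih (n - 2) (by omega) P' Q'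
    (fun i j h => hP (by rw [← sub_eq_zero, e1, h, sub_self, mul_zero]))
    (fun i j h => hQ (by rw [← sub_eq_zero, e2, h, sub_self, mul_zero]))
    (fun i j => ⟨by
      obtain ⟨y, hy⟩ := (hsq i j).1
      have h9 : X - C x ∣ y := by
        apply (prime_X_sub_C x).dvd_of_dvd_pow (n := 2)
        rw [sq, ← hy]
        exact dvd_iff_isRoot.2 (hx i j)
      obtain ⟨z, rfl⟩ := h9
      exact ⟨z, mul_left_cancel₀ hπ (by rw [← e3, hy]; ring)⟩, h4 i j, by
        have := h5 i j; omega⟩)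
    (β * (X - C x) ^ 2) (l0 * (X - C x) ^ 2 - 2 * β * (X - C x)) (l1 * ((X - C x) ^ 2) ^ p) c
    (mul_ne_zero hβ hπ)
    (fun i j => by
      simpa only [add_zero] using transfer p x (c := 0) (by rw [← e1, add_zero]; exact hLP i j))
    (fun i j => by
      simpa only [add_zero] using transfer p x (c := 0) (by rw [← e2, add_zero]; exact hLQ i j))
    (fun i j => transfer p x (by rw [← e3]; exact hc i j))
  exact ⟨(mul_eq_zero.1 h7).resolve_right (pow_ne_zero _ hπ), h8⟩

theorem tendgame (p : ℕ) [Fact p.Prime] (hp : p = 3) {k : Type*} [Field k] [IsAlgClosed k]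
    [CharP k p] {ι κ : Type*} [Fintype ι] [Fintype κ] (hι : 8 * p ≤ Fintype.card ι)
    (hκ : 8 * p ≤ Fintype.card κ) (P : ι → k[X]) (Q : κ → k[X]) (hP : Function.Injective P)
    (hQ : Function.Injective Q) (n : ℕ)
    (hsq : ∀ i j, IsSquare (P i - Q j) ∧ P i - Q j ≠ 0 ∧ (P i - Q j).natDegree = n)
    (β l0 l1 : k[X]) (hβ : β ≠ 0)
    (hLP : ∀ i i', β * derivative (P i - P i') = l0 * (P i - P i') + l1 * (P i - P i') ^ p)
    (hLQ : ∀ j j', β * derivative (Q j - Q j') = l0 * (Q j - Q j') + l1 * (Q j - Q j') ^ p) :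
    l1 = 0 ∧ ∀ i j, β * derivative (P i - Q j) = l0 * (P i - Q j) := by
  obtain ⟨f⟩ : Nonempty (Fin (8 * p) ↪ ι) :=
    Function.Embedding.nonempty_of_card_le (by simpa using hι)
  obtain ⟨g⟩ : Nonempty (Fin (8 * p) ↪ κ) :=
    Function.Embedding.nonempty_of_card_le (by simpa using hκ)
  have i0 : Fin (8 * p) := ⟨0, by omega⟩
  set c := β * derivative (P (f i0) - Q (g i0)) - l0 * (P (f i0) - Q (g i0)) -
    l1 * (P (f i0) - Q (g i0)) ^ p with hcdef
  have hc : ∀ i j, β * derivative (P i - Q j) = l0 * (P i - Q j) + l1 * (P i - Q j) ^ p + c := by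
    intro i j
    have h1 := hLP i (f i0)
    have h2 := hLQ j (g i0)
    simp only [sub_pow_char, derivative_sub] at h1 h2 hcdef ⊢
    linear_combination h1 - h2 - hcdef
  have : CharP k 3 := hp ▸ (inferInstance : CharP k p)
  obtain ⟨h1, h2⟩ := tcore3 p hp rfl n (fun i => P (f i)) (fun j => Q (g j))
    (hP.comp f.injective) (hQ.comp g.injective) (fun i j => hsq _ _) β l0 l1 c hβ
    (fun i j => hLP _ _) (fun i j => hLQ _ _) (fun i j => hc _ _)
  refine ⟨h1, fun i j => ?_⟩
  rw [hc i j, h1, h2]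
  simp

end Pool.Agent.P.MP_9d026e_co.Three
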