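import Pool.Agent.P.MP_9d026e_co.Ode

/-! Characteristic three: a curve through the jets of a cube gives an additive relation. -/

open Polynomial

namespace Pool.Agent.P.MP_9d026e_co.Three

section Main

variable {R : Type*} [CommRing R]

lemma coeff_tau (u v : R) (Φ : R[X][X]) (h4 : Φ.natDegree ≤ 4) (j : ℕ) :
    (tau u v Φ).coeff j = ∑ i ∈ Finset.range 5,
      (((i + j).choose j : ℕ) : R[X]) * taylor u (Φ.coeff (i + j)) * C v ^ i := by
  have h : (Φ.map (taylorAlgHom u : R[X] →+* R[X])).natDegree = Φ.natDegree :=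
    natDegree_map_eq_of_injective (taylor_injective u) _
  have h1 : (hasseDeriv j (Φ.map (taylorAlgHom u : R[X] →+* R[X]))).natDegree < 5 := by
    have := natDegree_hasseDeriv_le (Φ.map (taylorAlgHom u : R[X] →+* R[X])) j
    omega
  unfold tau
  rw [taylor_coeff, eval_eq_sum_range' h1]
  refine Finset.sum_congr rfl fun i _ => ?_
  rw [hasseDeriv_coeff, coeff_map, tah]

variable [IsDomain R] [CharP R 3]

lemma additive3 (G : Finset R) (hG : 13 < G.card) (A : R[X]) (hA : A.natDegree ≤ 13)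
    (h : ∀ u ∈ G, ∃ b, taylor u A = A - C b) (u : R) :
    A.eval u = A.eval 0 + A.coeff 1 * u + A.coeff 3 * u ^ 3 + A.coeff 9 * u ^ 9 := by
  have hk : ∀ k j : ℕ, ¬ 3 ∣ (j + 1 + (k + 1)).choose (k + 1) → A.coeff (j + 1 + (k + 1)) = 0 := by
    intro k j hd
    have h1 : hasseDeriv (k + 1) A - C (A.coeff (k + 1)) = 0 := by
      refine eq_zero_of_natDegree_lt_card_of_eval_eq_zero' _ G (fun u hu => ?_) ?_
      · obtain ⟨b, hb⟩ := h u hu
        rw [eval_sub, eval_C, ← taylor_coeff, hb, coeff_sub, coeff_C_succ, sub_zero, sub_self]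
      · rw [natDegree_sub_C]
        have := natDegree_hasseDeriv_le A (k + 1)
        omega
    have h2 := congrArg (fun f => f.coeff (j + 1)) h1
    simp only [coeff_sub, coeff_C_succ, sub_zero, coeff_zero, hasseDeriv_coeff] at h2
    exact (mul_eq_zero.1 h2).resolve_left fun h3 => hd ((CharP.cast_eq_zero_iff R 3 _).1 h3)
  have h2 : A.coeff 2 = 0 := hk 0 0 (by decide)
  have h4 : A.coeff 4 = 0 := hk 0 2 (by decide)
  have h5 : A.coeff 5 = 0 := hk 0 3 (by decide)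
  have h6 : A.coeff 6 = 0 := hk 2 2 (by decide)
  have h7 : A.coeff 7 = 0 := hk 0 5 (by decide)
  have h8 : A.coeff 8 = 0 := hk 0 6 (by decide)
  have h10 : A.coeff 10 = 0 := hk 0 8 (by decide)
  have h11 : A.coeff 11 = 0 := hk 0 9 (by decide)
  have h12 : A.coeff 12 = 0 := hk 2 8 (by decide +kernel)
  have h13 : A.coeff 13 = 0 := hk 0 11 (by decide)
  rw [eval_eq_sum_range' (show A.natDegree < 14 by omega), ← coeff_zero_eq_eval_zero]
  simp only [Finset.sum_range_succ, Finset.range_zero, Finset.sum_empty, h2, h4, h5, h6, h7, h8,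
    h10, h11, h12, h13]
  ring

lemma rel_of_shift (G : Finset R) (hG : 13 < G.card) (A : R[X]) (hA : A.natDegree ≤ 13)
    (H : R → Prop) (B : R → R) (hGH : ∀ u ∈ G, H u) (h : ∀ u, H u → taylor u A = A - C (B u)) :
    ∃ l0 l1 l2 : R, ∀ u, H u → B u + l0 * u + l1 * u ^ 3 + l2 * u ^ 9 = 0 := by
  refine ⟨A.coeff 1, A.coeff 3, A.coeff 9, fun u hu => ?_⟩
  have h1 := congrArg (eval 0) (h u hu)
  rw [taylor_eval, zero_add, eval_sub, eval_C,
    additive3 G hG A hA (fun w hw => ⟨_, h w (hGH w hw)⟩) u] at h1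
  linear_combination h1

lemma ode_of_invariant3 (D : R →+ R)
    (Ψ : R[X][X]) (h0 : Ψ ≠ 0) (h4 : Ψ.natDegree ≤ 4) (h13 : ∀ j, (Ψ.coeff j).natDegree ≤ 13)
    (x y : R) (hxy : Ψ.evalEval x y = 0) (G : Finset R) (hG : 13 < G.card)
    (hGs : ∀ u ∈ G, u ∈ stab D Ψ) :
    ∃ lam β l0 l1 l2 : R, (lam ≠ 0 ∨ β ≠ 0) ∧ ∀ u ∈ stab D Ψ,
      lam * D u ^ 3 + β * D u + l0 * u + l1 * u ^ 3 + l2 * u ^ 9 = 0 := by
  have h3 : (3 : R[X]) = 0 := by exact_mod_cast CharP.cast_eq_zero R[X] 3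
  have hz : ∀ j, 4 < j → Ψ.coeff j = 0 := fun j hj => coeff_eq_zero_of_natDegree_lt (by omega)
  have hco : ∀ u ∈ stab D Ψ, taylor u (Ψ.coeff 4) = Ψ.coeff 4 ∧
      taylor u (Ψ.coeff 3) = Ψ.coeff 3 - taylor u (Ψ.coeff 4) * C (D u) ∧
      taylor u (Ψ.coeff 2) = Ψ.coeff 2 ∧
      taylor u (Ψ.coeff 1) = Ψ.coeff 1 - 2 * taylor u (Ψ.coeff 2) * C (D u) -
        taylor u (Ψ.coeff 4) * C (D u) ^ 3 ∧
      taylor u (Ψ.coeff 0) = Ψ.coeff 0 - taylor u (Ψ.coeff 1) * C (D u) -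
        taylor u (Ψ.coeff 2) * C (D u) ^ 2 - taylor u (Ψ.coeff 3) * C (D u) ^ 3 -
        taylor u (Ψ.coeff 4) * C (D u) ^ 4 := by
    intro u hu
    have hu' : tau u (D u) Ψ = Ψ := hu
    have e0 := coeff_tau u (D u) Ψ h4 0
    have e1 := coeff_tau u (D u) Ψ h4 1
    have e2 := coeff_tau u (D u) Ψ h4 2
    have e3 := coeff_tau u (D u) Ψ h4 3
    have e4 := coeff_tau u (D u) Ψ h4 4
    rw [hu'] at e0 e1 e2 e3 e4
    simp only [Finset.sum_range_succ, Finset.range_zero, Finset.sum_empty, Nat.reduceAdd,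
      hz 5 (by omega), hz 6 (by omega), hz 7 (by omega), hz 8 (by omega), map_zero, mul_zero,
      zero_mul, add_zero, zero_add] at e0 e1 e2 e3 e4
    norm_num [Nat.choose] at e0 e1 e2 e3 e4
    refine ⟨e4.symm, ?_, ?_, ?_, ?_⟩
    · linear_combination -e3 - (taylor u (Ψ.coeff 4) * C (D u)) * h3
    · linear_combination -e2 - (taylor u (Ψ.coeff 3) * C (D u) +
        2 * taylor u (Ψ.coeff 4) * C (D u) ^ 2) * h3
    · linear_combination -e1 - (taylor u (Ψ.coeff 3) * C (D u) ^ 2 +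
        taylor u (Ψ.coeff 4) * C (D u) ^ 3) * h3
    · linear_combination -e0
  obtain ⟨c4, h4'⟩ : ∃ c, Ψ.coeff 4 = C c :=
    ⟨_, const_of_invariant G hG _ (h13 _) fun u hu => (hco u (hGs u hu)).1⟩
  obtain ⟨c2, h2'⟩ : ∃ c, Ψ.coeff 2 = C c :=
    ⟨_, const_of_invariant G hG _ (h13 _) fun u hu => (hco u (hGs u hu)).2.2.1⟩
  by_cases hc4 : c4 = 0
  swap
  · obtain ⟨l0, l1, l2, hl⟩ := rel_of_shift G hG (Ψ.coeff 3) (h13 _) (· ∈ stab D Ψ)
      (fun u => c4 * D u) hGs fun u hu => by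
        rw [(hco u hu).2.1, h4', taylor_C, C_mul]
    exact ⟨0, c4, l0, l1, l2, Or.inr hc4, fun u hu => by linear_combination hl u hu⟩
  rw [hc4, C_0] at h4'
  by_cases hc2 : c2 = 0
  swap
  · obtain ⟨l0, l1, l2, hl⟩ := rel_of_shift G hG (Ψ.coeff 1) (h13 _) (· ∈ stab D Ψ)
      (fun u => (c2 + c2) * D u) hGs fun u hu => by
        rw [(hco u hu).2.2.2.1, h4', h2', taylor_C, C_mul, C_add, map_zero]; ring
    refine ⟨0, c2 + c2, l0, l1, l2, Or.inr fun h => hc2 ?_,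
      fun u hu => by linear_combination hl u hu⟩
    have h3' : (3 : R) = 0 := by exact_mod_cast CharP.cast_eq_zero R 3
    linear_combination c2 * h3' - h
  rw [hc2, C_0] at h2'
  obtain ⟨c3, h3'⟩ : ∃ c, Ψ.coeff 3 = C c :=
    ⟨_, const_of_invariant G hG _ (h13 _) fun u hu => by
      rw [(hco u (hGs u hu)).2.1, h4', map_zero, zero_mul, sub_zero]⟩
  obtain ⟨c1, h1'⟩ : ∃ c, Ψ.coeff 1 = C c :=
    ⟨_, const_of_invariant G hG _ (h13 _) fun u hu => by
      rw [(hco u (hGs u hu)).2.2.2.1, h4', h2', map_zero]; ring⟩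
  have hs : ∀ u ∈ stab D Ψ, taylor u (Ψ.coeff 0) = Ψ.coeff 0 - C (c3 * D u ^ 3 + c1 * D u) := by
    intro u hu
    rw [(hco u hu).2.2.2.2, h4', h2', h3', h1', taylor_C, taylor_C, map_zero, C_add, C_mul, C_mul,
      C_pow]
    ring
  obtain ⟨l0, l1, l2, hl⟩ := rel_of_shift G hG (Ψ.coeff 0) (h13 _) (· ∈ stab D Ψ)
    (fun u => c3 * D u ^ 3 + c1 * D u) hGs hs
  refine ⟨c3, c1, l0, l1, l2, ?_, fun u hu => by linear_combination hl u hu⟩
  by_contra hcon
  push Not at hcon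
  obtain ⟨c0, h0'⟩ : ∃ c, Ψ.coeff 0 = C c :=
    ⟨_, const_of_invariant G hG _ (h13 _) fun u hu => by
      rw [hs u (hGs u hu), hcon.1, hcon.2]; simp⟩
  have hΨ : Ψ = C (C c0) := by
    ext1 j
    rcases Nat.lt_or_ge 4 j with hj | hj
    · rw [hz j hj, coeff_C_of_ne_zero (by omega)]
    · interval_cases j
      · rw [h0', coeff_C_zero]
      · rw [h1', hcon.2, coeff_C_of_ne_zero (by omega), C_0]
      · rw [h2', coeff_C_of_ne_zero (by omega)]
      · rw [h3', hcon.1, coeff_C_of_ne_zero (by omega), C_0]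
      · rw [h4', coeff_C_of_ne_zero (by omega)]
  rw [hΨ, evalEval_C, eval_C] at hxy
  rw [hxy, C_0, C_0] at hΨ
  exact h0 hΨ

end Main

theorem exists_ode3 [Fact (Nat.Prime 3)] {k : Type*} [Field k] [Algebra (ZMod 3) k]
    {ι : Type*} [Fintype ι] [DecidableEq ι] (m : ℕ) (hι : m + 73 ≤ Fintype.card ι)
    (b : k[X]) (d : ι → k[X]) (hd : LinearIndependent (ZMod 3) d)
    (Φ : k[X][X][X]) (h0 : Φ ≠ 0) (h4 : Φ.natDegree ≤ 4) (h13 : ∀ j, (Φ.coeff j).natDegree ≤ 13)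
    (hv : ∀ S : Finset ι, Φ.evalEval (b + ∑ j ∈ S, d j) (derivative (b + ∑ j ∈ S, d j)) = 0) :
    ∃ (J : Finset ι) (lam β l0 l1 l2 : k[X]), m ≤ J.card ∧ (lam ≠ 0 ∨ β ≠ 0) ∧
      ∀ j ∈ J, lam * derivative (d j) ^ 3 + β * derivative (d j) + l0 * d j + l1 * d j ^ 3 +
        l2 * d j ^ 9 = 0 := by
  classical
  have : CharP k 3 := charP_of_injective_algebraMap (algebraMap (ZMod 3) k).injective 3
  let D : k[X] →+ k[X] := (derivative : k[X] →ₗ[k] k[X]).toAddMonoidHom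
  have hm : meas Φ < 70 := by
    have := h13 Φ.natDegree
    rw [coeff_natDegree] at this
    unfold meas
    omega
  obtain ⟨Ψ, J, k1, k2, k3, k4, k5, k6⟩ :=
    descent D b d 70 Φ Finset.univ h0 h4 h13 hm (fun S _ => hv S)
  rw [Finset.card_univ] at k1
  obtain ⟨e⟩ : Nonempty (Fin 3 ↪ {j // j ∈ J}) :=
    Function.Embedding.nonempty_of_card_le (by simp; omega)
  let g : Fin 3 → ι := fun i => (e i).1
  have hg : Function.Injective g := fun a b h => e.injective (Subtype.ext h)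
  let f : (Fin 3 → ZMod 3) → k[X] := fun c => ∑ i, c i • d (g i)
  have hf : Function.Injective f := by
    intro c c' h
    have := Fintype.linearIndependent_iffₛ.1 (hd.comp g hg) c c' h
    exact funext this
  have hsm : ∀ (c : ZMod 3) (u : k[X]), u ∈ stab D Ψ → c • u ∈ stab D Ψ := by
    intro c u hu
    rw [← ZMod.natCast_zmod_val c, Nat.cast_smul_eq_nsmul]
    exact nsmul_mem hu _
  obtain ⟨lam, β, l0, l1, l2, hβ, hode⟩ := ode_of_invariant3 D Ψ k2 k3 k4 _ _ k5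
    (Finset.univ.image f) (by
      rw [Finset.card_image_of_injective _ hf, Finset.card_univ, Fintype.card_fun, ZMod.card,
        Fintype.card_fin]
      norm_num) (by
      intro u hu
      obtain ⟨c, -, rfl⟩ := Finset.mem_image.1 hu
      exact sum_mem fun i _ => hsm _ _ (k6 _ (e i).2))
  exact ⟨J, lam, β, l0, l1, l2, by omega, hβ, fun j hj => hode (d j) (k6 j hj)⟩

end Pool.Agent.P.MP_9d026e_co.Three
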