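import Pool.Agent.P.MP_9d026e_co.Cube
import Pool.Agent.P.MP_9d026e_co.Three.End3
import Pool.Agent.P.MP_9d026e_co.Three.Dichot
import Pool.Agent.P.MP_9d026e_co.Three.Ode3

/-! Characteristic three: no large non-degenerate Hilbert cube of squares. -/

open Polynomial

namespace Pool.Agent.P.MP_9d026e_co.Three

/-- There is no Hilbert cube of dimension `K` of squares of one degree whose members have pairwise
nonzero Wronskians. -/
def NoCube3 (p K : ℕ) [Fact p.Prime] : Prop :=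
  ∀ (a : (ZMod p)[X]) (d : Fin K → (ZMod p)[X]) (n : ℕ),
    LinearIndependent (ZMod p) d →
    (∀ S : Finset (Fin K), IsSquare (a + ∑ j ∈ S, d j) ∧ a + ∑ j ∈ S, d j ≠ 0 ∧
      (a + ∑ j ∈ S, d j).natDegree = n) →
    (∀ S T : Finset (Fin K), S ≠ T → wronskian (a + ∑ j ∈ S, d j) (a + ∑ j ∈ T, d j) ≠ 0) → False

variable {k : Type*} [Field k]

theorem cntD_half {ι : Type*} [Fintype ι] (d b : k[X]) (e : ι → k[X]) {j : ι}
    (hj : ¬ d ∣ e j) (u : k[X]) :
    2 * cntD d (fun S : Finset ι => b + ∑ i ∈ S, e i) u ≤ Fintype.card (Finset ι) := by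
  classical
  unfold cntD
  rw [← Finset.card_filter]
  beta_reduce
  let σ : Finset ι → Finset ι := fun S => if j ∈ S then S.erase j else insert j S
  have hσ : Function.Involutive σ := by
    intro S
    by_cases h : j ∈ S <;> simp [σ, h]
  have h1 : (Finset.univ.filter fun S : Finset ι => d ∣ b + ∑ i ∈ S, e i - u).card ≤
      (Finset.univ.filter fun S : Finset ι => ¬ (d ∣ b + ∑ i ∈ S, e i - u)).card := by
    refine Finset.card_le_card_of_injOn σ ?_ hσ.injective.injOn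
    intro S hS
    have hS' := (Finset.mem_filter.1 (Finset.mem_coe.1 hS)).2
    refine Finset.mem_coe.2 (Finset.mem_filter.2 ⟨Finset.mem_univ _, fun h2 => hj ?_⟩)
    by_cases h : j ∈ S
    · have := dvd_sub hS' h2
      simp only [σ, h, if_true] at this
      rw [← Finset.add_sum_erase S e h] at this
      convert this using 1; ring
    · have := dvd_sub h2 hS'
      simp only [σ, h, if_false] at this
      rw [Finset.sum_insert h] at this
      convert this using 1; ring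
  have h2 := Finset.card_filter_add_card_filter_not (s := (Finset.univ : Finset (Finset ι)))
    (fun S : Finset ι => d ∣ b + ∑ i ∈ S, e i - u)
  rw [Finset.card_univ] at h2
  omega

theorem dot_add [CharP k 3] (φ : Fin 5 → k[X]) (u w : k[X]) :
    φ ⬝ᵥ vec (u + w) = φ ⬝ᵥ vec u + φ ⬝ᵥ vec w := by
  have : Fact (Nat.Prime 3) := ⟨Nat.prime_three⟩
  have h9 : (u + w) ^ 9 = u ^ 9 + w ^ 9 := add_pow_char_pow u w 3 2
  simp only [dot_vec, derivative_add, add_pow_char, h9]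
  ring

theorem dot_neg (φ : Fin 5 → k[X]) (u : k[X]) : φ ⬝ᵥ vec (-u) = -(φ ⬝ᵥ vec u) := by
  simp only [dot_vec, derivative_neg]
  ring

theorem dot_cube [CharP k 3] {ι : Type*} (φ : Fin 5 → k[X]) (b : k[X]) (e : ι → k[X])
    (h : ∀ j, φ ⬝ᵥ vec (e j) = 0) (S : Finset ι) : φ ⬝ᵥ vec (b + ∑ j ∈ S, e j) = φ ⬝ᵥ vec b := by
  classical
  induction S using Finset.induction_on with
  | empty => simp
  | insert j S hj ih =>
    rw [Finset.sum_insert hj, add_left_comm, dot_add, h, zero_add, ih]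

theorem exists_fibre {Ω γ : Type*} [Fintype Ω] (hΩ : 72 ≤ Fintype.card Ω) (t : Ω → γ)
    (V : Finset γ) (hV : V.card ≤ 3) (h : ∀ ω, t ω ∈ V) :
    ∃ f : Fin 24 → Ω, Function.Injective f ∧ ∀ i j, t (f i) = t (f j) := by
  classical
  have hne : Nonempty Ω := Fintype.card_pos_iff.1 (by omega)
  obtain ⟨y, -, hy⟩ := Finset.exists_le_card_fiber_of_mul_le_card_of_maps_to
    (s := (Finset.univ : Finset Ω)) (t := V) (f := t) (n := 24) (fun ω _ => h ω)
    ⟨_, h (Classical.arbitrary Ω)⟩ (by rw [Finset.card_univ]; omega)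
  obtain ⟨e⟩ : Nonempty (Fin 24 ↪ {ω // ω ∈ Finset.univ.filter fun ω => t ω = y}) :=
    Function.Embedding.nonempty_of_card_le (by rwa [Fintype.card_fin, Fintype.card_coe])
  refine ⟨fun i => (e i).1, fun i j h => e.injective (Subtype.ext h), fun i j => ?_⟩
  rw [(Finset.mem_filter.1 (e i).2).2, (Finset.mem_filter.1 (e j).2).2]

theorem core_cube [IsAlgClosed k] [CharP k 3] (a : k[X]) (e : Fin 30 ⊕ Fin 30 → k[X]) (n : ℕ)
    (hsq : ∀ S : Finset (Fin 30 ⊕ Fin 30), IsSquare (a + ∑ j ∈ S, e j) ∧ a + ∑ j ∈ S, e j ≠ 0 ∧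
      (a + ∑ j ∈ S, e j).natDegree = n)
    (hW : ∀ S T : Finset (Fin 30 ⊕ Fin 30), S ≠ T →
      wronskian (a + ∑ j ∈ S, e j) (a + ∑ j ∈ T, e j) ≠ 0)
    (φ : Fin 5 → k[X]) (h0 : φ 0 ≠ 0 ∨ φ 1 ≠ 0) (hφ : ∀ j, φ ⬝ᵥ vec (e j) = 0)
    (hroot : ∀ x, ∃ S : Finset (Fin 30 ⊕ Fin 30), (a + ∑ j ∈ S, e j).eval x ≠ 0) : False := by
  classical
  have : Fact (Nat.Prime 3) := ⟨Nat.prime_three⟩
  have h3 : (3 : k) = 0 := by exact_mod_cast CharP.cast_eq_zero k 3
  have h2 : (2 : k) ≠ 0 := fun h => one_ne_zero (α := k) (by linear_combination h3 - h)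
  let P : Finset (Fin 30) → k[X] := fun S => a + ∑ j ∈ S, e (Sum.inl j)
  let Q : Finset (Fin 30) → k[X] := fun S => 0 + ∑ j ∈ S, - e (Sum.inr j)
  have hPQ : ∀ S T, P S - Q T = a + ∑ j ∈ S.disjSum T, e j := by
    intro S T
    simp only [P, Q, Finset.sum_disjSum, Finset.sum_neg_distrib]
    ring
  have hWPQ : ∀ S T S' T', (S ≠ S' ∨ T ≠ T') → wronskian (P S - Q T) (P S' - Q T') ≠ 0 := by
    intro S T S' T' h
    rw [hPQ, hPQ]
    refine hW _ _ fun h' => ?_
    rw [Finset.disjSum_inj] at h'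
    tauto
  have hP : Function.Injective P := by
    intro S S' h
    by_contra hne
    apply hWPQ S ∅ S' ∅ (Or.inl hne)
    rw [h, wronskian_self_eq_zero]
  have hQ : Function.Injective Q := by
    intro S S' h
    by_contra hne
    apply hWPQ ∅ S ∅ S' (Or.inr hne)
    rw [h, wronskian_self_eq_zero]
  have hz : ∀ S T, IsSquare (P S - Q T) ∧ P S - Q T ≠ 0 ∧ (P S - Q T).natDegree = n :=
    fun S T => by rw [hPQ]; exact hsq _
  have han : a.natDegree = n := by simpa using (hsq ∅).2.2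
  have hU : Fintype.card (Finset (Fin 30)) = 2 ^ 30 := by
    rw [Fintype.card_finset, Fintype.card_fin]
  have hlP : ∀ S, φ ⬝ᵥ vec (P S) = φ ⬝ᵥ vec a := dot_cube φ a _ fun j => hφ _
  have hlQ : ∀ S, φ ⬝ᵥ vec (Q S) = φ ⬝ᵥ vec 0 :=
    dot_cube φ 0 _ fun j => by rw [dot_neg, hφ, neg_zero]
  simp only [dot_vec φ (P _), dot_vec φ (Q _)] at hlP hlQ
  rcases dichot (φ 0) (φ 1) (φ 2) (φ 3) (φ 4) h0 with ⟨b, m0, m1, hb, hV⟩ | hN
  · obtain ⟨V, hV1, hV2⟩ := hV (φ ⬝ᵥ vec a)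
    obtain ⟨V', hV1', hV2'⟩ := hV (φ ⬝ᵥ vec 0)
    obtain ⟨f, hf, hf'⟩ := exists_fibre (by rw [hU]; norm_num)
      (fun S => b * derivative (P S) - m0 * P S - m1 * P S ^ 3) V hV1 fun S => hV2 _ _ (hlP S)
    obtain ⟨g, hg, hg'⟩ := exists_fibre (by rw [hU]; norm_num)
      (fun S => b * derivative (Q S) - m0 * Q S - m1 * Q S ^ 3) V' hV1' fun S => hV2' _ _ (hlQ S)
    obtain ⟨-, h4⟩ := tendgame 3 rfl (ι := Fin 24) (κ := Fin 24) (by simp) (by simp)
      (fun i => P (f i)) (fun j => Q (g j)) (hP.comp hf) (hQ.comp hg) n (fun i j => hz _ _)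
      b m0 m1 hb
      (fun i j => by
        rw [sub_pow_char, derivative_sub]
        linear_combination hf' i j)
      (fun i j => by
        rw [sub_pow_char, derivative_sub]
        linear_combination hg' i j)
    refine hWPQ (f 0) (g 0) (f 1) (g 0) (Or.inl fun h => absurd (hf h) (by decide)) ?_
    apply mul_left_cancel₀ hb
    rw [wronskian]
    linear_combination (P (f 0) - Q (g 0)) * h4 1 0 - (P (f 1) - Q (g 0)) * h4 0 0
  · have hn : 1 ≤ n := by
      by_contra h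
      have hn0 : n = 0 := by omega
      apply hW ∅ {Sum.inl 0} (Finset.singleton_ne_empty _).symm
      have k1 := (hsq ∅).2.2
      have k2 := (hsq {Sum.inl 0}).2.2
      rw [hn0] at k1 k2
      rw [wronskian, derivative_of_natDegree_zero k1, derivative_of_natDegree_zero k2]
      ring
    have hdeg : ∀ j, (e j).natDegree ≤ n := by
      intro j
      have k1 := (hsq {j}).2.2
      rw [Finset.sum_singleton] at k1
      rw [show e j = (a + e j) - a by ring]
      exact (natDegree_sub_le _ _).trans (by omega)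
    obtain ⟨l, hl1, hl2⟩ := exists_levels a e n han.le hdeg
      (fun S : Finset (Fin 30 ⊕ Fin 30) => a + ∑ j ∈ S, e j) (fun S => ⟨(hsq S).1, (hsq S).2.1⟩)
      (fun S ψ hψ => dot_cube ψ a e hψ S) φ h0 hφ
    have hZ : ∀ (R : Finset (Fin 30) → k[X]) (c0 : k[X]), Function.Injective R →
        (∀ S, φ 0 * derivative (R S) ^ 3 + φ 1 * derivative (R S) + φ 2 * R S + φ 3 * R S ^ 3 +
          φ 4 * R S ^ 9 = c0) → ∀ c, c ≠ 0 → cntZ c R ≤ 42 := by
      intro R c0 hR hc0 c hc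
      obtain ⟨A0, A1, A2, d0, d1, d2, hA, hev⟩ := curve3 c hc
      obtain ⟨N, n0, n1, n2⟩ := hN c0 A0 A1 A2 d0 d1 d2 hA
      exact cntZ_le R hR c N n0 n1 fun S hS => n2 _ _ (hc0 S) (by rw [hev, hS])
    refine average h2 h3 P Q n hn hU.ge (fun S => ?_) (fun S => ?_) (fun S T => (hz S T).2.2) l hl1
      (fun x S T => by rw [hPQ]; exact hl2 x _) (fun x r S T hd => ?_) (hZ P _ hP hlP)
      (hZ Q _ hQ hlQ)
    · have := (hz S ∅).2.2
      simp only [Q, Finset.sum_empty, add_zero, sub_zero] at this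
      exact this.le
    · have := (hz ∅ S).2.2
      rw [show Q S = a - (P ∅ - Q S) by simp [P]]
      exact (natDegree_sub_le _ _).trans (by omega)
    · obtain ⟨j, hj⟩ : ∃ j, ¬ (X - C x) ^ (r + 1) ∣ e j := by
        by_contra hcon
        push Not at hcon
        obtain ⟨S', hS'⟩ := hroot x
        apply hS'
        rw [hPQ] at hd
        have k1 : (X - C x) ^ (r + 1) ∣ a :=
          (dvd_add_left (Finset.dvd_sum fun j _ => hcon j)).1 hd
        have k2 : (X - C x) ^ (r + 1) ∣ a + ∑ j ∈ S', e j :=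
          dvd_add k1 (Finset.dvd_sum fun j _ => hcon j)
        exact dvd_iff_isRoot.1 ((dvd_pow_self _ (by omega)).trans k2)
      rcases j with j | j
      · exact Or.inl fun ω => cntD_half _ a (fun j => e (Sum.inl j)) (j := j) hj _
      · exact Or.inr fun ω => cntD_half _ 0 (fun j => - e (Sum.inr j)) (j := j)
          (fun h => hj (dvd_neg.1 h)) _

theorem dot_zoom (x : k) (φ : Fin 5 → k[X]) (w : k[X]) :
    φ ⬝ᵥ vec ((X - C x) ^ 2 * w) =
      ![φ 0 * (X - C x) ^ 6, φ 1 * (X - C x) ^ 2, 2 * φ 1 * (X - C x) + φ 2 * (X - C x) ^ 2,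
        8 * φ 0 * (X - C x) ^ 3 + φ 3 * (X - C x) ^ 6, φ 4 * (X - C x) ^ 18] ⬝ᵥ vec w +
      3 * (φ 0 * (4 * (X - C x) ^ 4 * w ^ 2 * derivative w +
        2 * (X - C x) ^ 5 * w * derivative w ^ 2)) := by
  have h1 : derivative ((X - C x) ^ 2 * w) = 2 * (X - C x) * w + (X - C x) ^ 2 * derivative w := by
    rw [sq]; simp only [derivative_mul, derivative_sub, derivative_X, derivative_C]; ring
  rw [dot_vec, dot_vec, h1]
  simp only [Matrix.cons_val]
  ring

theorem norm_cube [IsAlgClosed k] [CharP k 3] (n : ℕ) :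
    ∀ (a : k[X]) (e : Fin 30 ⊕ Fin 30 → k[X]),
    (∀ S : Finset (Fin 30 ⊕ Fin 30), IsSquare (a + ∑ j ∈ S, e j) ∧ a + ∑ j ∈ S, e j ≠ 0 ∧
      (a + ∑ j ∈ S, e j).natDegree = n) →
    (∀ S T : Finset (Fin 30 ⊕ Fin 30), S ≠ T →
      wronskian (a + ∑ j ∈ S, e j) (a + ∑ j ∈ T, e j) ≠ 0) →
    ∀ φ : Fin 5 → k[X], (φ 0 ≠ 0 ∨ φ 1 ≠ 0) → (∀ j, φ ⬝ᵥ vec (e j) = 0) → False := by
  induction n using Nat.strong_induction_on with
  | _ n ih =>
  intro a e hsq hW φ h0 hφ
  by_cases hroot : ∀ x, ∃ S : Finset (Fin 30 ⊕ Fin 30), (a + ∑ j ∈ S, e j).eval x ≠ 0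
  · exact core_cube a e n hsq hW φ h0 hφ hroot
  push Not at hroot
  obtain ⟨x, hx⟩ := hroot
  have h3 : (3 : k[X]) = 0 := by exact_mod_cast CharP.cast_eq_zero k[X] 3
  have hπ0 := X_sub_C_ne_zero x
  have hπ : (X - C x) ^ 2 ≠ 0 := pow_ne_zero _ hπ0
  have h2 : ∀ S : Finset (Fin 30 ⊕ Fin 30), ∃ w, a + ∑ j ∈ S, e j = (X - C x) ^ 2 * w ∧
      IsSquare w := by
    intro S
    obtain ⟨y, hy⟩ := (hsq S).1
    have h9 : X - C x ∣ y := by
      apply (prime_X_sub_C x).dvd_of_dvd_pow (n := 2)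
      rw [sq, ← hy]
      exact dvd_iff_isRoot.2 (hx S)
    obtain ⟨z, rfl⟩ := h9
    exact ⟨z * z, by rw [hy]; ring, z, rfl⟩
  obtain ⟨a', ha', -⟩ := h2 ∅
  rw [Finset.sum_empty, add_zero] at ha'
  have h4 : ∀ j, ∃ w, e j = (X - C x) ^ 2 * w := by
    intro j
    obtain ⟨w, hw, -⟩ := h2 {j}
    rw [Finset.sum_singleton] at hw
    exact ⟨w - a', by linear_combination hw - ha'⟩
  choose e' he' using h4
  have h5 : ∀ S : Finset (Fin 30 ⊕ Fin 30),
      a + ∑ j ∈ S, e j = (X - C x) ^ 2 * (a' + ∑ j ∈ S, e' j) := by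
    intro S
    rw [mul_add, Finset.mul_sum, ← ha']
    simp only [← he']
  have h6 : ∀ S : Finset (Fin 30 ⊕ Fin 30), a' + ∑ j ∈ S, e' j ≠ 0 :=
    fun S h => (hsq S).2.1 (by rw [h5, h, mul_zero])
  have h7 : ∀ S : Finset (Fin 30 ⊕ Fin 30), (a' + ∑ j ∈ S, e' j).natDegree + 2 = n := by
    intro S
    rw [← (hsq S).2.2, h5, natDegree_mul hπ (h6 S), natDegree_pow, natDegree_X_sub_C]
    ring
  have h8 := h7 ∅
  refine ih (n - 2) (by omega) a' e' (fun S => ⟨?_, h6 S, by have := h7 S; omega⟩)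
    (fun S T hST h => hW S T hST ?_)
    ![φ 0 * (X - C x) ^ 6, φ 1 * (X - C x) ^ 2, 2 * φ 1 * (X - C x) + φ 2 * (X - C x) ^ 2,
        8 * φ 0 * (X - C x) ^ 3 + φ 3 * (X - C x) ^ 6, φ 4 * (X - C x) ^ 18] ?_ (fun j => ?_)
  · obtain ⟨w, hw, hw'⟩ := h2 S
    rw [h5] at hw
    rwa [mul_left_cancel₀ hπ hw]
  · rw [h5, h5]
    rw [wronskian] at h ⊢
    simp only [derivative_mul]
    linear_combination ((X - C x) ^ 2) ^ 2 * h
  · simp only [Matrix.cons_val]
    exact h0.imp (fun h => mul_ne_zero h (pow_ne_zero _ hπ0)) (fun h => mul_ne_zero h hπ)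
  · have := hφ j
    rw [he', dot_zoom, h3, zero_mul, add_zero] at this
    exact this

theorem noCube3_closed [Fact (Nat.Prime 3)] (k : Type) [Field k] [IsAlgClosed k]
    [Algebra (ZMod 3) k] (a : k[X]) (d : Fin (133 + 133) → k[X]) (n : ℕ)
    (hd : LinearIndependent (ZMod 3) d)
    (hsq : ∀ S : Finset (Fin (133 + 133)), IsSquare (a + ∑ j ∈ S, d j) ∧ a + ∑ j ∈ S, d j ≠ 0 ∧
      (a + ∑ j ∈ S, d j).natDegree = n)
    (hW : ∀ S T : Finset (Fin (133 + 133)), S ≠ T →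
      wronskian (a + ∑ j ∈ S, d j) (a + ∑ j ∈ T, d j) ≠ 0) : False := by
  classical
  have hchar : CharP k 3 := charP_of_injective_algebraMap (algebraMap (ZMod 3) k).injective 3
  have h3 : (3 : k) = 0 := by exact_mod_cast CharP.cast_eq_zero k 3
  have h2 : (2 : k) ≠ 0 := fun h => one_ne_zero (α := k) (by linear_combination h3 - h)
  let f1 : Fin 133 ↪ Fin (133 + 133) := Fin.castAddEmb 133
  let f2 : Fin 133 ↪ Fin (133 + 133) := Fin.natAddEmb 133
  have han : a.natDegree = n := by simpa using (hsq ∅).2.2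
  have hn : 1 ≤ n := by
    by_contra h
    have hn0 : n = 0 := by omega
    apply hW ∅ {0} (Finset.singleton_ne_empty _).symm
    have k1 := (hsq ∅).2.2
    have k2 := (hsq {0}).2.2
    rw [hn0] at k1 k2
    rw [wronskian, derivative_of_natDegree_zero k1, derivative_of_natDegree_zero k2]
    ring
  have fin : ∀ (f : Fin 133 ↪ Fin (133 + 133)) (J : Finset (Fin 133))
      (lam β l0 l1 l2 : k[X]), 60 ≤ J.card → (lam ≠ 0 ∨ β ≠ 0) →
      (∀ j ∈ J, lam * derivative (d (f j)) ^ 3 + β * derivative (d (f j)) + l0 * d (f j) +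
        l1 * d (f j) ^ 3 + l2 * d (f j) ^ 9 = 0) → False := by
    intro f J lam β l0 l1 l2 hJ hβ hrel
    obtain ⟨e⟩ : Nonempty (Fin 30 ⊕ Fin 30 ↪ {j // j ∈ J}) :=
      Function.Embedding.nonempty_of_card_le (by simpa using hJ)
    let g : Fin 30 ⊕ Fin 30 ↪ Fin (133 + 133) :=
      (e.trans (Function.Embedding.subtype _)).trans f
    refine norm_cube n a (fun j => d (g j)) (fun S => ?_) (fun S T hST => ?_)
      ![lam, β, l0, l1, l2] hβ fun j => ?_
    · rw [sum_map_emb]; exact hsq _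
    · rw [sum_map_emb, sum_map_emb]
      exact hW _ _ fun h => hST (Finset.map_injective g h)
    · rw [dot_vec]
      exact hrel (e j).1 (e j).2
  obtain ⟨Φ, h0, h4, h13, hv⟩ := exists_curve h2
    (fun S : Finset (Fin 133) => a + ∑ j ∈ S, d (f1 j))
    (fun S : Finset (Fin 133) => 0 + ∑ j ∈ S, - d (f2 j)) n hn
    (fun S S' => by
      have hdis : Disjoint (S.map f1) (S'.map f2) := by
        rw [Finset.disjoint_left]
        intro x hx hx'
        obtain ⟨i, -, rfl⟩ := Finset.mem_map.1 hx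
        obtain ⟨i', -, hi⟩ := Finset.mem_map.1 hx'
        have : 133 + i'.val = i.val := congrArg Fin.val hi
        omega
      have : a + ∑ j ∈ S, d (f1 j) - (0 + ∑ j ∈ S', - d (f2 j)) =
          a + ∑ j ∈ S.map f1 ∪ S'.map f2, d j := by
        rw [Finset.sum_union hdis, Finset.sum_neg_distrib, sum_map_emb, sum_map_emb]; ring
      rw [this]; exact hsq _)
    (fun S => by rw [sum_map_emb]; exact (hsq _).2.2.le)
    (fun S => by
      have : (0 + ∑ j ∈ S, - d (f2 j)) = a - (a + ∑ j ∈ S.map f2, d j) := by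
        rw [Finset.sum_neg_distrib, sum_map_emb]; ring
      rw [this]
      exact (natDegree_sub_le _ _).trans (max_le han.le (hsq _).2.2.le))
  rcases hv with hv | hv
  · obtain ⟨J, lam, β, l0, l1, l2, hJ, hβ, hrel⟩ := exists_ode3 60 (by simp) a (fun j => d (f1 j))
      (hd.comp f1 f1.injective) Φ h0 h4 h13 hv
    exact fin f1 J lam β l0 l1 l2 hJ hβ hrel
  · obtain ⟨J, lam, β, l0, l1, l2, hJ, hβ, hrel⟩ := exists_ode3 60 (by simp) 0
      (fun j => - d (f2 j)) (hd.comp f2 f2.injective).neg Φ h0 h4 h13 hv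
    refine fin f2 J lam β l0 l1 l2 hJ hβ fun j hj => ?_
    have h1 := hrel j hj
    rw [derivative_neg] at h1
    linear_combination -h1

theorem noCube3 [Fact (Nat.Prime 3)] : NoCube3 3 (133 + 133) := by
  intro a d n hd hsq hW
  let k := AlgebraicClosure (ZMod 3)
  let φ : (ZMod 3)[X] →ₐ[ZMod 3] k[X] := mapAlgHom (Algebra.ofId (ZMod 3) k)
  have hφ : ∀ f, φ f = f.map (algebraMap (ZMod 3) k) := fun f => rfl
  have hinj : Function.Injective φ := map_injective _ (algebraMap (ZMod 3) k).injective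
  refine noCube3_closed k (φ a) (fun j => φ (d j)) n ?_ (fun S => ?_) (fun S T hST => ?_)
  · exact hd.map' φ.toLinearMap (LinearMap.ker_eq_bot.2 hinj)
  · rw [← map_sum, ← map_add]
    refine ⟨(hsq S).1.map φ, fun h => (hsq S).2.1 (hinj (by rw [h, map_zero])), ?_⟩
    rw [hφ, natDegree_map, (hsq S).2.2]
  · rw [← map_sum, ← map_add, ← map_sum, ← map_add]
    intro h
    apply hW S T hST
    apply hinj
    rw [map_zero, ← h, wronskian, wronskian, map_sub, map_mul, map_mul]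
    simp only [hφ, derivative_map]

end Pool.Agent.P.MP_9d026e_co.Three
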