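import Pool.Agent.P.MP_9d026e_co.Frame

/-! Characteristic three: the 14 monomials, their weights, and the two changes of frame. -/

namespace Pool.Agent.P.MP_9d026e_co.Three

/-- bound for the second exponent in total degree `n` -/
def ph (n : ℕ) : ℕ := if n = 5 then 1 else min n 2

/-- list of the exponent pairs -/
def mons : List (ℕ × ℕ) :=
  [(0, 0), (1, 0), (0, 1), (2, 0), (1, 1), (0, 2), (3, 0), (2, 1), (1, 2), (4, 0), (3, 1),
   (2, 2), (5, 0), (4, 1)]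

/-- first exponent -/
def ea (μ : Fin 14) : ℕ := (mons.getD μ (0, 0)).1

/-- second exponent -/
def eb (μ : Fin 14) : ℕ := (mons.getD μ (0, 0)).2

/-- weight of the adapted basis vector for a zoom by a square -/
def w2 (μ : Fin 14) : ℕ :=
  2 * (ea μ + eb μ - ph (ea μ + eb μ)) + (ph (ea μ + eb μ) - eb μ) + 3 * eb μ

/-- weight for a zoom by a cube -/
def w3 (μ : Fin 14) : ℕ := 3 * (ea μ + eb μ)

/-- least total weight of `c` basis vectors, squares -/
def tab2 (c : ℕ) : ℕ := [0, 0, 1, 3, 6, 10, 14, 20, 26, 32, 40, 48, 57, 67, 78].getD c 0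

/-- least total weight of `c` basis vectors, cubes -/
def tab3 (c : ℕ) : ℕ := [0, 0, 3, 6, 12, 18, 24, 33, 42, 51, 63, 75, 87, 102, 117].getD c 0

theorem e_mem : ∀ μ : Fin 14, ea μ + eb μ ≤ 5 ∧ eb μ ≤ ph (ea μ + eb μ) := by
  decide +kernel

theorem e_surj' : ∀ i : Fin 6, ∀ j : Fin 3, i.val + j.val ≤ 5 → j.val ≤ ph (i.val + j.val) →
    ∃ μ : Fin 14, ea μ = i.val ∧ eb μ = j.val := by
  decide +kernel

theorem ph_le (n : ℕ) : ph n ≤ 2 := by unfold ph; split_ifs <;> omega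

theorem ph_le_self (n : ℕ) : ph n ≤ n := by unfold ph; split_ifs <;> omega

theorem e_surj {i j : ℕ} (h1 : i + j ≤ 5) (h2 : j ≤ ph (i + j)) :
    ∃ μ : Fin 14, ea μ = i ∧ eb μ = j := by
  have := ph_le (i + j)
  exact e_surj' ⟨i, by omega⟩ ⟨j, by omega⟩ h1 h2

theorem e_inj : ∀ μ ν : Fin 14, ea μ = ea ν → eb μ = eb ν → μ = ν := by
  decide +kernel

theorem e_sum : ∑ μ : Fin 14, (ea μ + eb μ) = 39 := by decide +kernel

theorem dual2 : ∀ c : Fin 15, ∃ lam : Fin 16,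
    tab2 c.val + ∑ μ : Fin 14, (lam.val - w2 μ) ≤ lam.val * c.val := by
  decide +kernel

theorem dual3 : ∀ c : Fin 15, ∃ lam : Fin 16,
    tab3 c.val + ∑ μ : Fin 14, (lam.val - w3 μ) ≤ lam.val * c.val := by
  decide +kernel

theorem le_of_dual (w : Fin 14 → ℕ) (T : Finset (Fin 14)) (W lam : ℕ)
    (h : W + ∑ μ : Fin 14, (lam - w μ) ≤ lam * T.card) : W ≤ ∑ μ ∈ T, w μ := by
  have h3 : ∑ μ ∈ T, (lam - w μ) ≤ ∑ μ : Fin 14, (lam - w μ) :=
    Finset.sum_le_sum_of_subset (Finset.subset_univ T)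
  have h4 : lam * T.card = ∑ _μ ∈ T, lam := by
    rw [Finset.sum_const, smul_eq_mul, mul_comm]
  have h5 : ∑ _μ ∈ T, lam ≤ ∑ μ ∈ T, (w μ + (lam - w μ)) :=
    Finset.sum_le_sum fun μ _ => by omega
  rw [Finset.sum_add_distrib] at h5
  omega

theorem tab2_le (T : Finset (Fin 14)) : tab2 T.card ≤ ∑ μ ∈ T, w2 μ := by
  have hc : T.card < 15 := by
    have := Finset.card_le_univ T
    rw [Fintype.card_fin] at this; omega
  obtain ⟨lam, hl⟩ := dual2 ⟨T.card, hc⟩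
  exact le_of_dual w2 T _ lam hl

theorem tab3_le (T : Finset (Fin 14)) : tab3 T.card ≤ ∑ μ ∈ T, w3 μ := by
  have hc : T.card < 15 := by
    have := Finset.card_le_univ T
    rw [Fintype.card_fin] at this; omega
  obtain ⟨lam, hl⟩ := dual3 ⟨T.card, hc⟩
  exact le_of_dual w3 T _ lam hl

section span

variable {R : Type*} [CommRing R] {A : Type*} [CommRing A] [Algebra R A]

/-- span of the monomials -/
def Lm (R : Type*) [CommRing R] {A : Type*} [CommRing A] [Algebra R A] (x y : A) :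
    Submodule R A := Submodule.span R (Set.range fun μ : Fin 14 => x ^ ea μ * y ^ eb μ)

/-- the adapted family -/
def Ps (x y z : A) (μ : Fin 14) : A :=
  x ^ (ea μ + eb μ - ph (ea μ + eb μ)) * y ^ (ph (ea μ + eb μ) - eb μ) * z ^ eb μ

theorem mono_mem_Lm (x y : A) {i j : ℕ} (h1 : i + j ≤ 5) (h2 : j ≤ ph (i + j)) :
    x ^ i * y ^ j ∈ Lm R x y := by
  obtain ⟨μ, rfl, rfl⟩ := e_surj h1 h2
  exact Submodule.subset_span ⟨μ, rfl⟩

theorem transl_mem3 (x y : A) (c d : R) (μ : Fin 14) :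
    (c • 1 + x) ^ ea μ * (d • 1 + y) ^ eb μ ∈ Lm R x y := by
  obtain ⟨h1, h2⟩ := e_mem μ
  have := pair_mem (Lm R x y) 1 y d 1 0 0 (eb μ) ((c • 1 + x) ^ ea μ) (eb μ) 0 rfl ?_
  · simpa using this
  · intro j hj
    have := pair_mem (Lm R x y) 1 x c 1 0 0 (ea μ) (y ^ j) (ea μ) 0 rfl ?_
    · convert this using 1
      simp only [one_pow, mul_one, one_smul, pow_zero]; ring
    · intro i hi
      have h3 : x ^ i * y ^ j ∈ Lm R x y := by
        apply mono_mem_Lm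
        · omega
        · have := ph_le (ea μ + eb μ)
          unfold ph at h2 ⊢
          split_ifs at h2 ⊢ <;> omega
      convert h3 using 1
      simp only [one_pow, mul_one]; ring

theorem mono_mem_Ps (x y : A) (t u : R) (hu : u * 2 = 1) (μ : Fin 14) :
    x ^ ea μ * y ^ eb μ ∈
      Submodule.span R (Set.range (Ps x y ((2 : R) • x - t • y))) := by
  obtain ⟨h1, h2⟩ := e_mem μ
  have h3 := ph_le_self (ea μ + eb μ)
  have := pair_mem (Submodule.span R (Set.range (Ps x y ((2 : R) • x - t • y)))) y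
    ((2 : R) • x - t • y) (u * t) u 1 0 (ph (ea μ + eb μ))
    (x ^ (ea μ + eb μ - ph (ea μ + eb μ))) (ph (ea μ + eb μ) - eb μ) (eb μ)
    (by omega) ?_
  · have hx : (u * t) • y + u • ((2 : R) • x - t • y) = x := by
      rw [smul_sub, smul_smul, smul_smul, hu, one_smul]; abel
    rw [hx, one_smul, zero_smul, add_zero, ← pow_add] at this
    convert this using 3
    omega
  · intro j hj
    obtain ⟨ν, e1, e2⟩ := e_surj (i := ea μ + eb μ - j) (j := j) (by omega)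
      (by rw [show ea μ + eb μ - j + j = ea μ + eb μ by omega]; exact hj)
    refine Submodule.subset_span ⟨ν, ?_⟩
    have e3 : ea ν + eb ν = ea μ + eb μ := by omega
    rw [Ps, e3, e2]

theorem Ps_mem_Lm (x y : A) (t : R) (μ : Fin 14) :
    Ps x ((2 : R) • x + t • y) (-y) μ ∈ Lm R x y := by
  obtain ⟨h1, h2⟩ := e_mem μ
  have h3 := ph_le_self (ea μ + eb μ)
  have := pair_mem (Lm R x y) x y 2 t 0 (-1) (ph (ea μ + eb μ))
    (x ^ (ea μ + eb μ - ph (ea μ + eb μ))) (ph (ea μ + eb μ) - eb μ) (eb μ)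
    (by omega) ?_
  · simpa [Ps] using this
  · intro j hj
    rw [← pow_add]
    apply mono_mem_Lm
    · omega
    · rw [show ea μ + eb μ - ph (ea μ + eb μ) + (ph (ea μ + eb μ) - j) + j =
        ea μ + eb μ by omega]
      exact hj

end span

section frame

variable {R : Type*} [CommRing R]

theorem exists_lin3 {Ω : Type*} (F G : Fin 14 → Ω → R)
    (h : ∀ μ, F μ ∈ Submodule.span R (Set.range G)) :
    ∃ T : (Fin 14 → R) →ₗ[R] (Fin 14 → R), ∀ ω, (fun μ => F μ ω) = T (fun ν => G ν ω) := by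
  choose c hc using fun μ => (Submodule.mem_span_range_iff_exists_fun R).1 (h μ)
  refine ⟨Matrix.mulVecLin (Matrix.of c), fun ω => ?_⟩
  funext μ
  rw [← hc μ]
  simp [Matrix.mulVec, dotProduct, Finset.sum_apply]

/-- vector of the monomials at a point -/
def ev3 (x y : R) : Fin 14 → R := fun μ => x ^ ea μ * y ^ eb μ

theorem frame2 (t u c d : R) (hu : u * 2 = 1) :
    ∃ T₁ T₂ : (Fin 14 → R) →ₗ[R] (Fin 14 → R), ∀ x y : R,
      ev3 (c + t ^ 2 * x) (d + (2 * t * x + t ^ 2 * y)) = T₁ (diagMap t w2 (T₂ (ev3 x y))) := by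
  obtain ⟨A₁, h₁⟩ := exists_lin3 (Ω := R × R)
    (fun μ => (c • 1 + Prod.fst) ^ ea μ * (d • 1 + Prod.snd) ^ eb μ)
    (fun μ => Prod.fst ^ ea μ * Prod.snd ^ eb μ) (transl_mem3 _ _ c d)
  obtain ⟨A₂, h₂⟩ := exists_lin3 (Ω := R × R)
    (fun μ => Prod.fst ^ ea μ * Prod.snd ^ eb μ)
    (Ps Prod.fst Prod.snd ((2 : R) • Prod.fst - t • Prod.snd)) (mono_mem_Ps _ _ t u hu)
  obtain ⟨A₃, h₃⟩ := exists_lin3 (Ω := R × R)
    (Ps Prod.fst ((2 : R) • Prod.fst + t • Prod.snd) (-Prod.snd))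
    (fun μ => Prod.fst ^ ea μ * Prod.snd ^ eb μ) (Ps_mem_Lm _ _ t)
  refine ⟨A₁ ∘ₗ A₂, A₃, fun x y => ?_⟩
  have e₁ := h₁ (t ^ 2 * x, 2 * t * x + t ^ 2 * y)
  have e₂ := h₂ (t ^ 2 * x, 2 * t * x + t ^ 2 * y)
  have e₃ := h₃ (x, y)
  have e₄ : ev3 x y = fun ν => (((Prod.fst : R × R → R) ^ ea ν *
      (Prod.snd : R × R → R) ^ eb ν : R × R → R)) (x, y) := by
    funext ν; simp [ev3]
  rw [e₄, ← e₃, LinearMap.comp_apply]
  have e₅ : (diagMap t w2) (fun μ => Ps (Prod.fst : R × R → R)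
      ((2 : R) • Prod.fst + t • Prod.snd) (-Prod.snd) μ (x, y)) =
      fun μ => Ps (Prod.fst : R × R → R) Prod.snd ((2 : R) • Prod.fst - t • Prod.snd) μ
        (t ^ 2 * x, 2 * t * x + t ^ 2 * y) := by
    funext μ
    simp only [diagMap, Ps, w2, LinearMap.coe_mk, AddHom.coe_mk, Pi.mul_apply, Pi.pow_apply,
      Pi.add_apply, Pi.sub_apply, Pi.smul_apply, Pi.neg_apply, smul_eq_mul]
    rw [show 2 * t * x + t ^ 2 * y = t * (2 * x + t * y) by ring,
      show 2 * (t ^ 2 * x) - t * (t * (2 * x + t * y)) = t ^ 3 * (-y) by ring]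
    simp only [mul_pow, ← pow_mul, pow_add]
    ring
  rw [e₅, ← e₂, ← e₁]
  funext μ
  simp [ev3]

theorem frame3 (t c d : R) :
    ∃ T₁ : (Fin 14 → R) →ₗ[R] (Fin 14 → R), ∀ x y : R,
      ev3 (c + t ^ 3 * x) (d + t ^ 3 * y) = T₁ (diagMap t w3 (ev3 x y)) := by
  obtain ⟨A₁, h₁⟩ := exists_lin3 (Ω := R × R)
    (fun μ => (c • 1 + Prod.fst) ^ ea μ * (d • 1 + Prod.snd) ^ eb μ)
    (fun μ => Prod.fst ^ ea μ * Prod.snd ^ eb μ) (transl_mem3 _ _ c d)
  refine ⟨A₁, fun x y => ?_⟩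
  have e₁ := h₁ (t ^ 3 * x, t ^ 3 * y)
  have e₅ : (diagMap t w3) (ev3 x y) = fun ν => (((Prod.fst : R × R → R) ^ ea ν *
      (Prod.snd : R × R → R) ^ eb ν : R × R → R)) (t ^ 3 * x, t ^ 3 * y) := by
    funext μ
    simp only [diagMap, w3, ev3, LinearMap.coe_mk, AddHom.coe_mk, Pi.mul_apply, Pi.pow_apply]
    simp only [mul_pow, ← pow_mul, mul_add, pow_add]
    ring
  rw [e₅, ← e₁]
  funext μ
  simp [ev3]

end frame

end Pool.Agent.P.MP_9d026e_co.Three
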