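import Pool.Agent.P.MP_9d026e_co.Three.Frame3
import Pool.Agent.P.MP_9d026e_co.Curve
import Pool.Agent.P.MP_9d026e_co.EndCount

/-! Characteristic three: the local lemma for the determinant with 14 monomials. -/

open Polynomial

namespace Pool.Agent.P.MP_9d026e_co.Three

variable {k : Type*} [Field k]

/-- vector of monomials in a polynomial and its derivative -/
noncomputable def jt (f : k[X]) : Fin 14 → k[X] := ev3 f (derivative f)

theorem jt_zoom2 (h2 : (2 : k) ≠ 0) (a : k) (f₀ : k[X]) :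
    ∃ T₁ T₂ : (Fin 14 → k[X]) →ₗ[k[X]] (Fin 14 → k[X]), ∀ g : k[X],
      jt (f₀ + (X - C a) ^ 2 * g) = T₁ (diagMap (X - C a) w2 (T₂ (jt g))) := by
  obtain ⟨T₁, T₂, h⟩ := frame2 (X - C a) (C (2⁻¹ : k)) f₀ (derivative f₀)
    (by rw [← map_ofNat C 2, ← C_mul, inv_mul_cancel₀ h2, C_1])
  refine ⟨T₁, T₂, fun g => ?_⟩
  rw [jt, jt, ← h]
  congr 1
  simp only [derivative_add, derivative_mul, derivative_pow, derivative_sub, derivative_X,
    derivative_C, sub_zero, mul_one]
  rw [show (C ((2 : ℕ) : k) : k[X]) = 2 by rw [Nat.cast_ofNat]; rfl]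
  ring

theorem jt_zoom3 (h3 : (3 : k) = 0) (a : k) (f₀ : k[X]) :
    ∃ T₁ T₂ : (Fin 14 → k[X]) →ₗ[k[X]] (Fin 14 → k[X]), ∀ g : k[X],
      jt (f₀ + (X - C a) ^ 3 * g) = T₁ (diagMap (X - C a) w3 (T₂ (jt g))) := by
  obtain ⟨T₁, h⟩ := frame3 (X - C a) f₀ (derivative f₀)
  refine ⟨T₁, LinearMap.id, fun g => ?_⟩
  rw [LinearMap.id_apply, jt, jt, ← h]
  congr 1
  simp only [derivative_add, derivative_mul, derivative_pow, derivative_sub, derivative_X,
    derivative_C, sub_zero, mul_one]
  rw [show ((3 : ℕ) : k) = 0 by exact_mod_cast h3]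
  simp

open Classical in
/-- the part of the valuation seen by the first `l` even levels -/
noncomputable def low (x : k) (l : ℕ) (u : k[X]) : ℕ :=
  ∑ r ∈ Finset.range l, if (X - C x) ^ (2 * r + 2) ∣ u then 2 else 0

theorem low_zero (x : k) (u : k[X]) : low x 0 u = 0 := by simp [low]

theorem low_zoom (x : k) (l : ℕ) (u : k[X]) :
    low x (l + 1) ((X - C x) ^ 2 * u) = low x l u + 2 := by
  unfold low
  rw [Finset.sum_range_succ']
  congr 1
  · refine Finset.sum_congr rfl fun r _ => ?_
    have : (X - C x) ^ (2 * (r + 1) + 2) ∣ (X - C x) ^ 2 * u ↔ (X - C x) ^ (2 * r + 2) ∣ u := by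
      rw [show 2 * (r + 1) + 2 = 2 + (2 * r + 2) by ring, pow_add]
      exact mul_dvd_mul_iff_left (pow_ne_zero _ (X_sub_C_ne_zero x))
    by_cases h : (X - C x) ^ (2 * r + 2) ∣ u
    · rw [if_pos h, if_pos (this.2 h)]
    · rw [if_neg h, if_neg (fun h' => h (this.1 h'))]
  · rw [if_pos (by simp)]

theorem low_of_not_dvd (x : k) (l : ℕ) {u : k[X]} (h : ¬ (X - C x) ^ 2 ∣ u) : low x l u = 0 := by
  unfold low
  refine Finset.sum_eq_zero fun r _ => if_neg fun h' => h ?_
  exact (pow_dvd_pow _ (by omega)).trans h'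

theorem low_le (x : k) (l : ℕ) (u : k[X]) : low x l u ≤ 2 * l := by
  unfold low
  calc _ ≤ ∑ _r ∈ Finset.range l, 2 := Finset.sum_le_sum fun r _ => by split_ifs <;> simp
    _ = _ := by simp [mul_comm]

theorem low_neg (x : k) (l : ℕ) (u : k[X]) : low x l (-u) = low x l u := by
  unfold low
  refine Finset.sum_congr rfl fun r _ => ?_
  by_cases h : (X - C x) ^ (2 * r + 2) ∣ u
  · rw [if_pos h, if_pos (dvd_neg.2 h)]
  · rw [if_neg h, if_neg (fun h' => h (dvd_neg.1 h'))]

/-- the two indices are on the same side -/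
def same (i j : Fin 14) : Prop := (i.val < 7 ↔ j.val < 7)

instance (i j : Fin 14) : Decidable (same i j) := inferInstanceAs (Decidable (_ ↔ _))

/-- the contribution of an ordered pair -/
noncomputable def pc (x : k) (l : ℕ) (f : Fin 14 → k[X]) (i j : Fin 14) : ℤ :=
  if same i j then (if i = j then 0 else 1029 * (low x l (f i - f j) : ℤ))
  else 2345 * (rootMultiplicity x (f i - f j) : ℤ) - 882 * (low x l (f i - f j) : ℤ)

/-- gain of a pair under a zoom -/
def gain (c₁ c₂ : ℤ) (i j : Fin 14) : ℤ := if same i j then (if i = j then 0 else c₁) else c₂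

theorem sum_gain (c₁ c₂ : ℤ) (S : Finset (Fin 14)) :
    ∃ a b : Fin 8, S.card = a.val + b.val ∧ ∑ i ∈ S, ∑ j ∈ S, gain c₁ c₂ i j =
      c₁ * ((a.val : ℤ) * (a.val - 1) + (b.val : ℤ) * (b.val - 1)) + 2 * c₂ * (a.val * b.val) := by
  classical
  set A := S.filter fun i : Fin 14 => i.val < 7 with hA
  set B := S.filter fun i : Fin 14 => ¬ i.val < 7 with hB
  have ha : A.card ≤ 7 := by
    have h1 : A ⊆ Finset.univ.filter fun i : Fin 14 => i.val < 7 :=
      Finset.filter_subset_filter _ (Finset.subset_univ S)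
    exact (Finset.card_le_card h1).trans (by decide)
  have hb : B.card ≤ 7 := by
    have h1 : B ⊆ Finset.univ.filter fun i : Fin 14 => ¬ i.val < 7 :=
      Finset.filter_subset_filter _ (Finset.subset_univ S)
    exact (Finset.card_le_card h1).trans (by decide)
  have hc : A.card + B.card = S.card := Finset.card_filter_add_card_filter_not _
  refine ⟨⟨A.card, by omega⟩, ⟨B.card, by omega⟩, hc.symm, ?_⟩
  have e1 : ∀ i j, gain c₁ c₂ i j = (if same i j then c₁ else c₂) - (if i = j then c₁ else 0) := by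
    intro i j
    unfold gain
    by_cases h : i = j
    · subst h; simp [same]
    · simp [h]
  have e2 : ∀ i, ∑ j ∈ S, (if same i j then c₁ else c₂) =
      if i.val < 7 then A.card * c₁ + B.card * c₂ else A.card * c₂ + B.card * c₁ := by
    intro i
    rw [← Finset.sum_filter_add_sum_filter_not S (fun i : Fin 14 => i.val < 7), ← hA, ← hB]
    have h1 : ∀ j ∈ A, (if same i j then c₁ else c₂) = if i.val < 7 then c₁ else c₂ := by
      intro j hj
      have := (Finset.mem_filter.1 hj).2
      simp [same, this]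
    have h2 : ∀ j ∈ B, (if same i j then c₁ else c₂) = if i.val < 7 then c₂ else c₁ := by
      intro j hj
      have := (Finset.mem_filter.1 hj).2
      by_cases hi : i.val < 7 <;> simp [same, this, hi]
    rw [Finset.sum_congr rfl h1, Finset.sum_congr rfl h2]
    split_ifs <;> simp
  have e3 : ∀ i ∈ S, ∑ j ∈ S, (if i = j then c₁ else 0) = c₁ := by
    intro i hi
    rw [Finset.sum_ite_eq, if_pos hi]
  simp only [e1, Finset.sum_sub_distrib, e2]
  rw [Finset.sum_congr rfl e3, Finset.sum_ite, ← hA, ← hB]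
  simp only [Finset.sum_const, nsmul_eq_mul]
  rw [← hc]
  push_cast
  ring

theorem num2 : ∀ a b : Fin 8, 2058 * ((a.val : ℤ) * (a.val - 1) + (b.val : ℤ) * (b.val - 1)) +
    2 * 2926 * (a.val * b.val) ≤
      5880 * (tab2 (a.val + b.val) : ℤ) + if a.val + b.val = 14 then 980 else 0 := by
  decide +kernel

theorem num3 : ∀ a b : Fin 8, 0 * ((a.val : ℤ) * (a.val - 1) + (b.val : ℤ) * (b.val - 1)) +
    2 * 7035 * (a.val * b.val) ≤
      5880 * (tab3 (a.val + b.val) : ℤ) + if a.val + b.val = 14 then 1470 else 0 := by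
  decide +kernel

theorem gain2 (S : Finset (Fin 14)) : ∑ i ∈ S, ∑ j ∈ S, gain 2058 2926 i j ≤
    5880 * (tab2 S.card : ℤ) + if S = Finset.univ then 980 else 0 := by
  obtain ⟨a, b, h1, h2⟩ := sum_gain 2058 2926 S
  rw [h2, h1]
  refine (num2 a b).trans (le_of_eq ?_)
  congr 1
  have : a.val + b.val = 14 ↔ S = Finset.univ := by
    rw [← h1, ← Finset.card_eq_iff_eq_univ, Fintype.card_fin]
  simp only [this]

theorem gain3 (S : Finset (Fin 14)) : ∑ i ∈ S, ∑ j ∈ S, gain 0 7035 i j ≤
    5880 * (tab3 S.card : ℤ) + if S = Finset.univ then 1470 else 0 := by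
  obtain ⟨a, b, h1, h2⟩ := sum_gain 0 7035 S
  rw [h2, h1]
  refine (num3 a b).trans (le_of_eq ?_)
  congr 1
  have : a.val + b.val = 14 ↔ S = Finset.univ := by
    rw [← h1, ← Finset.card_eq_iff_eq_univ, Fintype.card_fin]
  simp only [this]

theorem sum_split {σ : Type*} (S : Finset σ) (p : σ → Prop) [DecidablePred p] {M : Type*}
    [AddCommMonoid M] (c : σ → σ → M)
    (h0 : ∀ i ∈ S, ∀ j ∈ S, p i → ¬ p j → c i j = 0 ∧ c j i = 0) :
    ∑ i ∈ S, ∑ j ∈ S, c i j = ∑ i ∈ S.filter p, ∑ j ∈ S.filter p, c i j +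
      ∑ i ∈ S.filter (fun i => ¬ p i), ∑ j ∈ S.filter (fun i => ¬ p i), c i j := by
  rw [← Finset.sum_filter_add_sum_filter_not S p]
  congr 1
  · refine Finset.sum_congr rfl fun i hi => ?_
    rw [← Finset.sum_filter_add_sum_filter_not S p, Finset.sum_eq_zero (s := S.filter fun i => ¬ p i),
      add_zero]
    intro j hj
    exact (h0 i (Finset.mem_filter.1 hi).1 j (Finset.mem_filter.1 hj).1 (Finset.mem_filter.1 hi).2
      (Finset.mem_filter.1 hj).2).1
  · refine Finset.sum_congr rfl fun i hi => ?_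
    rw [← Finset.sum_filter_add_sum_filter_not S p, Finset.sum_eq_zero (s := S.filter p), zero_add]
    intro j hj
    exact (h0 j (Finset.mem_filter.1 hj).1 i (Finset.mem_filter.1 hi).1 (Finset.mem_filter.1 hj).2
      (Finset.mem_filter.1 hi).2).2

/-- the hypothesis on cross differences -/
def Lv (x : k) (l : ℕ) (z : k[X]) : Prop :=
  z ≠ 0 ∧ (rootMultiplicity x z < 2 * l → Even (rootMultiplicity x z)) ∧
    (2 * l ≤ rootMultiplicity x z → 3 ∣ rootMultiplicity x z - 2 * l)

/-- cross valuation of an ordered pair -/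
noncomputable def cv (x : k) (f : Fin 14 → k[X]) (i j : Fin 14) : ℕ :=
  if same i j then 0 else rootMultiplicity x (f i - f j)

theorem rm_zoom (x : k) (e : ℕ) {u : k[X]} (h : (X - C x) ^ e * u ≠ 0) :
    rootMultiplicity x ((X - C x) ^ e * u) = e + rootMultiplicity x u := by
  rw [rootMultiplicity_mul h, rootMultiplicity_X_sub_C_pow]

theorem local3 (h2 : (2 : k) ≠ 0) (h3 : (3 : k) = 0) (x : k) (N : ℕ) :
    ∀ (l M : ℕ) (S : Finset (Fin 14)) (f : Fin 14 → k[X]),
      (∀ i ∈ S, ∀ j ∈ S, ¬ same i j → Lv x l (f i - f j)) →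
      (S = Finset.univ → ∃ i j, ¬ same i j ∧ rootMultiplicity x (f i - f j) ≤ M) →
      l + ∑ i ∈ S, ∑ j ∈ S, cv x f i j + S.card ≤ N →
      ∃ m : ℕ, WDiv (X - C x) (S.toList.map fun i => jt (f i)) m ∧
        ∑ i ∈ S, ∑ j ∈ S, pc x l f i j ≤ 5880 * (m : ℤ) + 490 * (M : ℤ) := by
  classical
  induction N with
  | zero =>
    intro l M S f _ _ hN
    have : S = ∅ := Finset.card_eq_zero.1 (by omega)
    subst this
    exact ⟨0, WDiv.zero _ _, by simp⟩
  | succ N ih =>
    intro l M S f h hM hN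
    rcases S.eq_empty_or_nonempty with rfl | ⟨i₀, hi₀⟩
    · exact ⟨0, WDiv.zero _ _, by simp⟩
    by_cases htriv : l = 0 ∧ ∀ i ∈ S, ∀ j ∈ S, same i j
    · refine ⟨0, WDiv.zero _ _, ?_⟩
      rw [Finset.sum_eq_zero]
      · positivity
      intro i hi
      refine Finset.sum_eq_zero fun j hj => ?_
      simp [pc, htriv.2 i hi j hj, htriv.1, low_zero]
    obtain ⟨e, w, tab, c₁, c₂, l', he, hw, hz, hg, hpz, hpc, hLv, hdec⟩ :
        ∃ (e : ℕ) (w : Fin 14 → ℕ) (tab : ℕ → ℕ) (c₁ c₂ : ℤ) (l' : ℕ), 0 < e ∧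
        (∀ T : Finset (Fin 14), tab T.card ≤ ∑ μ ∈ T, w μ) ∧
        (∀ f₀ : k[X], ∃ T₁ T₂ : (Fin 14 → k[X]) →ₗ[k[X]] (Fin 14 → k[X]), ∀ g : k[X],
          jt (f₀ + (X - C x) ^ e * g) = T₁ (diagMap (X - C x) w (T₂ (jt g)))) ∧
        (∑ i ∈ S, ∑ j ∈ S, gain c₁ c₂ i j ≤
          5880 * (tab S.card : ℤ) + if S = Finset.univ then 490 * (e : ℤ) else 0) ∧
        (∀ u, ¬ (X - C x) ^ e ∣ u → low x l u = 0 ∧ (Lv x l u → rootMultiplicity x u = 0)) ∧
        (∀ u, 1029 * (low x l ((X - C x) ^ e * u) : ℤ) = 1029 * (low x l' u : ℤ) + c₁ ∧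
          2345 * (e : ℤ) - 882 * (low x l ((X - C x) ^ e * u) : ℤ) =
            - 882 * (low x l' u : ℤ) + c₂) ∧
        (∀ u, Lv x l ((X - C x) ^ e * u) → Lv x l' u) ∧
        (l' < l ∨ (l' = l ∧ ∃ i ∈ S, ∃ j ∈ S, ¬ same i j)) := by
      rcases l with _ | l
      · refine ⟨3, w3, tab3, 0, 7035, 0, by norm_num, tab3_le, jt_zoom3 h3 x, by
          simpa using gain3 S, ?_, ?_, ?_, ?_⟩
        · intro u hu
          refine ⟨low_zero _ _, fun hL => ?_⟩
          have h4 := hL.2.2 (by omega)
          rw [dvd_iff_le_rm hL.1] at hu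
          omega
        · intro u
          simp [low_zero]
        · intro u hu
          have h4 := hu.2.2 (by omega)
          rw [rm_zoom x 3 hu.1] at h4
          exact ⟨right_ne_zero_of_mul hu.1, fun h => by omega, fun _ => by omega⟩
        · right
          refine ⟨rfl, ?_⟩
          by_contra hcon
          push Not at hcon
          exact htriv ⟨rfl, hcon⟩
      · refine ⟨2, w2, tab2, 2058, 2926, l, by norm_num, tab2_le, jt_zoom2 h2 x, by
          simpa using gain2 S, ?_, ?_, ?_, Or.inl (Nat.lt_succ_self l)⟩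
        · intro u hu
          refine ⟨low_of_not_dvd _ _ hu, fun hL => ?_⟩
          rw [dvd_iff_le_rm hL.1] at hu
          obtain ⟨r, hr⟩ := hL.2.1 (by omega)
          omega
        · intro u
          rw [low_zoom]
          push_cast
          constructor <;> ring
        · intro u hu
          obtain ⟨h4, h5, h6⟩ := hu
          rw [rm_zoom x 2 h4] at h5 h6
          refine ⟨right_ne_zero_of_mul h4, fun h => ?_, fun h => ?_⟩
          · obtain ⟨r, hr⟩ := h5 (by omega)
            exact ⟨r - 1, by omega⟩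
          · have := h6 (by omega)
            omega
    by_cases hall : ∀ i ∈ S, (X - C x) ^ e ∣ f i - f i₀
    · have hA : ∀ i, ∃ g, i ∈ S → f i = f i₀ + (X - C x) ^ e * g := by
        intro i
        by_cases hi : i ∈ S
        · obtain ⟨g, hg⟩ := hall i hi
          exact ⟨g, fun _ => by rw [← hg]; ring⟩
        · exact ⟨0, fun h => absurd h hi⟩
      choose g hg' using hA
      have hdiff : ∀ i ∈ S, ∀ j ∈ S, f i - f j = (X - C x) ^ e * (g i - g j) := by
        intro i hi j hj
        rw [hg' i hi, hg' j hj]; ring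
      have hrm : ∀ i ∈ S, ∀ j ∈ S, ¬ same i j →
          rootMultiplicity x (f i - f j) = e + rootMultiplicity x (g i - g j) := by
        intro i hi j hj hij
        have h0 := (h i hi j hj hij).1
        rw [hdiff i hi j hj] at h0 ⊢
        exact rm_zoom x e h0
      have hcv : ∀ i ∈ S, ∀ j ∈ S, cv x g i j ≤ cv x f i j := by
        intro i hi j hj
        unfold cv
        split_ifs with hij
        · exact le_rfl
        · rw [hrm i hi j hj hij]; omega
      have hmeas : l' + ∑ i ∈ S, ∑ j ∈ S, cv x g i j < l + ∑ i ∈ S, ∑ j ∈ S, cv x f i j := by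
        rcases hdec with hd | ⟨hd, i, hi, j, hj, hij⟩
        · have := Finset.sum_le_sum fun i hi => Finset.sum_le_sum fun j hj => hcv i hi j hj
          omega
        · have : ∑ i ∈ S, ∑ j ∈ S, cv x g i j < ∑ i ∈ S, ∑ j ∈ S, cv x f i j := by
            refine Finset.sum_lt_sum (fun i hi => Finset.sum_le_sum fun j hj => hcv i hi j hj)
              ⟨i, hi, Finset.sum_lt_sum (fun j hj => hcv i hi j hj) ⟨j, hj, ?_⟩⟩
            unfold cv
            rw [if_neg hij, if_neg hij, hrm i hi j hj hij]; omega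
          omega
      obtain ⟨M', hM1, hM2⟩ : ∃ M' : ℕ,
          (S = Finset.univ → ∃ i j, ¬ same i j ∧ rootMultiplicity x (g i - g j) ≤ M') ∧
          490 * (M' : ℤ) + (if S = Finset.univ then 490 * (e : ℤ) else 0) ≤ 490 * (M : ℤ) := by
        by_cases hS : S = Finset.univ
        · obtain ⟨i, j, hij, hle⟩ := hM hS
          rw [hrm i (hS ▸ Finset.mem_univ _) j (hS ▸ Finset.mem_univ _) hij] at hle
          refine ⟨M - e, fun _ => ⟨i, j, hij, by omega⟩, ?_⟩
          rw [if_pos hS]
          omega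
        · exact ⟨M, fun h => absurd h hS, by rw [if_neg hS]; omega⟩
      obtain ⟨m, hm, hle⟩ := ih l' M' S g (by
        intro i hi j hj hij
        apply hLv
        rw [← hdiff i hi j hj]
        exact h i hi j hj hij) hM1 (by omega)
      obtain ⟨T₁, T₂, hT⟩ := hz (f i₀)
      have h4 := ((hm.map T₂).diag w (tab S.card) (by
        intro T hT
        have h5 : T.card = S.card := by simpa using hT
        rw [← h5]
        exact hw T)).map T₁
      refine ⟨m + tab S.card, ?_, ?_⟩
      · convert h4 using 1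
        simp only [List.map_map]
        apply List.map_congr_left
        intro i hi
        rw [hg' i (Finset.mem_toList.1 hi), hT]; rfl
      · have h5 : ∑ i ∈ S, ∑ j ∈ S, pc x l f i j =
            ∑ i ∈ S, ∑ j ∈ S, pc x l' g i j + ∑ i ∈ S, ∑ j ∈ S, gain c₁ c₂ i j := by
          rw [← Finset.sum_add_distrib]
          refine Finset.sum_congr rfl fun i hi => ?_
          rw [← Finset.sum_add_distrib]
          refine Finset.sum_congr rfl fun j hj => ?_
          unfold pc gain
          by_cases hij : same i j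
          · simp only [if_pos hij]
            split_ifs with h6
            · simp
            · rw [hdiff i hi j hj, (hpc _).1]
          · simp only [if_neg hij]
            rw [hrm i hi j hj hij, hdiff i hi j hj]
            have := (hpc (g i - g j)).2
            push_cast
            linarith
        rw [h5]
        push_cast
        linarith
    · set p : Fin 14 → Prop := fun i => (X - C x) ^ e ∣ f i - f i₀ with hp
      have hnd : ∀ i j, p i → ¬ p j → ¬ (X - C x) ^ e ∣ f i - f j ∧ ¬ (X - C x) ^ e ∣ f j - f i := by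
        intro i j hi hj
        refine ⟨fun hd => hj ?_, fun hd => hj ?_⟩
        · have := dvd_sub hi hd
          rwa [show f i - f i₀ - (f i - f j) = f j - f i₀ by ring] at this
        · have := dvd_add hi hd
          rwa [show f i - f i₀ + (f j - f i) = f j - f i₀ by ring] at this
      have hpc0 : ∀ i ∈ S, ∀ j ∈ S, ¬ (X - C x) ^ e ∣ f i - f j → pc x l f i j = 0 ∧
          cv x f i j = 0 := by
        intro i hi j hj hd
        obtain ⟨h4, h5⟩ := hpz _ hd
        unfold pc cv
        by_cases hij : same i j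
        · simp [hij, h4]
        · simp [hij, h4, h5 (h i hi j hj hij)]
      have e1 := sum_split S p (pc x l f) fun i hi j hj h4 h5 =>
        ⟨(hpc0 i hi j hj (hnd i j h4 h5).1).1, (hpc0 j hj i hi (hnd i j h4 h5).2).1⟩
      have e2 := sum_split S p (cv x f) fun i hi j hj h4 h5 =>
        ⟨(hpc0 i hi j hj (hnd i j h4 h5).1).2, (hpc0 j hj i hi (hnd i j h4 h5).2).2⟩
      have cA : (S.filter p).card + (S.filter fun i => ¬ p i).card = S.card :=
        Finset.card_filter_add_card_filter_not _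
      have c1 : 0 < (S.filter p).card :=
        Finset.card_pos.2 ⟨i₀, Finset.mem_filter.2 ⟨hi₀, by simp [hp]⟩⟩
      have c2 : 0 < (S.filter fun i => ¬ p i).card := by
        push Not at hall
        obtain ⟨i, hi, hi'⟩ := hall
        exact Finset.card_pos.2 ⟨i, Finset.mem_filter.2 ⟨hi, hi'⟩⟩
      have c3 : S.card ≤ 14 := by simpa using Finset.card_le_univ S
      obtain ⟨m₁, hm₁, hle₁⟩ := ih l 0 (S.filter p) f (fun i hi j hj =>
        h i (Finset.mem_filter.1 hi).1 j (Finset.mem_filter.1 hj).1) (fun h => by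
          rw [h] at cA; simp at cA; omega) (by omega)
      obtain ⟨m₂, hm₂, hle₂⟩ := ih l 0 (S.filter fun i => ¬ p i) f (fun i hi j hj =>
        h i (Finset.mem_filter.1 hi).1 j (Finset.mem_filter.1 hj).1) (fun h => by
          rw [h] at cA; simp at cA; omega) (by omega)
      refine ⟨m₁ + m₂, WDiv.perm ?_ (hm₁.append hm₂), ?_⟩
      · rw [← List.map_append]
        exact (toList_perm_filter S p).map _
      · rw [e1]
        push_cast at hle₁ hle₂ ⊢
        have : (0 : ℤ) ≤ M := Int.natCast_nonneg M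
        linarith

theorem natDegree_jt (f : k[X]) (n : ℕ) (hf : f.natDegree ≤ n)
    (μ : Fin 14) : (jt f μ).natDegree ≤ (ea μ + eb μ) * n := by
  rw [add_mul]
  refine natDegree_mul_le.trans (add_le_add ?_ ?_)
  · exact natDegree_pow_le.trans (Nat.mul_le_mul_left _ hf)
  · exact natDegree_pow_le.trans (Nat.mul_le_mul_left _
      ((natDegree_derivative_le f).trans (by omega)))

/-- the global bound for a tuple with nonzero determinant -/
theorem tuple_bound (h2 : (2 : k) ≠ 0) (h3 : (3 : k) = 0) (f : Fin 14 → k[X]) (n : ℕ)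
    (hf : ∀ i, (f i).natDegree ≤ n) (l M : k → ℕ)
    (hL : ∀ x i j, ¬ same i j → Lv x (l x) (f i - f j))
    (hM : ∀ x, ∃ i j, ¬ same i j ∧ rootMultiplicity x (f i - f j) ≤ M x)
    (hdet : (Matrix.of fun i => jt (f i)).det ≠ 0) (T : Finset k) :
    ∑ x ∈ T, ∑ i, ∑ j, pc x (l x) f i j ≤ 229320 * (n : ℤ) + 490 * ∑ x ∈ T, (M x : ℤ) := by
  classical
  set D := (Matrix.of fun i => jt (f i)).det with hD
  have hloc : ∀ x : k, ∑ i, ∑ j, pc x (l x) f i j ≤
      5880 * (rootMultiplicity x D : ℤ) + 490 * (M x : ℤ) := by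
    intro x
    obtain ⟨m, hm, hle⟩ := local3 h2 h3 x _ (l x) (M x) Finset.univ f
      (fun i _ j _ hij => hL x i j hij) (fun _ => hM x) le_rfl
    have h1 : WDiv (X - C x) (List.ofFn fun i => jt (f i)) m :=
      WDiv.perm (toList_univ_perm _) hm
    have h4 : (m : ℤ) ≤ rootMultiplicity x D := by
      exact_mod_cast (le_rootMultiplicity_iff hdet).2 (h1.dvd_det _)
    linarith
  have h4 : D.natDegree ≤ 39 * n := by
    rw [hD, Matrix.det_apply]
    refine natDegree_sum_le_of_forall_le _ _ fun σ _ => ?_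
    have e1 : (Equiv.Perm.sign σ • ∏ i, Matrix.of (fun i => jt (f i)) (σ i) i).natDegree ≤
        (∏ i, Matrix.of (fun i => jt (f i)) (σ i) i).natDegree := by
      rcases Int.units_eq_one_or (Equiv.Perm.sign σ) with h | h <;> simp [h]
    refine e1.trans ((natDegree_prod_le _ _).trans ?_)
    rw [← e_sum, Finset.sum_mul]
    refine Finset.sum_le_sum fun μ _ => ?_
    rw [Matrix.of_apply]
    exact natDegree_jt _ n (hf _) μ
  have h5 : ∑ x ∈ T, (rootMultiplicity x D : ℤ) ≤ 39 * (n : ℤ) := by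
    exact_mod_cast (sum_rm_le D T).trans h4
  have h6 := Finset.sum_le_sum fun x (_ : x ∈ T) => hloc x
  rw [Finset.sum_add_distrib, ← Finset.mul_sum, ← Finset.mul_sum] at h6
  linarith

end Pool.Agent.P.MP_9d026e_co.Three
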