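import Pool.Agent.P.MP_9d026e_co.Reduce
import Pool.Agent.P.MP_9d026e_co.Three.Cube3

/-! The reduction to Hilbert cubes, valid for every odd prime, and growth in characteristic
three. -/

open Polynomial Pointwise

namespace Pool.Agent.P.MP_9d026e_co.Three

section Steps

variable {p : ℕ} [Fact p.Prime]

lemma two_ne_zero_poly3 (hp : 3 ≤ p) : (2 : (ZMod p)[X]) ≠ 0 := by
  intro h
  have h2 : ((2 : ℕ) : (ZMod p)[X]) = 0 := by exact_mod_cast h
  have := Nat.le_of_dvd two_pos ((CharP.cast_eq_zero_iff _ p 2).1 h2)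
  omega

lemma sq_contract3 (hp : 3 ≤ p) {z : (ZMod p)[X]} (h : derivative z = 0) (hz : IsSquare z) :
    ∃ w, z = expand (ZMod p) p w ∧ IsSquare w := by
  obtain ⟨y, rfl⟩ := hz
  have hy : derivative y = 0 := by
    have h2 : 2 * (y * derivative y) = 0 := by
      rw [derivative_mul] at h
      linear_combination h
    rcases mul_eq_zero.1 ((mul_eq_zero.1 h2).resolve_left (two_ne_zero_poly3 hp)) with h3 | h3
    · rw [h3, derivative_zero]
    · exact h3
  refine ⟨contract p y * contract p y, ?_, _, rfl⟩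
  rw [map_mul, expand_contract p hy (by omega)]

lemma natDegree_expand_le3 (hp : 3 ≤ p) (w : (ZMod p)[X]) :
    w.natDegree ≤ (expand (ZMod p) p w).natDegree ∧
      (0 < (expand (ZMod p) p w).natDegree → w.natDegree < (expand (ZMod p) p w).natDegree) := by
  rw [natDegree_expand]
  have : w.natDegree * 3 ≤ w.natDegree * p := Nat.mul_le_mul_left _ hp
  refine ⟨by omega, fun h => ?_⟩
  have : 0 < w.natDegree := Nat.pos_of_mul_pos_right h
  omega

lemma descent_class3 (hp : 3 ≤ p) (A : Finset (ZMod p)[X]) (hsq : ∀ z ∈ A, IsSquare z)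
    (hW : ∀ z ∈ A, ∀ z' ∈ A, wronskian z z' = 0) (z0 : (ZMod p)[X]) (hz0 : z0 ∈ A)
    (hz0' : z0 ≠ 0) :
    ∃ φ : (ZMod p)[X] →+ (ZMod p)[X], Function.Injective φ ∧ ∀ z ∈ A, ∃ w, φ w = z ∧
      IsSquare w ∧ w.natDegree ≤ z.natDegree ∧ (0 < z.natDegree → w.natDegree < z.natDegree) := by
  classical
  by_cases hu : IsUnit (A.gcd id)
  · refine ⟨(expand (ZMod p) p : (ZMod p)[X] →+* (ZMod p)[X]).toAddMonoidHom,
      expand_injective (by omega), fun z hz => ?_⟩
    have h1 : z ∣ A.gcd fun x => derivative z * id x := by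
      refine Finset.dvd_gcd fun x hx => ⟨derivative x, ?_⟩
      have := hW z hz x hx
      unfold wronskian at this
      simp only [id]
      linear_combination -this
    have h2 : z ∣ derivative z :=
      (hu.dvd_mul_right).1 (h1.trans (Finset.gcd_mul_left' A id (derivative z)).dvd)
    have h3 : derivative z = 0 := by
      by_contra hne
      have hz' : z.natDegree ≠ 0 := by
        intro h0
        exact hne (derivative_of_natDegree_zero h0)
      exact absurd (natDegree_le_of_dvd h2 hne) (not_le.2 (natDegree_derivative_lt hz'))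
    obtain ⟨w, rfl, hw⟩ := sq_contract3 hp h3 (hsq z hz)
    exact ⟨w, rfl, hw, natDegree_expand_le3 hp w⟩
  · have h0 : A.gcd id ≠ 0 := fun h => hz0' (Finset.gcd_eq_zero_iff.1 h z0 hz0)
    obtain ⟨π, hπ, hd⟩ := exists_prime_dvd h0 hu
    refine ⟨AddMonoidHom.mulLeft (π ^ 2), mul_right_injective₀ (pow_ne_zero _ hπ.ne_zero),
      fun z hz => ?_⟩
    obtain ⟨w, rfl, hw⟩ := sq_div hπ (hd.trans (Finset.gcd_dvd hz)) (hsq z hz)
    refine ⟨w, rfl, hw, natDegree_sq_mul_le hπ, fun h => natDegree_sq_mul hπ ?_⟩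
    rintro rfl
    simp at h

lemma step_descent3 (hp : 3 ≤ p) (A : Finset (ZMod p)[X]) (hA : NZ A) (hM : p < A.card)
    (hW : ∀ z ∈ A, ∀ z' ∈ A, wronskian z z' = 0) :
    ∃ C : Finset (ZMod p)[X], NZ C ∧ ∑ z ∈ C, (z.natDegree + 1) < ∑ z ∈ A, (z.natDegree + 1) ∧
      A.card ≤ C.card ∧ (C + C).card ≤ (A + A).card := by
  obtain ⟨z0, hz0, hz0'⟩ : ∃ z ∈ A, 0 < z.natDegree := by
    by_contra hcon
    push Not at hcon
    have : A ⊆ Finset.univ.image (C : ZMod p → (ZMod p)[X]) := by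
      intro z hz
      obtain ⟨c, hc⟩ := natDegree_eq_zero.1 (Nat.le_zero.1 (hcon z hz))
      exact Finset.mem_image.2 ⟨c, Finset.mem_univ _, hc⟩
    have h2 := (Finset.card_le_card this).trans Finset.card_image_le
    rw [Finset.card_univ, ZMod.card] at h2
    omega
  obtain ⟨φ, hφ, h⟩ := descent_class3 hp A (fun z hz => (hA z hz).1) hW z0 hz0 (hA z0 hz0).2
  choose! ψ h1 h2 h3 h4 using h
  have hinj : Set.InjOn ψ A := fun x hx y hy hxy => by
    rw [← h1 x hx, ← h1 y hy, hxy]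
  refine ⟨A.image ψ, ?_, ?_, (Finset.card_image_of_injOn hinj).ge, ?_⟩
  · intro w hw
    obtain ⟨z, hz, rfl⟩ := Finset.mem_image.1 hw
    refine ⟨h2 z hz, fun h0 => (hA z hz).2 ?_⟩
    rw [← h1 z hz, h0, map_zero]
  · rw [Finset.sum_image hinj]
    exact Finset.sum_lt_sum (fun z hz => Nat.succ_le_succ (h3 z hz))
      ⟨z0, hz0, Nat.succ_lt_succ (h4 z0 hz0 hz0')⟩
  · refine card_image_add_le φ hφ _ _ fun w hw => ?_
    obtain ⟨z, hz, rfl⟩ := Finset.mem_image.1 hw
    rw [h1 z hz]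
    exact hz

lemma step_classes3 (hp : 3 ≤ p) (A : Finset (ZMod p)[X]) (hA : NZ A) (hM : p < A.card) :
    Good (A + A).card A ∨
      (∃ C : Finset (ZMod p)[X], NZ C ∧
        ∑ z ∈ C, (z.natDegree + 1) < ∑ z ∈ A, (z.natDegree + 1) ∧
        A.card ≤ C.card ∧ (C + C).card ≤ (A + A).card) ∨
      (∃ C E : Finset (ZMod p)[X], NZ C ∧
        ∑ z ∈ C, (z.natDegree + 1) < ∑ z ∈ A, (z.natDegree + 1) ∧
        A.card ≤ C.card + E.card ∧ Good (A + A).card E ∧
        (C + C).card + C.card ≤ (A + A).card) := by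
  by_cases hg : ∀ g, g ≠ 0 → (A.filter fun z => wronskian z g = 0).card ^ 2 ≤ (A + A).card
  · exact Or.inl ⟨hA, le_rfl, hg⟩
  push Not at hg
  obtain ⟨g, hg0, hg⟩ := hg
  set C := A.filter fun z => wronskian z g = 0 with hC
  set E := A.filter fun z => ¬ wronskian z g = 0 with hE
  have hCA : C ⊆ A := Finset.filter_subset _ _
  have hEA : E ⊆ A := Finset.filter_subset _ _
  rcases E.eq_empty_or_nonempty with h0 | ⟨e, he⟩
  · have hall : ∀ z ∈ A, wronskian z g = 0 := by
      intro z hz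
      by_contra hne
      have : z ∈ E := Finset.mem_filter.2 ⟨hz, hne⟩
      rw [h0] at this
      exact Finset.notMem_empty _ this
    exact Or.inr (Or.inl (step_descent3 hp A hA hM fun z hz z' hz' =>
      wr_trans (hall z hz) (wr_symm (hall z' hz')) hg0))
  have he' := Finset.mem_filter.1 he
  refine Or.inr (Or.inr ⟨C, E, fun z hz => hA z (hCA hz), ?_, ?_,
    ⟨fun z hz => hA z (hEA hz), Finset.card_le_card (Finset.add_subset_add hEA hEA), ?_⟩, ?_⟩)
  · exact Finset.sum_lt_sum_of_subset hCA he'.1 (fun h => he'.2 (Finset.mem_filter.1 h).2)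
      (Nat.succ_pos _) fun _ _ _ => Nat.zero_le _
  · exact (Finset.card_filter_add_card_filter_not (s := A) fun z => wronskian z g = 0).ge
  · intro g2 hg2
    set C2 := E.filter fun z => wronskian z g2 = 0 with hC2
    have hprod : C.card * C2.card ≤ (A + A).card := by
      rw [← Finset.card_product]
      refine Finset.card_le_card_of_injOn (fun w => w.1 + w.2) ?_ ?_
      · intro w hw
        have hw' := Finset.mem_product.1 (Finset.mem_coe.1 hw)
        exact Finset.mem_coe.2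
          (Finset.add_mem_add (hCA hw'.1) (hEA (Finset.mem_filter.1 hw'.2).1))
      · intro w hw w' hw' h
        have h' : w.1 + w.2 = w'.1 + w'.2 := h
        obtain ⟨a1, a2⟩ := Finset.mem_product.1 (Finset.mem_coe.1 hw)
        obtain ⟨b1, b2⟩ := Finset.mem_product.1 (Finset.mem_coe.1 hw')
        have hv : w.1 - w'.1 = 0 := by
          by_contra hv
          have k1 := wr_sub (Finset.mem_filter.1 a1).2 (Finset.mem_filter.1 b1).2
          have k2 := wr_sub (Finset.mem_filter.1 b2).2 (Finset.mem_filter.1 a2).2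
          rw [show w'.2 - w.2 = w.1 - w'.1 by linear_combination -h'] at k2
          have k3 := wr_trans (wr_symm k2) k1 hv
          exact (Finset.mem_filter.1 (Finset.mem_filter.1 a2).1).2
            (wr_trans (Finset.mem_filter.1 a2).2 k3 hg2)
        have h1 : w.1 = w'.1 := sub_eq_zero.1 hv
        rw [h1] at h'
        exact Prod.ext h1 (add_left_cancel h')
    have hle : C2.card ≤ C.card := by
      by_contra hlt
      have : C.card * C.card ≤ C.card * C2.card := Nat.mul_le_mul_left _ (by omega)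
      nlinarith
    calc C2.card ^ 2 = C2.card * C2.card := sq _
      _ ≤ C.card * C2.card := Nat.mul_le_mul_right _ hle
      _ ≤ _ := hprod
  · refine card_add_split hCA he'.1 fun c hc hmem => he'.2 ?_
    obtain ⟨c1, h1, c2, h2, h3⟩ := Finset.mem_add.1 hmem
    rw [show e = c1 + c2 - c by linear_combination -h3]
    refine wr_sub ?_ (Finset.mem_filter.1 hc).2
    rw [wronskian_add_left, (Finset.mem_filter.1 h1).2, (Finset.mem_filter.1 h2).2, add_zero]

lemma exists_good3 (hp : 3 ≤ p) (A : Finset (ZMod p)[X]) (hA : NZ A) (hN : 2 * p ≤ A.card) :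
    ∃ D : Finset (ZMod p)[X], Good (A + A).card D ∧ A.card ^ 2 ≤ 18 * (A + A).card * D.card := by
  obtain ⟨D, hD, h⟩ := peel (G := (ZMod p)[X]) (Good (p := p))
    (fun s t D hst h => ⟨h.1, h.2.1.trans hst, fun g hg => (h.2.2 g hg).trans hst⟩)
    (fun s => ⟨fun z hz => absurd hz (Finset.notMem_empty _), by simp, fun g _ => by simp⟩)
    (NZ (p := p)) (fun A => ∑ z ∈ A, (z.natDegree + 1)) (A.card / 2)
    (fun B hB hM => step_classes3 hp B hB (by omega)) A hA
  exact ⟨D, hD, peel_bound (by omega)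
    (Finset.card_le_card_add_left (Finset.card_pos.1 (by omega))) h⟩

lemma cube_small3 {K : ℕ} (h : NoCube3 p K) {σ : ℕ} {D B A : Finset (ZMod p)[X]} (hD : Good σ D)
    (hB : B ⊆ D) {n : ℕ} (hn : ∀ z ∈ B, z.natDegree = n) {d : Fin K → (ZMod p)[X]}
    (hd : LinearIndependent (ZMod p) d)
    (hA : ∀ a ∈ A, ∀ S : Finset (Fin K), a + ∑ j ∈ S, d j ∈ B) :
    A.card ^ 2 ≤ (4 ^ K) ^ 2 * σ := by
  classical
  have hne : ∀ S T : Finset (Fin K), S ≠ T → ∑ j ∈ S, d j - ∑ j ∈ T, d j ≠ 0 := by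
    intro S T hST h0
    apply hST
    have h1 := Fintype.linearIndependent_iffₛ.1 hd (fun j => if j ∈ S then 1 else 0)
      (fun j => if j ∈ T then 1 else 0) (by
        simpa [ite_smul, Finset.sum_ite_mem] using sub_eq_zero.1 h0)
    ext j
    have := h1 j
    by_cases h2 : j ∈ S <;> by_cases h3 : j ∈ T <;> simp_all
  let cl : Finset (Fin K) × Finset (Fin K) → Finset (ZMod p)[X] := fun w =>
    if w.1 = w.2 then ∅ else
      (D.filter fun z => wronskian z (∑ j ∈ w.1, d j - ∑ j ∈ w.2, d j) = 0).image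
        fun z => z - ∑ j ∈ w.1, d j
  have hsub : A ⊆ Finset.univ.biUnion cl := by
    intro a ha
    by_contra hcon
    refine h a d n hd (fun S => ?_) fun S T hST hj => hcon ?_
    · have := hA a ha S
      exact ⟨(hD.1 _ (hB this)).1, (hD.1 _ (hB this)).2, hn _ this⟩
    · refine Finset.mem_biUnion.2 ⟨(S, T), Finset.mem_univ _, ?_⟩
      simp only [cl, if_neg hST]
      refine Finset.mem_image.2 ⟨a + ∑ j ∈ S, d j, Finset.mem_filter.2 ⟨hB (hA a ha S), ?_⟩,
        by ring⟩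
      unfold wronskian at hj ⊢
      simp only [derivative_add, derivative_sub] at hj ⊢
      linear_combination -hj
  have h1 := (Finset.card_le_card hsub).trans (Finset.card_biUnion_le_card_mul _ _ σ.sqrt
    fun w _ => by
      simp only [cl]
      split_ifs with hw
      · simp
      · exact Finset.card_image_le.trans (Nat.le_sqrt'.2 (hD.2.2 _ (hne _ _ hw))))
  rw [Finset.card_univ, Fintype.card_prod, Fintype.card_finset, Fintype.card_fin,
    ← mul_pow] at h1
  calc A.card ^ 2 ≤ (4 ^ K * σ.sqrt) ^ 2 := Nat.pow_le_pow_left h1 2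
    _ = (4 ^ K) ^ 2 * σ.sqrt ^ 2 := mul_pow _ _ _
    _ ≤ _ := Nat.mul_le_mul_left _ (Nat.sqrt_le' σ)

lemma large_growth3 (hp : 3 ≤ p) {K : ℕ} (h : NoCube3 p K) : ∃ c F : ℕ,
    ∀ A : Finset (ZMod p)[X], (∀ f ∈ A, IsSquare f) →
      A.card ^ (F + 1) ≤ c * (A + A).card ^ F := by
  set E := 8 * 2 ^ K with hE
  set c0 := 2 * p ^ K + (4 ^ K) ^ 2 + 2 * p + 2 with hc0
  refine ⟨c0 * 72 ^ (2 * E + 1), 2 * E + 1, fun A hsq => ?_⟩
  by_contra hcon
  have hcon' : c0 * 72 ^ (2 * E + 1) * (A + A).card ^ (2 * E + 1) < A.card ^ (2 * E + 1 + 1) :=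
    not_le.1 hcon
  have hAne : A.Nonempty := by
    rw [Finset.nonempty_iff_ne_empty]
    rintro rfl
    simp at hcon'
  have hNσ : A.card ≤ (A + A).card := Finset.card_le_card_add_left hAne
  have hN0 : (0 : ℝ) < A.card := by exact_mod_cast hAne.card_pos
  have hNσ' : (A.card : ℝ) ≤ (A + A).card := by exact_mod_cast hNσ
  set N : ℝ := (A.card : ℝ) with hN
  set σ : ℝ := ((A + A).card : ℝ) with hσ
  have hσ0 : 0 < σ := hN0.trans_le hNσ'
  set ρ : ℝ := N / (72 * σ) with hρ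
  have hρ0 : 0 < ρ := by positivity
  have hρ1 : ρ ≤ 1 := by rw [hρ, div_le_one (by positivity)]; linarith
  have hρσ : 72 * σ * ρ = N := by rw [hρ]; field_simp
  have hmain : (c0 : ℝ) < N * ρ ^ (2 * E + 1) := by
    have h1 : (c0 : ℝ) * 72 ^ (2 * E + 1) * σ ^ (2 * E + 1) < N ^ (2 * E + 1 + 1) := by
      rw [hN, hσ]; exact_mod_cast hcon'
    rw [hρ, div_pow, ← mul_div_assoc, lt_div_iff₀ (by positivity), mul_pow, ← pow_succ', ← mul_assoc]
    exact h1
  have hmono : ∀ e, e ≤ 2 * E + 1 → (c0 : ℝ) < N * ρ ^ e := fun e he =>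
    hmain.trans_le (mul_le_mul_of_nonneg_left (pow_le_pow_of_le_one hρ0.le hρ1 he) hN0.le)
  have hc0' : (c0 : ℝ) = 2 * (p : ℝ) ^ K + ((4 : ℝ) ^ K) ^ 2 + 2 * p + 2 := by rw [hc0]; push_cast; ring
  have hbig : 2 * p + 2 < A.card := by
    have h1 := hmono 0 (by omega)
    rw [pow_zero, mul_one, hN] at h1
    have h2 : c0 < A.card := by exact_mod_cast h1
    omega
  have hcard : (A.erase 0).card + 1 ≥ A.card := by
    have := Finset.pred_card_le_card_erase (s := A) (a := 0)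
    omega
  obtain ⟨D, hD, hD2⟩ := exists_good3 hp (A.erase 0)
    (fun z hz => ⟨hsq z (Finset.mem_erase.1 hz).2, (Finset.mem_erase.1 hz).1⟩) (by omega)
  have hσ' : (A.erase 0 + A.erase 0).card ≤ (A + A).card :=
    Finset.card_le_card (Finset.add_subset_add (Finset.erase_subset _ _) (Finset.erase_subset _ _))
  have hD' : Good (A + A).card D := ⟨hD.1, hD.2.1.trans hσ', fun g hg => (hD.2.2 g hg).trans hσ'⟩
  have hD3 : N * ρ ≤ D.card := by
    have h1 : A.card ^ 2 ≤ 72 * (A + A).card * D.card := by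
      calc A.card ^ 2 ≤ (2 * (A.erase 0).card) ^ 2 := Nat.pow_le_pow_left (by omega) 2
        _ = 4 * (A.erase 0).card ^ 2 := by ring
        _ ≤ 4 * (18 * (A + A).card * D.card) := by
          refine Nat.mul_le_mul_left _ (hD2.trans ?_)
          gcongr
        _ = _ := by ring
    have h2 : N ^ 2 ≤ 72 * σ * D.card := by rw [hN, hσ]; exact_mod_cast h1
    refine le_of_mul_le_mul_left ?_ (show 0 < 72 * σ by positivity)
    calc 72 * σ * (N * ρ) = N * (72 * σ * ρ) := by ring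
      _ = N ^ 2 := by rw [hρσ]; ring
      _ ≤ _ := h2
  have hD4 : 2 ≤ D.card := by
    have h1 := hmono 1 (by omega)
    rw [pow_one] at h1
    have h2 : c0 < D.card := by exact_mod_cast h1.trans_le hD3
    omega
  obtain ⟨B, hBD, ⟨n, hn⟩, hB2⟩ := exists_one_degree D hD4
  have hB3 : N * ρ ^ 3 ≤ B.card := by
    have h1 : D.card ^ 2 ≤ 18 * (A + A).card * B.card := hB2.trans (by
      have := hD'.2.1
      gcongr)
    have h2 : (D.card : ℝ) ^ 2 ≤ 18 * σ * B.card := by rw [hσ]; exact_mod_cast h1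
    have h3 : (N * ρ) ^ 2 ≤ (D.card : ℝ) ^ 2 := by gcongr
    have h4 : (0 : ℝ) ≤ B.card := Nat.cast_nonneg _
    refine le_of_mul_le_mul_left ?_ hN0
    calc N * (N * ρ ^ 3) = ρ * (N * ρ) ^ 2 := by ring
      _ ≤ ρ * (18 * σ * B.card) := mul_le_mul_of_nonneg_left (h3.trans h2) hρ0.le
      _ ≤ ρ * (72 * σ * B.card) := by gcongr; norm_num
      _ = 72 * σ * ρ * B.card := by ring
      _ = _ := by rw [hρσ]
  have hτ : 2 * ((B - B).card : ℝ) ≤ N / ρ ^ 5 := by
    have h1 := Finset.ruzsa_triangle_inequality_sub_add_add B B B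
    have h2 : (B + B).card ≤ (A + A).card :=
      (Finset.card_le_card (Finset.add_subset_add hBD hBD)).trans hD'.2.1
    have h3 : ((B - B).card : ℝ) * B.card ≤ σ * σ := by
      rw [hσ]; exact_mod_cast h1.trans (Nat.mul_le_mul h2 h2)
    have h4 : ((B - B).card : ℝ) * (N * ρ ^ 3) ≤ σ * σ :=
      (mul_le_mul_of_nonneg_left hB3 (Nat.cast_nonneg _)).trans h3
    rw [le_div_iff₀ (by positivity)]
    refine le_of_mul_le_mul_left ?_ hN0
    calc N * (2 * ((B - B).card : ℝ) * ρ ^ 5)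
        = 2 * ρ ^ 2 * (((B - B).card : ℝ) * (N * ρ ^ 3)) := by ring
      _ ≤ 2 * ρ ^ 2 * (σ * σ) := by gcongr
      _ ≤ 72 ^ 2 * ρ ^ 2 * (σ * σ) := by gcongr; norm_num
      _ = (72 * σ * ρ) ^ 2 := by ring
      _ = _ := by rw [hρσ]; ring
  have hT : N * ρ ^ E ≤ N / ρ ^ 5 * (ρ ^ 8) ^ 2 ^ K := by
    rw [← pow_mul, ← hE]
    refine mul_le_mul_of_nonneg_right ?_ (by positivity)
    rw [le_div_iff₀ (by positivity)]
    exact mul_le_of_le_one_right hN0.le (pow_le_one₀ hρ0.le hρ1)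
  obtain ⟨d, A', hd, hA', hcube⟩ := exists_cube (F := ZMod p) B (N / ρ ^ 5) (ρ ^ 8) hτ
    (by positivity) (by positivity) (pow_le_one₀ hρ0.le hρ1)
    (le_trans (le_of_eq (by field_simp)) hB3) K (by
      rw [ZMod.card]
      refine le_trans ?_ ((hmono E (by omega)).le.trans hT)
      rw [hc0']
      have : (0 : ℝ) ≤ ((4 : ℝ) ^ K) ^ 2 + 2 * p + 2 := by positivity
      linarith)
  have h1 := cube_small3 h hD' hBD hn hd hcube
  have h2 : (A'.card : ℝ) ^ 2 ≤ ((4 : ℝ) ^ K) ^ 2 * σ := by rw [hσ]; exact_mod_cast h1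
  have h3 : (N * ρ ^ E) ^ 2 ≤ (A'.card : ℝ) ^ 2 := by
    have := hT.trans hA'
    gcongr
  have h4 : N * (N * ρ ^ (2 * E + 1)) ≤ N * ((4 : ℝ) ^ K) ^ 2 := by
    calc N * (N * ρ ^ (2 * E + 1)) = ρ * (N * ρ ^ E) ^ 2 := by ring
      _ ≤ ρ * (((4 : ℝ) ^ K) ^ 2 * σ) := mul_le_mul_of_nonneg_left (h3.trans h2) hρ0.le
      _ ≤ ρ * (((4 : ℝ) ^ K) ^ 2 * (72 * σ)) := by gcongr; linarith
      _ = 72 * σ * ρ * ((4 : ℝ) ^ K) ^ 2 := by ring
      _ = _ := by rw [hρσ]
  have h5 := le_of_mul_le_mul_left h4 hN0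
  have h6 : (0 : ℝ) ≤ 2 * (p : ℝ) ^ K + 2 * p + 2 := by positivity
  linarith

end Steps

theorem growth_large (p : ℕ) [Fact p.Prime] (hp : 3 ≤ p) (K : ℕ) (h : NoCube3 p K) :
    ∃ ε : ℝ, 0 < ε ∧ ∃ N : ℕ, ∀ A : Finset (ZMod p)[X], (∀ f ∈ A, IsSquare f) →
      (N ≤ A.card ∨ A.card < (A + A).card) → (A.card : ℝ) ^ (1 + ε) ≤ ((A + A).card : ℝ) := by
  obtain ⟨c, F, hF⟩ := large_growth3 hp h
  obtain ⟨L, hL, hL2⟩ := exists_exponent c F
  refine ⟨1 / (L : ℝ), by positivity, c + 1, fun A hA hN => rpow_le_of_pow_le hL ?_⟩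
  have h1 : A.card ≤ (A + A).card := by
    rcases A.eq_empty_or_nonempty with rfl | hne
    · simp
    · exact Finset.card_le_card_add_left hne
  refine hL2 _ _ h1 (fun h2 => ?_) (hF A hA)
  rcases hN with hN | hN
  · by_contra hcon
    have h3 : (A + A).card = A.card := by omega
    have h4 := hF A hA
    rw [h3, pow_succ'] at h4
    have := Nat.le_of_mul_le_mul_right h4 (by positivity)
    omega
  · exact hN

end Pool.Agent.P.MP_9d026e_co.Three
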